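import Pool.Agent.P.MP_26a8c3_nt.Lg.Defs
import Pool.Agent.P.MP_a14ce1_nt.Ch.Sieve

/-! The upper sieve bound and the mean of multiplicative weights. -/

namespace Pool.Agent.P.MP_26a8c3_nt.Lg

open Finset MeasureTheory
open scoped ContDiff
open Pool.Agent.P.MP_a14ce1_nt
open Inf

namespace SV

lemma prod_Icc (z : ℕ) (hz : 1 ≤ z) : ∏ n ∈ Icc 2 z, (1 - (n : ℝ)⁻¹) = (z : ℝ)⁻¹ := by
  induction z, hz using Nat.le_induction with
  | base => simp
  | succ n hn ih =>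
    have h0 : (0 : ℝ) < n := by exact_mod_cast hn
    rw [prod_Icc_succ_top (by omega), ih]
    push_cast
    field_simp
    ring

lemma VV_ge {P : Finset ℕ} {z : ℕ} (hz : 1 ≤ z) (hP : ∀ p ∈ P, p.Prime ∧ p ≤ z) :
    (z : ℝ)⁻¹ ≤ VV P := by
  rw [← prod_Icc z hz, VV]
  refine prod_le_prod_of_subset_of_le_one (fun p hp => mem_Icc.2 ⟨(hP p hp).1.two_le, (hP p hp).2⟩)
    (fun n hn => sub_nonneg.2 (inv_le_one_of_one_le₀ ?_)) fun n _ _ => sub_le_self _ (by positivity)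
  exact_mod_cast (by have := (mem_Icc.1 hn).1; omega : 1 ≤ n)

lemma cnt {T : Finset ℕ} (hT : ∀ p ∈ T, p.Prime) {y : ℝ} (hy : 0 ≤ y) :
    |((((Ioc 0 ⌊y⌋₊).filter fun x => ∀ p ∈ T, p ∣ x).card : ℕ) : ℝ) - y * ∏ p ∈ T, (p : ℝ)⁻¹| ≤ 1 := by
  have e : ((Ioc 0 ⌊y⌋₊).filter fun x => ∀ p ∈ T, p ∣ x) = (Ioc 0 ⌊y⌋₊).filter (pr T ∣ ·) :=
    filter_congr fun x _ => ⟨fun h => prod_primes_dvd x (fun p hp => (hT p hp).prime) h,
      fun h p hp => (dvd_prod_of_mem _ hp).trans h⟩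
  rw [e, Nat.Ioc_filter_dvd_card_eq_div, prod_inv_distrib, ← pr_cast, ← div_eq_mul_inv,
    ← Nat.floor_div_natCast, abs_le]
  have h1 := Nat.floor_le (a := y / (pr T : ℝ)) (by positivity)
  have h2 := Nat.lt_floor_add_one (y / (pr T : ℝ))
  constructor <;> linarith

lemma cop_iff {P : Finset ℕ} (hP : ∀ p ∈ P, p.Prime) {n : ℕ} :
    Nat.Coprime n (pr P) ↔ ∀ p ∈ P, ¬ p ∣ n := by
  rw [pr, Nat.coprime_prod_right_iff]
  exact forall₂_congr fun p hp => by rw [Nat.coprime_comm, (hP p hp).coprime_iff_not_dvd]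

end SV

open SV

theorem sv : S_SV := by
  obtain ⟨C, hC, h⟩ := Ch.sieve 1 (1 / 2) zero_le_one (by norm_num)
  refine ⟨C + 3, by linarith, fun P z hP y hy S hS => ?_⟩
  have hy0 : 0 ≤ y := le_trans (by positivity) hy
  have hP' : ∀ p ∈ P, p.Prime := fun p hp => (hP p hp).1
  have hsub : S ⊆ (Ioc 0 ⌊y⌋₊).filter fun x => ∀ p ∈ P, ¬ p ∣ x := fun n hn =>
    mem_filter.2 ⟨mem_seg.2 ⟨(hS n hn).1, (hS n hn).2.1⟩, (cop_iff hP').1 (hS n hn).2.2⟩
  have hc : (S.card : ℝ) ≤ (((Ioc 0 ⌊y⌋₊).filter fun x => ∀ p ∈ P, ¬ p ∣ x).card : ℕ) := by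
    exact_mod_cast card_le_card hsub
  rcases lt_or_ge z 2 with hz | hz
  · have hE : P = ∅ := eq_empty_of_forall_notMem fun p hp => by
      have := (hP p hp).1.two_le
      have := (hP p hp).2
      omega
    have h1 : (S.card : ℝ) ≤ y := by
      refine le_trans ?_ (card_seg hy0)
      exact_mod_cast card_le_card (hsub.trans (filter_subset _ _))
    rw [hE, VV, prod_empty]
    nlinarith
  have hV := VV_ge (by omega) hP
  have hz' : (2 : ℝ) ≤ z := by exact_mod_cast hz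
  have key := h ℕ (Ioc 0 ⌊y⌋₊) (fun _ => 1) z 0 P (fun x p => p ∣ x) (fun p => (p : ℝ)⁻¹) y 1
    (y : ℂ) (fun _ => 1) hz hy0 (by rw [Complex.norm_real, Real.norm_of_nonneg hy0])
    (fun _ _ => by simp) hP
    (fun p hp => ⟨by positivity, by rw [one_div], by
      have : (2 : ℝ) ≤ p := by exact_mod_cast (hP p hp).1.two_le
      have := inv_anti₀ (by norm_num) this
      linarith⟩) (fun _ => zero_le_one)
    (fun T hT _ => cnt (fun p hp => hP' p (hT hp)) hy0)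
    (fun T hT _ => by
      have := cnt (fun p hp => hP' p (hT hp)) hy0
      rw [sum_const, nsmul_eq_mul, mul_one, ← Complex.ofReal_natCast, ← Complex.ofReal_mul,
        ← Complex.ofReal_sub, Complex.norm_real]
      exact this)
  rw [sum_const, nsmul_eq_mul, mul_one, ← Complex.ofReal_natCast, ← Complex.ofReal_mul,
    ← Complex.ofReal_sub, Complex.norm_real, Real.norm_eq_abs, sum_const, Nat.card_Icc] at key
  have k2 := (abs_le.1 key).2
  simp only [mul_zero, zero_add, pow_zero, div_one, mul_one, add_tsub_cancel_right, nsmul_eq_mul,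
    Nat.cast_pow] at k2
  change _ - y * VV P ≤ C * y * VV P + _ + _ at k2
  have h8 : (z : ℝ) ^ 8 ≤ y * VV P := by
    calc (z : ℝ) ^ 8 ≤ (z : ℝ) ^ 9 := pow_le_pow_right₀ (by linarith) (by norm_num)
      _ = (z : ℝ) ^ 10 * (z : ℝ)⁻¹ := by field_simp
      _ ≤ _ := mul_le_mul hy hV (by positivity) hy0
  have h6 : (z : ℝ) ^ 6 ≤ (z : ℝ) ^ 8 := pow_le_pow_right₀ (by linarith) (by norm_num)
  nlinarith

theorem mm (h : S_SV) : S_MM := by
  obtain ⟨C, hC, h⟩ := h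
  refine ⟨C, hC, fun P z x w hP hx hw => ?_⟩
  have hx0 : 0 ≤ x := le_trans (by positivity) hx
  have e1 : ∀ d : ℕ, ∏ p ∈ P.filter (· ∣ d), w p = ∑ t ∈ P.powerset,
      ((∏ p ∈ t, (1 - w p)) * ∏ p ∈ P \ t, w p) * if ∀ p ∈ t, ¬ p ∣ d then 1 else 0 := by
    intro d
    rw [prod_filter, prod_congr rfl (g := fun p => (1 - w p) * (if ¬ p ∣ d then 1 else 0) + w p)
      (fun p _ => by by_cases hd : p ∣ d <;> simp [hd]), prod_add]
    refine sum_congr rfl fun t _ => ?_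
    rw [prod_mul_distrib, prod_boole]
    ring
  have e2 : ∀ t ∈ P.powerset, ∑ d ∈ Ioc 0 ⌊x⌋₊, ((∏ p ∈ t, (1 - w p)) * ∏ p ∈ P \ t, w p) *
      (if ∀ p ∈ t, ¬ p ∣ d then 1 else 0 : ℝ) ≤
      C * x * ((∏ p ∈ t, ((1 - w p) * (1 - (p : ℝ)⁻¹))) * ∏ p ∈ P \ t, w p) := by
    intro t ht
    have ht' := mem_powerset.1 ht
    have hn : 0 ≤ (∏ p ∈ t, (1 - w p)) * ∏ p ∈ P \ t, w p :=
      mul_nonneg (prod_nonneg fun p hp => sub_nonneg.2 (hw p (ht' hp)).2)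
        (prod_nonneg fun p hp => (hw p (mem_sdiff.1 hp).1).1)
    have h1 := h t z (fun p hp => hP p (ht' hp)) x hx
      ((Ioc 0 ⌊x⌋₊).filter fun d => ∀ p ∈ t, ¬ p ∣ d) fun n hn =>
        ⟨(mem_seg.1 (mem_filter.1 hn).1).1, (mem_seg.1 (mem_filter.1 hn).1).2,
          (cop_iff fun p hp => (hP p (ht' hp)).1).2 (mem_filter.1 hn).2⟩
    rw [← mul_sum, sum_boole, prod_mul_distrib]
    refine (mul_le_mul_of_nonneg_left h1 hn).trans (le_of_eq ?_)
    rw [VV]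
    ring
  simp_rw [e1]
  rw [sum_comm]
  refine (sum_le_sum e2).trans ?_
  rw [← mul_sum, ← prod_add, ← sum_neg_distrib, Real.exp_sum]
  refine mul_le_mul_of_nonneg_left (prod_le_prod (fun p hp => ?_) fun p _ => ?_) (by positivity)
  · have : (p : ℝ)⁻¹ ≤ 1 := inv_le_one_of_one_le₀ (by exact_mod_cast (hP p hp).1.one_le)
    exact add_nonneg (mul_nonneg (sub_nonneg.2 (hw p hp).2) (sub_nonneg.2 this)) (hw p hp).1
  · have := Real.add_one_le_exp (-((1 - w p) / p))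
    rw [div_eq_mul_inv] at this ⊢
    linarith

end Pool.Agent.P.MP_26a8c3_nt.Lg
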