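import Pool.Agent.P.MP_26a8c3_nt.Lg.Defs

/-! The two uses of the change of ratio. -/

namespace Pool.Agent.P.MP_26a8c3_nt.Lg

open Finset
open scoped ComplexConjugate
open Inf

namespace CA1

lemma gd_GG {α β : ℕ → ℝ} {P : ℕ → Prop} (ha : ∀ n, |α n| ≤ 1) (hb : ∀ n, |β n| ≤ 1)
    (ha0 : α 0 = 0) (hb0 : β 0 = 0) (ham : ∀ a b, α (a * b) = α a * α b)
    (hbm : ∀ a b, β (a * b) = β a * β b) (h : ∀ p, P p → α p = β p) (Y : ℝ) :
    Gd (GG α β Y) P := by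
  refine ⟨norm_GG ha hb Y, fun e => by simp [GG, ha0], fun d => by simp [GG, hb0],
    fun p hp d e => ?_⟩
  simp only [GG, ham, hbm, h p hp, Nat.cast_mul, Complex.ofReal_mul]
  rw [show (p * d * e : ℝ) = d * (p * e) by ring]
  ring

lemma win_HK {H : ℝ → ℝ → ℂ} {W : ℝ} (h : Win H W) (hW : 1 ≤ W) {N k : ℕ} (hWN : W ≤ N)
    (hN : 3 ≤ N) (hk : 0 < k) : Win (HK H N k) ((N : ℝ) ^ 35) := by
  have hN' : (3 : ℝ) ≤ N := by exact_mod_cast hN
  have hk' : (1 : ℝ) ≤ k := by exact_mod_cast hk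
  have h1 : (1 : ℝ) ≤ N := by linarith
  have p1 : (N : ℝ) ≤ (N : ℝ) ^ 35 := le_self_pow₀ h1 (by norm_num)
  have p4 : (N : ℝ) ^ 4 ≤ (N : ℝ) ^ 35 := pow_le_pow_right₀ h1 (by norm_num)
  have h' := h.mono (by linarith) hWN
  refine ⟨fun s t h0 => ?_, fun s t => ?_, fun s t s' t' => ?_⟩
  · have h2 := h'.mono (by linarith) p1
    exact ⟨(h2.supp _ _ (left_ne_zero_of_mul h0)).1,
      (h2.supp _ _ ((map_ne_zero _).1 (right_ne_zero_of_mul h0))).1⟩
  · exact (norm_HK h'.bd N k s t).trans (pow_le_pow_right₀ h1 (by norm_num))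
  · set y := N * (t - s) / k with hy
    set y' := N * (t' - s') / k with hy'
    have a0 := abs_nonneg (s - s')
    have a0' := abs_nonneg (t - t')
    have a1 : |y - y'| ≤ N * (|s - s'| + |t - t'|) := by
      rw [show y - y' = N * ((t - t') - (s - s')) / k by rw [hy, hy']; ring, abs_div, abs_mul,
        Nat.abs_cast, Nat.abs_cast]
      refine (div_le_self (by positivity) hk').trans (mul_le_mul_of_nonneg_left ?_ (by positivity))
      linarith [abs_sub (t - t') (s - s')]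
    have a2 := h'.lip s y s' y'
    have a3 := h'.lip t y t' y'
    rw [HK, HK, ← hy, ← hy', show H s y * conj (H t y) - H s' y' * conj (H t' y') =
      (H s y - H s' y') * conj (H t y) + H s' y' * conj (H t y - H t' y') by rw [map_sub]; ring]
    refine (norm_add_le _ _).trans ?_
    simp only [norm_mul, Complex.norm_conj]
    have b1 := mul_le_mul a2 (h'.bd t y) (norm_nonneg _) (by positivity)
    have b2 := mul_le_mul (h'.bd s' y') a3 (norm_nonneg _) (by positivity)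
    have b3 := mul_le_mul_of_nonneg_left a1 (show (0 : ℝ) ≤ 2 * N ^ 2 by positivity)
    have b4 : (N : ℝ) ^ 2 + 2 * N ^ 3 ≤ N ^ 4 := by nlinarith [pow_pos (show (0 : ℝ) < N by linarith) 2, mul_le_mul hN' hN' (by norm_num) (by linarith : (0 : ℝ) ≤ N), mul_le_mul_of_nonneg_left hN' (show (0 : ℝ) ≤ N ^ 3 by positivity), mul_le_mul_of_nonneg_left h1 (show (0 : ℝ) ≤ N ^ 2 by positivity)]
    have b5 := mul_le_mul_of_nonneg_right (b4.trans p4) (add_nonneg a0 a0')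
    nlinarith

end CA1

open CA1

theorem ca1 (hu : S_U) (ht : S_TVP) : S_CA1 := by
  obtain ⟨n₀, W₀, ht⟩ := ht
  refine ⟨35 * n₀ + 35, max ⌈W₀⌉₊ 3, fun N hN W z hW hWN hz hlog H hH X => ?_⟩
  have hN3 : 3 ≤ N := le_of_max_le_right hN
  have hN' : (3 : ℝ) ≤ N := by exact_mod_cast hN3
  have h1 : (1 : ℝ) ≤ N := by linarith
  have hN0 : (0 : ℝ) < N := by linarith
  have p1 : (N : ℝ) ≤ (N : ℝ) ^ 35 := le_self_pow₀ h1 (by norm_num)
  have hW0 : W₀ ≤ (N : ℝ) ^ 35 :=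
    (Nat.ceil_le.1 (le_of_max_le_left hN)).trans p1
  have hP : ∀ p ∈ GP N, p.Prime ∧ Real.exp N < p ∧ (p : ℝ) ≤ Real.exp ((N : ℝ) ^ 33) :=
    fun p hp => (mem_pr (Real.exp_pos _).le).1 hp
  have hodd : ∀ {p : ℕ} {t : ℝ}, 3 ≤ t → Real.exp t < p → p ≠ 2 := by
    rintro p t a b rfl
    have := Real.add_one_le_exp t
    push_cast at b
    linarith
  obtain ⟨um, u0, u1, -, up, -⟩ := hu (GP N) fun p hp => ⟨(hP p hp).1, hodd hN' (hP p hp).2.1⟩
  have hup : ∀ p : ℕ, p.Prime ∧ Real.exp ((N : ℝ) ^ 35) < p → uu (GP N) p = fo p := by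
    intro p hp
    have a1 := hodd (hN'.trans p1) hp.2
    rw [fo_Mf.prime p hp.1 a1]
    refine up p hp.1 a1 fun hm => ?_
    have := Real.exp_le_exp.2 (pow_le_pow_right₀ h1 (show 33 ≤ 35 by norm_num))
    linarith [(hP p hm).2.2, hp.2]
  have g1 := fun Y => gd_GG u1 fo_Mf.bd u0 fo_Mf.zero um fo_Mf.mul hup Y
  have g2 := fun Y => gd_GG (P := fun p => p.Prime ∧ Real.exp ((N : ℝ) ^ 35) < p) u1 u1 u0 u0 um um
    (fun _ _ => rfl) Y
  have hS : ∀ S ∈ PJ (GP N) N, (1 : ℝ) ≤ pr S ∧ Real.log (pr S) ≤ (N : ℝ) ^ 34 := by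
    intro S hS
    obtain ⟨a1, a2⟩ := mem_PJ.1 hS
    refine ⟨by exact_mod_cast pr_pos fun p hp => (hP p (a1 hp)).1, ?_⟩
    rw [pr_cast, Real.log_prod fun p hp => by exact_mod_cast (hP p (a1 hp)).1.ne_zero]
    refine (sum_le_card_nsmul _ _ ((N : ℝ) ^ 33) fun p hp => ?_).trans ?_
    · rw [Real.log_le_iff_le_exp (by exact_mod_cast (hP p (a1 hp)).1.pos)]
      exact (hP p (a1 hp)).2.2
    · rw [nsmul_eq_mul, pow_succ' _ 33]
      exact mul_le_mul_of_nonneg_right (by exact_mod_cast a2) (by positivity)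
  have hsN : 1 ≤ √(N : ℝ) := Real.one_le_sqrt.2 h1
  have hsN2 : √(N : ℝ) ^ 2 = N := Real.sq_sqrt hN0.le
  have p2 : (N : ℝ) ^ 34 ≤ (N : ℝ) ^ 35 := pow_le_pow_right₀ h1 (by norm_num)
  have hζ : ∀ S ∈ PJ (GP N) N, 0 < √(pr S : ℝ) ∧ √(pr S : ℝ) ^ 2 = pr S ∧
      |Real.log √(pr S : ℝ)| ≤ (N : ℝ) ^ 35 ∧
      ((N : ℝ) ^ 35) ^ n₀ ≤ Real.log (z / √(pr S : ℝ)) := by
    intro S hS'
    obtain ⟨a1, a2⟩ := hS S hS'
    have a3 : 0 < √(pr S : ℝ) := Real.sqrt_pos.2 (by linarith)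
    have a4 := Real.log_nonneg a1
    have a5 : (0 : ℝ) ≤ (N : ℝ) ^ 34 := by positivity
    refine ⟨a3, Real.sq_sqrt (by linarith), ?_, ?_⟩
    · rw [Real.log_sqrt (by linarith), abs_of_nonneg (by linarith)]
      linarith
    · rw [Real.log_div hz.ne' a3.ne', Real.log_sqrt (by linarith), ← pow_mul]
      rw [pow_add] at hlog
      have b1 : (1 : ℝ) ≤ (N : ℝ) ^ (35 * n₀) := one_le_pow₀ h1
      have b2 : (3 : ℝ) ≤ (N : ℝ) ^ 35 := hN'.trans p1
      nlinarith [mul_le_mul_of_nonneg_right b1 (show (0 : ℝ) ≤ (N : ℝ) ^ 35 by positivity),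
        mul_le_mul_of_nonneg_left b2 (zero_le_one.trans b1)]
  have hH' := hH.mono (by linarith) (hWN.trans p1)
  refine ⟨fun S hS' => ?_, fun S hS' k hk hkN => ?_⟩
  · obtain ⟨a1, a2, a3, a4⟩ := hζ S hS'
    have b1 := ht _ _ hW0 (div_pos hz a1) a4 1 le_rfl (by push_cast; linarith) H hH' _
      (g1 (X / pr S)) _ a1 a3
    have b2 := ht _ _ hW0 (div_pos hz a1) a4 1 le_rfl (by push_cast; linarith) H hH' _
      (g1 (X / pr S)) (√N)⁻¹ (by positivity) (by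
        rw [Real.log_inv, abs_neg, abs_of_nonneg (Real.log_nonneg hsN), Real.log_sqrt hN0.le]
        linarith [Real.log_le_sub_one_of_pos hN0])
    rw [div_div, ← sq, a2, div_mul_cancel₀ _ a1.ne', div_pow, a2] at b1
    rw [div_inv_eq_mul, mul_comm _ √(N : ℝ), ← div_eq_mul_inv, div_pow, a2] at b2
    refine ((norm_sub_le_norm_sub_add_norm_sub _ _ _).trans (add_le_add b1
      ((norm_sub_rev _ _).trans_le b2))).trans (le_of_eq (by ring))
  · obtain ⟨a1, a2, a3, a4⟩ := hζ S hS'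
    have a5 := div_pos hz a1
    have b1 := ht _ (√N * (z / √(pr S : ℝ))) hW0 (by positivity) (a4.trans (Real.log_le_log a5
      (le_mul_of_one_le_left a5.le hsN))) k hk ((Nat.cast_le.2 hkN.le).trans p1) _
      (win_HK hH hW hWN hN3 hk) _ (g2 (k * X / pr S)) _ a1 a3
    rw [mul_div_assoc √(N : ℝ) _ √(pr S : ℝ), div_div, ← sq, a2, ← mul_div_assoc √(N : ℝ) z,
      mul_assoc √(N : ℝ) _ √(pr S : ℝ), div_mul_cancel₀ _ a1.ne', mul_pow, div_pow, a2,
      hsN2] at b1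
    refine ((norm_sub_rev _ _).trans_le b1).trans ?_
    have : 0 ≤ N * (z ^ 2 / pr S) / (N : ℝ) ^ 35 := by positivity
    calc _ ≤ 2 * (N * (z ^ 2 / pr S) / (N : ℝ) ^ 35) := by linarith
      _ = _ := by ring

end Pool.Agent.P.MP_26a8c3_nt.Lg
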