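import Pool.Agent.P.MP_26a8c3_nt.Lg.Defs

/-! Diagonal and off-diagonal bounds. -/

namespace Pool.Agent.P.MP_26a8c3_nt.Lg

open Finset MeasureTheory
open scoped ContDiff
open Pool.Agent.P.MP_a14ce1_nt
open Inf
open Hyb (ee ee_add norm_ee)

namespace CA2

lemma mem_GP {N p : ℕ} (hp : p ∈ GP N) :
    p.Prime ∧ Real.exp N < p ∧ (p : ℝ) ≤ Real.exp ((N : ℝ) ^ 33) :=
  (mem_pr (Real.exp_pos _).le).1 hp

lemma lt_of_mem {N p : ℕ} (hp : p ∈ GP N) : N + 1 < p := by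
  have h1 := (mem_GP hp).2.1
  have h2 : (N : ℝ) + 1 ≤ Real.exp N := Real.add_one_le_exp _
  exact_mod_cast h2.trans_lt h1

lemma pr_le_exp {N : ℕ} {S : Finset ℕ} (hS : S ∈ PJ (GP N) N) :
    (pr S : ℝ) ≤ Real.exp ((N : ℝ) ^ 34) := by
  obtain ⟨h1, h2⟩ := mem_PJ.1 hS
  rw [pr_cast]
  calc ∏ p ∈ S, (p : ℝ) ≤ ∏ _p ∈ S, Real.exp ((N : ℝ) ^ 33) :=
        prod_le_prod (fun p _ => Nat.cast_nonneg p) fun p hp => (mem_GP (h1 hp)).2.2
    _ = Real.exp (S.card * (N : ℝ) ^ 33) := by rw [prod_const, Real.exp_nat_mul]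
    _ ≤ _ := by
        apply Real.exp_le_exp.2
        have : (S.card : ℝ) ≤ N := by exact_mod_cast h2
        calc (S.card : ℝ) * (N : ℝ) ^ 33 ≤ N * (N : ℝ) ^ 33 := by gcongr
          _ = _ := by ring

lemma z0_le {N : ℕ} (hN : 4 ≤ N) {z : ℝ} (hz : 0 < z) (hl : (N : ℝ) ^ 35 ≤ Real.log z) :
    ((⌊Real.exp ((N : ℝ) ^ 33)⌋₊ : ℕ) : ℝ) ^ 10 * Real.exp ((N : ℝ) ^ 34) ≤ z := by
  have h4 : (4 : ℝ) ≤ N := by exact_mod_cast hN
  have h1 : ((⌊Real.exp ((N : ℝ) ^ 33)⌋₊ : ℕ) : ℝ) ≤ Real.exp ((N : ℝ) ^ 33) :=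
    Nat.floor_le (Real.exp_pos _).le
  have h2 : Real.exp ((N : ℝ) ^ 35) ≤ z := (Real.le_log_iff_exp_le hz).1 hl
  calc _ ≤ Real.exp ((N : ℝ) ^ 33) ^ 10 * Real.exp ((N : ℝ) ^ 34) := by gcongr
    _ = Real.exp ((10 : ℕ) * (N : ℝ) ^ 33 + (N : ℝ) ^ 34) := by
        rw [Real.exp_add, Real.exp_nat_mul]
    _ ≤ Real.exp ((N : ℝ) ^ 35) := by
        apply Real.exp_le_exp.2
        have h3 : (0 : ℝ) ≤ (N : ℝ) ^ 33 := by positivity
        have h5 : (10 : ℝ) + N ≤ (N : ℝ) ^ 2 := by nlinarith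
        calc ((10 : ℕ) : ℝ) * (N : ℝ) ^ 33 + (N : ℝ) ^ 34 = (10 + N) * (N : ℝ) ^ 33 := by
              push_cast; ring
          _ ≤ (N : ℝ) ^ 2 * (N : ℝ) ^ 33 := by gcongr
          _ = _ := by ring
    _ ≤ z := h2

lemma lam_le {C₁ : ℝ} (hC : 0 < C₁) {N k : ℕ} [NeZero k]
    (hn : ∀ χ : DirichletCharacter ℂ k, χ ≠ 1 → ‖∑ p ∈ GP N, χ p / (p : ℂ)‖ ≤ C₁)
    (hk : ∀ p ∈ GP N, Nat.Coprime p k) (χ : DirichletCharacter ℂ k) :
    rc (GP N) - C₁ ≤ ∑ p ∈ GP N, (1 + (χ p).re) / p := by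
  have e : ∑ p ∈ GP N, (1 + (χ p).re) / (p : ℝ) =
      rc (GP N) + (∑ p ∈ GP N, χ p / (p : ℂ)).re := by
    rw [rc, Complex.re_sum, ← sum_add_distrib]
    refine sum_congr rfl fun p _ => ?_
    rw [Complex.div_natCast_re, add_div, one_div]
  by_cases h1 : χ = 1
  · subst h1
    have : rc (GP N) ≤ ∑ p ∈ GP N, (1 + ((1 : DirichletCharacter ℂ k) p).re) / (p : ℝ) := by
      refine sum_le_sum fun p hp => ?_
      rw [MulChar.one_apply ((ZMod.isUnit_iff_coprime p k).2 (hk p hp)), Complex.one_re,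
        ← one_div]
      gcongr
      norm_num
    linarith
  · have h2 := hn χ h1
    have h3 := Complex.abs_re_le_norm (∑ p ∈ GP N, χ p / (p : ℂ))
    rw [e]
    linarith [neg_abs_le (∑ p ∈ GP N, χ p / (p : ℂ)).re]

end CA2

open CA2 in
theorem ca2 (hu : S_U) (hm : S_MM) (hn : S_NP) (hi : S_Ins) : S_CA2 := by
  obtain ⟨Cm, hCm, hm⟩ := hm
  obtain ⟨Cn, hCn, hn⟩ := hn
  obtain ⟨Ci, hCi, hi⟩ := hi
  refine ⟨35, 4, Cm + Ci * Real.exp (7 / 64 * Cn), by positivity,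
    fun N hN W z hW hz hl H hH X => ?_⟩
  have h4 : (4 : ℝ) ≤ N := by exact_mod_cast hN
  have hW0 : 0 < W := by linarith
  have hs1 : (1 : ℝ) ≤ √N := Real.one_le_sqrt.2 (by linarith)
  have hz0 := z0_le hN hz hl
  set z0 : ℕ := ⌊Real.exp ((N : ℝ) ^ 33)⌋₊ with hz0d
  have hle : ∀ p ∈ GP N, p ≤ z0 := fun p hp => Nat.le_floor (mem_GP hp).2.2
  have hne : ∀ p ∈ GP N, p ≠ 2 := fun p hp => by have := lt_of_mem hp; omega
  have hE : (1 : ℝ) ≤ Real.exp ((N : ℝ) ^ 34) := Real.one_le_exp (by positivity)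
  have hcp : 0 < Ci * Real.exp (7 / 64 * Cn) := by positivity
  constructor
  · intro S hS
    have hS1 := (mem_PJ.1 hS).1
    have hg : (1 : ℝ) ≤ pr S := by
      exact_mod_cast pr_pos fun p hp => (mem_GP (hS1 hp)).1
    have hg1 : (1 : ℝ) ≤ √(pr S) := Real.one_le_sqrt.2 hg
    have hg2 : √(pr S : ℝ) ≤ Real.exp ((N : ℝ) ^ 34) := by
      refine le_trans ?_ (pr_le_exp hS)
      calc √(pr S : ℝ) = √(pr S : ℝ) * 1 := (mul_one _).symm
        _ ≤ √(pr S : ℝ) * √(pr S : ℝ) := by gcongr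
        _ = _ := Real.mul_self_sqrt (by linarith)
    have hx0 : (z0 : ℝ) ^ 10 ≤ z / √(pr S) := by
      rw [le_div_iff₀ (by linarith)]
      exact le_trans (by gcongr) hz0
    have hq : 0 < z / √(pr S : ℝ) := by positivity
    have hx : (z0 : ℝ) ^ 10 ≤ W * (√N * (z / √(pr S))) :=
      hx0.trans ((le_mul_of_one_le_left hq.le hs1).trans
        (le_mul_of_one_le_left (by positivity) hW))
    have h1 := hm (GP N) z0 _ (fun _ => 49 / 64) (fun p hp => ⟨(mem_GP hp).1, hle p hp⟩) hx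
      (fun p _ => by norm_num)
    have h2 : ∑ p ∈ GP N, (1 - 49 / 64 : ℝ) / p = 15 / 64 * rc (GP N) := by
      rw [rc, mul_sum]
      refine sum_congr rfl fun p _ => ?_
      rw [div_eq_mul_inv]
      norm_num
    rw [h2] at h1
    have h3 := (hu (GP N) fun p hp => ⟨(mem_GP hp).1, hne p hp⟩).2.2.2.1
    calc _ ≤ ∑ d ∈ Ioc 0 ⌊W * (√N * (z / √(pr S)))⌋₊,
          ∏ _p ∈ (GP N).filter (· ∣ d), (49 / 64 : ℝ) := by
          refine sum_le_sum fun d _ => ?_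
          calc uu (GP N) d ^ 2 = |uu (GP N) d| ^ 2 := (sq_abs _).symm
            _ ≤ (∏ _p ∈ (GP N).filter (· ∣ d), (7 / 8 : ℝ)) ^ 2 := by
                gcongr
                exact h3 d
            _ = _ := by
                rw [← prod_pow]
                norm_num
      _ ≤ _ := h1
      _ = Cm * Real.exp (-(15 / 64 * rc (GP N))) * (W * (√N * (z / √(pr S)))) := by ring
      _ ≤ _ := by
          gcongr
          linarith
  · intro k hk0 hkN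
    have : NeZero k := ⟨hk0.ne'⟩
    have hcop : ∀ p ∈ GP N, Nat.Coprime p k := fun p hp =>
      (Nat.Prime.coprime_iff_not_dvd (mem_GP hp).1).2 fun hd => by
        have := Nat.le_of_dvd hk0 hd
        have := lt_of_mem hp
        omega
    have hkr : (k : ℝ) ≤ N := by exact_mod_cast hkN.le
    have hnp : ∀ χ : DirichletCharacter ℂ k, χ ≠ 1 → ‖∑ p ∈ GP N, χ p / (p : ℂ)‖ ≤ Cn :=
      fun χ hχ => hn k χ hχ _ _ (by linarith [Real.add_one_le_exp (N : ℝ)])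
        (by rwa [Real.log_exp]) (Real.exp_le_exp.2 (le_self_pow₀ (by linarith) (by norm_num)))
    have hx : (z0 : ℝ) ^ 10 ≤ W * (√N * z) := by
      refine le_trans ?_ ((le_mul_of_one_le_left hz.le hs1).trans
        (le_mul_of_one_le_left (by positivity) hW))
      exact (le_mul_of_one_le_right (by positivity) hE).trans hz0
    have h1 := hi k (GP N) z0 N (fun p hp => ⟨(mem_GP hp).1, hne p hp, hcop p hp, hle p hp⟩)
      (rc (GP N) - Cn) (lam_le hCn hnp hcop) (HK H N k) W⁻¹ W (W ^ 2) ((hH.adm hW0).HK N k) hW0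
      (norm_HK hH.bd N k) (√N * z) (k * X) (by positivity) hx
    refine h1.trans ?_
    have e1 : (√(N : ℝ) * z) ^ 2 = N * z ^ 2 := by
      rw [mul_pow, Real.sq_sqrt (by linarith)]
    have e2 : Real.exp (-(7 / 64 * (rc (GP N) - Cn)) - rc (GP N) / 8) =
        Real.exp (7 / 64 * Cn) * Real.exp (-(15 / 64 * rc (GP N))) := by
      rw [← Real.exp_add]
      congr 1
      ring
    rw [e1, e2]
    have h2 : Ci * k * (Real.exp (7 / 64 * Cn) * Real.exp (-(15 / 64 * rc (GP N)))) ≤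
        (Cm + Ci * Real.exp (7 / 64 * Cn)) * N * Real.exp (-(15 / 64 * rc (GP N))) := by
      calc _ = (Ci * Real.exp (7 / 64 * Cn)) * k * Real.exp (-(15 / 64 * rc (GP N))) := by ring
        _ ≤ _ := by
          gcongr
          linarith
    calc _ = W ^ 4 * (Ci * k * (Real.exp (7 / 64 * Cn) * Real.exp (-(15 / 64 * rc (GP N)))) +
          Real.exp (rc (GP N) / 4) / 2 ^ N) * (N * z ^ 2) := by ring
      _ ≤ _ := by gcongr

end Pool.Agent.P.MP_26a8c3_nt.Lg
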