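import Pool.Agent.P.MP_26a8c3_nt.Lg.Defs

/-! Numerics for the bilinear sum. -/

namespace Pool.Agent.P.MP_26a8c3_nt.Lg

open Finset MeasureTheory
open scoped ContDiff
open Pool.Agent.P.MP_a14ce1_nt
open Inf
open Hyb (ee ee_add norm_ee)

namespace Core

lemma pow_le_two_pow : ∃ N₁ : ℕ, ∀ N : ℕ, N₁ ≤ N → (N : ℝ) ^ 14 ≤ 2 ^ N := by
  have h := tendsto_pow_const_div_const_pow_of_one_lt 14 (r := 2) one_lt_two
  obtain ⟨N₁, hN⟩ := Filter.eventually_atTop.1 (h.eventually (gt_mem_nhds one_pos))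
  exact ⟨N₁, fun N h => ((div_lt_one (by positivity)).1 (hN N h)).le⟩

/-- The real inequality. -/
lemma num {W s y K C Q T : ℝ} (hK : 1 ≤ K) (hC : 0 < C) (hW : 40 * ((C + 1) * K ^ 24) ≤ W)
    (hs : W ^ 10 ≤ s) (hy : 0 < y) (h1 : y ≤ K * s) (h2 : s ≤ K * y) (hQ : s ^ 2 ≤ Q)
    (hT : (s ^ 2) ^ 14 ≤ T) :
    W * W ^ 2 * (Q⁻¹ + y ^ 16 / T) + 2 / (s ^ 2) ^ 35 * y ^ 8 + √(2 * W ^ 2 * y ^ 8 *
      (W ^ 2 * W ^ 2 * (C * (y ^ 15)⁻¹) * y ^ 8 / s ^ 2 +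
        s ^ 2 * (W ^ 4 * (C * s ^ 2 * (y ^ 15)⁻¹ + y ^ 16 / T)) +
        s ^ 2 * (2 / (s ^ 2) ^ 35) * y ^ 8)) ≤ W⁻¹ := by
  set D := (C + 1) * K ^ 24 with hD
  have k24 : 1 ≤ K ^ 24 := one_le_pow₀ hK
  have kD : K ^ 24 ≤ D := by rw [hD]; nlinarith
  have D1 : 1 ≤ D := k24.trans kD
  have W1 : 1 ≤ W := by linarith
  have W0 : 0 < W := by linarith
  have s1 : 1 ≤ s := (one_le_pow₀ W1).trans hs
  have s0 : 0 < s := by linarith
  have T0 : 0 < T := lt_of_lt_of_le (by positivity) hT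
  have kp : ∀ j : ℕ, j ≤ 24 → K ^ j ≤ D := fun j hj => (pow_le_pow_right₀ hK hj).trans kD
  have kc : ∀ j : ℕ, j ≤ 24 → C * K ^ j ≤ D := fun j hj => by
    have := pow_le_pow_right₀ hK hj
    rw [hD]
    nlinarith
  have yp : ∀ j : ℕ, j ≤ 24 → y ^ j ≤ D * s ^ j := fun j hj => by
    calc y ^ j ≤ (K * s) ^ j := by gcongr
      _ = K ^ j * s ^ j := mul_pow _ _ _
      _ ≤ _ := by gcongr; exact kp j hj
  have sp : ∀ i j : ℕ, i + 1 ≤ j → s ^ i / s ^ j ≤ 1 / s := fun i j h => by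
    rw [div_le_div_iff₀ (by positivity) s0, one_mul, ← pow_succ]
    exact pow_le_pow_right₀ s1 h
  have is : 1 / s ≤ 1 / W ^ 10 := one_div_le_one_div_of_le (by positivity) hs
  have a1 : Q⁻¹ ≤ D / W ^ 10 := by
    calc Q⁻¹ ≤ (s ^ 2)⁻¹ := inv_anti₀ (by positivity) hQ
      _ = s ^ 0 / s ^ 2 := by simp
      _ ≤ 1 / W ^ 10 := (sp 0 2 (by norm_num)).trans is
      _ ≤ _ := by gcongr
  have aT : ∀ i j : ℕ, j ≤ 24 → i + j + 1 ≤ 28 → s ^ i * y ^ j / T ≤ D / W ^ 10 := fun i j hj h => by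
    calc s ^ i * y ^ j / T ≤ s ^ i * (D * s ^ j) / (s ^ 2) ^ 14 := by
          gcongr
          exact yp j hj
      _ = D * (s ^ (i + j) / s ^ 28) := by ring
      _ ≤ D * (1 / W ^ 10) := mul_le_mul_of_nonneg_left ((sp _ _ h).trans is) (by positivity)
      _ = _ := by ring
  have aE : ∀ i j : ℕ, j ≤ 24 → i + j + 1 ≤ 70 → s ^ i * y ^ j / (s ^ 2) ^ 35 ≤ D / W ^ 10 :=
    fun i j hj h => by
    calc s ^ i * y ^ j / (s ^ 2) ^ 35 ≤ s ^ i * (D * s ^ j) / (s ^ 2) ^ 35 := by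
          gcongr
          exact yp j hj
      _ = D * (s ^ (i + j) / s ^ 70) := by ring
      _ ≤ D * (1 / W ^ 10) := mul_le_mul_of_nonneg_left ((sp _ _ h).trans is) (by positivity)
      _ = _ := by ring
  have b1 : C * y / s ^ 2 ≤ D / W ^ 10 := by
    calc C * y / s ^ 2 ≤ C * (K * s) / s ^ 2 := by gcongr
      _ = C * K ^ 1 * (1 / s) := by field_simp
      _ ≤ D * (1 / W ^ 10) := mul_le_mul (kc 1 (by norm_num)) is (by positivity) (by positivity)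
      _ = _ := by ring
  have b2 : C * s ^ 4 / y ^ 7 ≤ D / W ^ 10 := by
    have : s ^ 7 ≤ K ^ 7 * y ^ 7 := by
      rw [← mul_pow]
      gcongr
    have h3 : 1 / y ^ 7 ≤ K ^ 7 / s ^ 7 := by
      rw [div_le_div_iff₀ (by positivity) (by positivity)]
      linarith
    calc C * s ^ 4 / y ^ 7 = C * s ^ 4 * (1 / y ^ 7) := by ring
      _ ≤ C * s ^ 4 * (K ^ 7 / s ^ 7) := by gcongr
      _ = C * K ^ 7 * (s ^ 4 / s ^ 7) := by ring
      _ ≤ D * (1 / W ^ 10) := mul_le_mul (kc 7 (by norm_num))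
          ((sp 4 7 (by norm_num)).trans is) (by positivity) (by positivity)
      _ = _ := by ring
  set u := D / W ^ 10 with hu
  have u0 : 0 ≤ u := by positivity
  have uW : W ^ 9 * u ≤ 1 / 40 := by
    rw [hu, show W ^ 9 * (D / W ^ 10) = D / W by field_simp, div_le_div_iff₀ W0 (by norm_num)]
    linarith
  have wp : ∀ j : ℕ, j ≤ 9 → W ^ j * u ≤ 1 / 40 := fun j hj =>
    (mul_le_mul_of_nonneg_right (pow_le_pow_right₀ W1 hj) u0).trans uW
  have c1 : W * W ^ 2 * (Q⁻¹ + y ^ 16 / T) ≤ W⁻¹ / 4 := by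
    have := aT 0 16 (by norm_num) (by norm_num)
    rw [pow_zero, one_mul] at this
    have h4 := wp 4 (by norm_num)
    calc _ ≤ W * W ^ 2 * (u + u) := by gcongr
      _ = W⁻¹ * (2 * (W ^ 4 * u)) := by field_simp; ring
      _ ≤ W⁻¹ * (2 * (1 / 40)) := by gcongr
      _ ≤ _ := by
          have : 0 ≤ W⁻¹ := by positivity
          linarith
  have c2 : 2 / (s ^ 2) ^ 35 * y ^ 8 ≤ W⁻¹ / 4 := by
    have := aE 0 8 (by norm_num) (by norm_num)
    rw [pow_zero, one_mul] at this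
    have h4 := wp 1 (by norm_num)
    calc _ = 2 * (y ^ 8 / (s ^ 2) ^ 35) := by ring
      _ ≤ 2 * u := by gcongr
      _ = W⁻¹ * (2 * (W ^ 1 * u)) := by field_simp
      _ ≤ W⁻¹ * (2 * (1 / 40)) := by gcongr
      _ ≤ _ := by
          have : 0 ≤ W⁻¹ := by positivity
          linarith
  have c3 : 2 * W ^ 2 * y ^ 8 * (W ^ 2 * W ^ 2 * (C * (y ^ 15)⁻¹) * y ^ 8 / s ^ 2 +
        s ^ 2 * (W ^ 4 * (C * s ^ 2 * (y ^ 15)⁻¹ + y ^ 16 / T)) +
        s ^ 2 * (2 / (s ^ 2) ^ 35) * y ^ 8) ≤ (W⁻¹ / 2) ^ 2 := by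
    have e1 := aT 2 24 (by norm_num) (by norm_num)
    have e2 := aE 2 16 (by norm_num) (by norm_num)
    have h8 := wp 8 (by norm_num)
    have h4 := wp 4 (by norm_num)
    calc _ = 2 * W ^ 6 * (C * y / s ^ 2) + 2 * W ^ 6 * (C * s ^ 4 / y ^ 7) +
          2 * W ^ 6 * (s ^ 2 * y ^ 24 / T) + 4 * W ^ 2 * (s ^ 2 * y ^ 16 / (s ^ 2) ^ 35) := by
          field_simp
          ring
      _ ≤ 2 * W ^ 6 * u + 2 * W ^ 6 * u + 2 * W ^ 6 * u + 4 * W ^ 2 * u := by gcongr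
      _ = W⁻¹ ^ 2 * (6 * (W ^ 8 * u) + 4 * (W ^ 4 * u)) := by field_simp; ring
      _ ≤ W⁻¹ ^ 2 * (6 * (1 / 40) + 4 * (1 / 40)) := by gcongr
      _ = _ := by ring
  have c4 := Real.sqrt_le_sqrt c3
  rw [Real.sqrt_sq (by positivity)] at c4
  linarith

end Core

theorem coreq (h0 : S_Core0) (h1 : S_CA1) (h2 : S_CA2) : S_Core := by
  obtain ⟨n1, N1, h1⟩ := h1
  obtain ⟨n2, N2, C, hC, h2⟩ := h2
  obtain ⟨N3, h3⟩ := Core.pow_le_two_pow
  obtain ⟨Cm, hCm, hm⟩ := mertens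
  set K := Real.exp Cm with hK
  have K1 : 1 ≤ K := Real.one_le_exp hCm.le
  refine ⟨21 * (n1 + n2), 40 * ((C + 1) * K ^ 24) + (N1 + N2 + N3 : ℕ) + 2, ?_⟩
  intro W z hW hz hn H hH X
  have p1 : 0 ≤ 40 * ((C + 1) * K ^ 24) := by positivity
  have p2 : (0 : ℝ) ≤ (N1 + N2 + N3 : ℕ) := by positivity
  have W2 : 2 ≤ W := by linarith
  have W1 : 1 ≤ W := by linarith
  have W0 : 0 < W := by linarith
  set N := ⌈W ^ 20⌉₊ with hN
  have n1' : W ^ 20 ≤ N := Nat.le_ceil _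
  have WN : W ≤ N := (le_self_pow₀ W1 (by norm_num)).trans n1'
  have n2' : (N : ℝ) ≤ W ^ 21 := by
    have a := (Nat.ceil_lt_add_one (a := W ^ 20) (by positivity)).le
    have b : 1 ≤ W ^ 20 := one_le_pow₀ W1
    rw [pow_succ]
    nlinarith
  have NN : N1 + N2 + N3 ≤ N := by
    have : ((N1 + N2 + N3 : ℕ) : ℝ) ≤ N := by linarith
    exact_mod_cast this
  have N1' : (1 : ℝ) ≤ N := by linarith
  have N0 : 0 < N := by exact_mod_cast (show (0 : ℝ) < N by linarith)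
  have hp : ∀ m : ℕ, m ≤ n1 + n2 → (N : ℝ) ^ m ≤ Real.log z := fun m hm => by
    calc (N : ℝ) ^ m ≤ (N : ℝ) ^ (n1 + n2) := pow_le_pow_right₀ N1' hm
      _ ≤ (W ^ 21) ^ (n1 + n2) := by gcongr
      _ = W ^ (21 * (n1 + n2)) := (pow_mul _ _ _).symm
      _ ≤ _ := hn
  obtain ⟨hA, hB⟩ := h1 N (by omega) W z W1 WN hz (hp _ (by omega)) H hH X
  obtain ⟨hC', hD⟩ := h2 N (by omega) W z W1 hz (hp _ (by omega)) H hH X
  have eN : (N : ℝ) + 1 ≤ Real.exp N := Real.add_one_le_exp _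
  have hQ : N ≤ ⌊Real.exp N⌋₊ := Nat.le_floor (by linarith)
  have hP : ∀ p ∈ GP N, p.Prime ∧ p ≠ 2 ∧ ⌊Real.exp N⌋₊ < p := fun p hp => by
    obtain ⟨a, b, -⟩ := (mem_pr (Real.exp_pos _).le).1 hp
    refine ⟨a, ?_, (Nat.floor_lt (Real.exp_pos _).le).2 b⟩
    rintro rfl
    push_cast at b
    linarith
  have key := h0 (GP N) ⌊Real.exp N⌋₊ N N (by omega) N0 hP H W⁻¹ W W (hH.adm W0) W0 hH.bd z X _ _ _
    hz (by positivity) (by positivity) (by positivity) hA hB hC' hD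
  have hL := hm (Real.exp N) (Real.exp ((N : ℝ) ^ 33)) (by linarith)
    (Real.exp_le_exp.2 (le_self_pow₀ N1' (by norm_num)))
  rw [Real.log_exp, Real.log_exp, show (N : ℝ) ^ 33 / N = (N : ℝ) ^ 32 by field_simp,
    Real.log_pow] at hL
  change |rc (GP N) - _| ≤ _ at hL
  set L := rc (GP N) with hLd
  set s := √(N : ℝ) with hs
  have ss : s ^ 2 = N := Real.sq_sqrt (by positivity)
  have s0 : 0 < s := Real.sqrt_pos.2 (by linarith)
  have se : s = Real.exp (Real.log N / 2) := by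
    rw [hs, Real.exp_half, Real.exp_log (by linarith)]
  set y := Real.exp (L / 64) with hy
  have yp : ∀ j : ℕ, y ^ j = Real.exp (j * (L / 64)) := fun j => by rw [hy, Real.exp_nat_mul]
  have y16 : Real.exp (L / 4) = y ^ 16 := by rw [yp]; congr 1; push_cast; ring
  have y8 : Real.exp (L / 8) = y ^ 8 := by rw [yp]; congr 1; push_cast; ring
  have y15 : Real.exp (-(15 / 64 * L)) = (y ^ 15)⁻¹ := by
    rw [yp, ← Real.exp_neg]; congr 1; push_cast; ring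
  obtain ⟨l1, l2⟩ := abs_le.1 hL
  push_cast at l1 l2
  have g1 : y ≤ K * s := by
    rw [se, hK, hy, ← Real.exp_add]
    exact Real.exp_le_exp.2 (by linarith)
  have g2 : s ≤ K * y := by
    rw [se, hK, hy, ← Real.exp_add]
    exact Real.exp_le_exp.2 (by linarith)
  have g3 : W ^ 10 ≤ s := Real.le_sqrt_of_sq_le (by rw [← pow_mul]; exact n1')
  have main := Core.num (W := W) (s := s) (y := y) (Q := (⌊Real.exp N⌋₊ : ℕ)) (T := 2 ^ N) K1 hC
    (by linarith) g3 (Real.exp_pos _) g1 g2 (by rw [ss]; exact_mod_cast hQ)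
    (by rw [ss]; exact h3 N (by omega))
  rw [ss] at main
  rw [y16, y8, y15] at key
  rw [BB_SS, norm_mul, norm_inv, norm_pow, Complex.norm_real, Real.norm_of_nonneg hz.le,
    inv_mul_le_iff₀ (by positivity)]
  exact key.trans (mul_le_mul_of_nonneg_left main (by positivity))

end Pool.Agent.P.MP_26a8c3_nt.Lg
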