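import Pool.Agent.P.MP_26a8c3_nt.Lg.Defs

/-! The Cauchy-Schwarz assembly for the bilinear sum. -/

namespace Pool.Agent.P.MP_26a8c3_nt.Lg.Core0

open Finset MeasureTheory
open scoped ContDiff
open Pool.Agent.P.MP_a14ce1_nt
open Inf
open Hyb (ee ee_add norm_ee)

lemma wsum (P : Finset ℕ) (J : ℕ) :
    ∑ S ∈ PJ P J, (8⁻¹ : ℝ) ^ S.card * (pr S : ℝ)⁻¹ ≤ Real.exp (rc P / 8) := by
  refine le_trans (sum_le_sum_of_subset_of_nonneg (filter_subset _ _) fun _ _ _ => by positivity) ?_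
  refine (sum_c (c := 8⁻¹) (by norm_num) P).trans (le_of_eq ?_)
  rw [rc]
  congr 1
  ring

lemma cs {ι : Type*} (s : Finset ι) (w g t : ι → ℝ) (hw : ∀ i ∈ s, 0 ≤ w i)
    (hg : ∀ i ∈ s, 0 < g i) :
    (∑ i ∈ s, w i * t i) ^ 2 ≤ (∑ i ∈ s, w i * (g i)⁻¹) * ∑ i ∈ s, w i * (g i * t i ^ 2) := by
  refine sum_sq_le_sum_mul_sum_of_sq_le_mul s (fun i hi => ?_) (fun i hi => ?_) fun i hi => ?_
  · have := hw i hi
    have := hg i hi
    positivity
  · have := hw i hi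
    have := hg i hi
    positivity
  · have := (hg i hi).ne'
    apply le_of_eq
    field_simp

/-- The averaged off-diagonal term for one difference. -/
lemma off_one {P : Finset ℕ} {J N : ℕ} {H : ℝ → ℝ → ℂ} {z X ε R : ℝ} (hε : 0 ≤ ε)
    (hB : HB P J N H z X ε) (hD : HD P J N H z X R) {k : ℕ} (h0 : 0 < k) (h1 : k < N) :
    ∑ S ∈ PJ P J, (8⁻¹ : ℝ) ^ S.card *
      (SS k (GG (uu P) (uu P) (k * (X / pr S))) (HK H N k)
        (√N * (z / √(pr S))) (√N * (z / √(pr S)))).re ≤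
      N * z ^ 2 * (R + ε * Real.exp (rc P / 8)) := by
  have a : ∀ S ∈ PJ P J, (8⁻¹ : ℝ) ^ S.card *
      (SS k (GG (uu P) (uu P) (k * (X / pr S))) (HK H N k)
        (√N * (z / √(pr S))) (√N * (z / √(pr S)))).re ≤
      ((8⁻¹ : ℂ) ^ S.card * SS k (GG (uu P) (uu P) (k * X / pr S)) (HK H N k)
        (√N * z / pr S) (√N * z)).re +
      ε * (N * z ^ 2) * ((8⁻¹ : ℝ) ^ S.card * (pr S : ℝ)⁻¹) := by
    intro S hS
    have b := (Complex.re_le_norm _).trans (hB S hS k h0 h1)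
    rw [Complex.sub_re, mul_div_assoc (k : ℝ) X] at b
    have c : (8⁻¹ : ℂ) ^ S.card = (((8⁻¹ : ℝ) ^ S.card : ℝ) : ℂ) := by push_cast; rfl
    rw [c, Complex.re_ofReal_mul, mul_div_assoc (k : ℝ) X]
    have d : (0 : ℝ) ≤ (8⁻¹ : ℝ) ^ S.card := by positivity
    have e := mul_le_mul_of_nonneg_left b d
    rw [div_eq_mul_inv (N * z ^ 2 : ℝ)] at e
    linarith
  refine (sum_le_sum a).trans ?_
  rw [sum_add_distrib, ← Complex.re_sum, ← mul_sum]
  have b := (Complex.re_le_norm _).trans (hD k h0 h1)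
  have c := mul_le_mul_of_nonneg_left (wsum P J) (show 0 ≤ ε * (N * z ^ 2) by positivity)
  linarith

/-- The averaged off-diagonal part. -/
lemma off_all {P : Finset ℕ} {J N : ℕ} {H : ℝ → ℝ → ℂ} {z X ε R : ℝ} (hε : 0 ≤ ε) (hR : 0 ≤ R)
    (hB : HB P J N H z X ε) (hD : HD P J N H z X R) :
    ∑ S ∈ PJ P J, (8⁻¹ : ℝ) ^ S.card * (∑ i ∈ range N, ∑ i' ∈ range N, if i = i' then 0 else
      (SS (Nat.dist i i') (GG (uu P) (uu P) (Nat.dist i i' * (X / pr S))) (HK H N (Nat.dist i i'))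
        (√N * (z / √(pr S))) (√N * (z / √(pr S)))).re) ≤
      N ^ 2 * (N * z ^ 2 * (R + ε * Real.exp (rc P / 8))) := by
  simp only [mul_sum]
  rw [sum_comm]
  have a : (N : ℝ) ^ 2 * (N * z ^ 2 * (R + ε * Real.exp (rc P / 8))) =
      ∑ _i ∈ range N, ∑ _i' ∈ range N, N * z ^ 2 * (R + ε * Real.exp (rc P / 8)) := by
    simp only [sum_const, card_range, nsmul_eq_mul]
    ring
  rw [a]
  refine sum_le_sum fun i hi => ?_
  rw [sum_comm]
  refine sum_le_sum fun i' hi' => ?_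
  by_cases h : i = i'
  · simp only [h, if_true, mul_zero, sum_const_zero]
    positivity
  · simp only [h, if_false]
    refine off_one hε hB hD (Nat.dist_pos_of_ne h) ?_
    have := mem_range.1 hi
    have := mem_range.1 hi'
    unfold Nat.dist
    omega

/-- The Gram bound for one subset. -/
lemma gram_one (hu : S_U) (hg : S_Gram) {P : Finset ℕ} {J N : ℕ} (hN : 0 < N)
    (hP : ∀ p ∈ P, p.Prime ∧ p ≠ 2) {H : ℝ → ℝ → ℂ} {a b M : ℝ} (hH : Adm H a b) (hb : 0 < b)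
    (hM : ∀ s t, ‖H s t‖ ≤ M) {z X Δ : ℝ} (hz : 0 < z) (hC : HC P J N b z Δ)
    {S : Finset ℕ} (hS : S ∈ PJ P J) :
    (N : ℝ) ^ 2 * (pr S * ‖SS 1 (GG (uu P) fo (X / pr S)) H (√N * (z / √(pr S)))
      (z / √(pr S) / √N)‖ ^ 2) ≤ 2 * b ^ 2 * z ^ 2 *
      (N * (M ^ 2 * b ^ 2 * Δ * z ^ 2) * (pr S : ℝ)⁻¹ +
      ∑ i ∈ range N, ∑ i' ∈ range N, if i = i' then 0 else
      (SS (Nat.dist i i') (GG (uu P) (uu P) (Nat.dist i i' * (X / pr S))) (HK H N (Nat.dist i i'))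
        (√N * (z / √(pr S))) (√N * (z / √(pr S)))).re) := by
  have g0 : (0 : ℝ) < pr S := by
    exact_mod_cast pr_pos fun p hp => (hP p ((mem_PJ.1 hS).1 hp)).1
  have g1 : (0 : ℝ) < √(pr S) := Real.sqrt_pos.2 g0
  have n0 : (0 : ℝ) < N := by exact_mod_cast hN
  have n1 : (0 : ℝ) < √N := Real.sqrt_pos.2 n0
  have z0 : 0 < z / √(pr S) := div_pos hz g1
  have h := hg (uu P) fo (hu P hP).2.2.1 fo_Mf.bd H a b M hH hb hM N hN (z / √(pr S))
    (X / pr S) z0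
  have z1 : (z / √(pr S)) ^ 2 = z ^ 2 * (pr S : ℝ)⁻¹ := by
    rw [div_pow, Real.sq_sqrt g0.le, div_eq_mul_inv]
  have c : M ^ 2 * (b * (z / √(pr S)) / √N) *
      ∑ d ∈ Ioc 0 ⌊b * (√N * (z / √(pr S)))⌋₊, uu P d ^ 2 ≤
      M ^ 2 * b ^ 2 * Δ * z ^ 2 * (pr S : ℝ)⁻¹ := by
    refine (mul_le_mul_of_nonneg_left (hC S hS) (by positivity)).trans (le_of_eq ?_)
    rw [mul_assoc _ (z ^ 2), ← z1]
    generalize z / √(pr S) = ζ
    field_simp
  rw [z1] at h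
  generalize (∑ i ∈ range N, ∑ i' ∈ range N, if i = i' then 0 else
      (SS (Nat.dist i i') (GG (uu P) (uu P) (Nat.dist i i' * (X / pr S))) (HK H N (Nat.dist i i'))
        (√N * (z / √(pr S))) (√N * (z / √(pr S)))).re) = O at h ⊢
  generalize ‖SS 1 (GG (uu P) fo (X / pr S)) H (√N * (z / √(pr S)))
      (z / √(pr S) / √N)‖ ^ 2 = T at h ⊢
  have d := mul_le_mul_of_nonneg_left c n0.le
  have e : (N : ℝ) ^ 2 * T ≤ 2 * b ^ 2 * (z ^ 2 * (pr S : ℝ)⁻¹) *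
      (N * (M ^ 2 * b ^ 2 * Δ * z ^ 2 * (pr S : ℝ)⁻¹) + O) :=
    h.trans (mul_le_mul_of_nonneg_left (by linarith) (by positivity))
  have f := mul_le_mul_of_nonneg_left e g0.le
  calc _ = (pr S : ℝ) * (N ^ 2 * T) := by ring
    _ ≤ _ := f
    _ = _ := by field_simp

end Pool.Agent.P.MP_26a8c3_nt.Lg.Core0

namespace Pool.Agent.P.MP_26a8c3_nt.Lg

open Finset MeasureTheory
open scoped ContDiff
open Pool.Agent.P.MP_a14ce1_nt
open Inf
open Hyb (ee ee_add norm_ee)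
open Core0

theorem core0 (hu : S_U) (hr : S_Rem) (hg : S_Gram) : S_Core0 := by
  intro P Q J N hQ hN hP H a b M hH hb hM z X ε Δ R hz hε hΔ hR hA hB hC hD
  have hP' : ∀ p ∈ P, p.Prime ∧ p ≠ 2 := fun p hp => ⟨(hP p hp).1, (hP p hp).2.1⟩
  have g0 : ∀ S ∈ PJ P J, (0 : ℝ) < pr S := fun S hS => by
    exact_mod_cast pr_pos fun p hp => (hP p ((mem_PJ.1 hS).1 hp)).1
  have n0 : (0 : ℝ) < N := by exact_mod_cast hN
  set E := Real.exp (rc P / 8) with hE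
  have E0 : 0 < E := Real.exp_pos _
  set T : Finset ℕ → ℝ := fun S => ‖SS 1 (GG (uu P) fo (X / pr S)) H (√N * (z / √(pr S)))
      (z / √(pr S) / √N)‖ with hT
  have h1 := hr P Q J hQ hP H a b M hH hb hM z X hz
  -- the main sum
  have h2 : ‖∑ S ∈ PJ P J,
      (-8⁻¹ : ℂ) ^ S.card * SS 1 (GG (uu P) fo (X / pr S)) H (z / pr S) z‖ ≤
      ∑ S ∈ PJ P J, (8⁻¹ : ℝ) ^ S.card * T S + ε * z ^ 2 * E := by
    refine (norm_sum_le _ _).trans ?_
    have c := mul_le_mul_of_nonneg_left (wsum P J) (show 0 ≤ ε * z ^ 2 by positivity)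
    refine le_trans ?_ (add_le_add le_rfl c)
    rw [mul_sum, ← sum_add_distrib]
    refine sum_le_sum fun S hS => ?_
    have d := hA S hS
    have e := norm_le_norm_add_norm_sub' (SS 1 (GG (uu P) fo (X / pr S)) H (z / pr S) z)
      (SS 1 (GG (uu P) fo (X / pr S)) H (√N * (z / √(pr S))) (z / √(pr S) / √N))
    have f : ‖(-8⁻¹ : ℂ)‖ = 8⁻¹ := by simp
    rw [norm_mul, norm_pow, f]
    have w : (0 : ℝ) ≤ (8⁻¹ : ℝ) ^ S.card := by positivity
    have i := mul_le_mul_of_nonneg_left (e.trans (add_le_add le_rfl d)) w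
    rw [div_eq_mul_inv (z ^ 2)] at i
    simp only [hT]
    linarith
  -- the second moment
  have h3 : (N : ℝ) ^ 2 * ∑ S ∈ PJ P J, (8⁻¹ : ℝ) ^ S.card * (pr S * T S ^ 2) ≤
      2 * b ^ 2 * z ^ 2 * (N * (M ^ 2 * b ^ 2 * Δ * z ^ 2) * E +
        N ^ 2 * (N * z ^ 2 * (R + ε * E))) := by
    have c := mul_le_mul_of_nonneg_left (wsum P J)
      (show 0 ≤ N * (M ^ 2 * b ^ 2 * Δ * z ^ 2) by positivity)
    refine le_trans ?_ (mul_le_mul_of_nonneg_left (add_le_add c (off_all hε hR hB hD))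
      (by positivity))
    rw [mul_sum, mul_sum, ← sum_add_distrib, mul_sum]
    refine sum_le_sum fun S hS => ?_
    have w : (0 : ℝ) ≤ (8⁻¹ : ℝ) ^ S.card := by positivity
    have d := mul_le_mul_of_nonneg_left (gram_one hu hg (X := X) hN hP' hH hb hM hz hC hS) w
    simp only [hT]
    linarith
  have h4 : ∑ S ∈ PJ P J, (8⁻¹ : ℝ) ^ S.card * (pr S * T S ^ 2) ≤
      z ^ 4 * (2 * b ^ 2 * (M ^ 2 * b ^ 2 * Δ * E / N + N * R + N * ε * E)) := by
    refine le_of_mul_le_mul_left (h3.trans (le_of_eq ?_)) (show (0 : ℝ) < N ^ 2 by positivity)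
    field_simp
    ring
  have h5 : ∑ S ∈ PJ P J, (8⁻¹ : ℝ) ^ S.card * T S ≤ z ^ 2 * √(2 * b ^ 2 * E *
      (M ^ 2 * b ^ 2 * Δ * E / N + N * R + N * ε * E)) := by
    refine (abs_le_of_sq_le_sq' ?_ (by positivity)).2
    rw [mul_pow, Real.sq_sqrt (by positivity)]
    refine (cs (PJ P J) (fun S => (8⁻¹ : ℝ) ^ S.card) (fun S => (pr S : ℝ)) T
      (fun _ _ => by positivity) g0).trans ?_
    refine (mul_le_mul (wsum P J) h4 (sum_nonneg fun S hS => by positivity) E0.le).trans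
      (le_of_eq ?_)
    ring
  have h6 := norm_le_norm_add_norm_sub' (SS 1 (GG fo fo X) H z z) (∑ S ∈ PJ P J,
      (-8⁻¹ : ℂ) ^ S.card * SS 1 (GG (uu P) fo (X / pr S)) H (z / pr S) z)
  linarith

end Pool.Agent.P.MP_26a8c3_nt.Lg
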