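import Pool.Agent.P.MP_26a8c3_nt.Lg.Defs

/-! The explicit mean bound for the twisted divisor sums, and the scaled bump. -/

namespace Pool.Agent.P.MP_26a8c3_nt.Lg

open Finset MeasureTheory Real
open scoped ContDiff FourierTransform
open Pool.Agent.P.MP_a14ce1_nt
open Inf
open Hyb (ee ee_add norm_ee)

theorem ddq : S_DD := by
  intro k hk χ φ R j h c hc P l hP hL hl hPl hlc
  unfold rc at hL hlc ⊢
  set n := ∫ w, ‖φ w‖ with hn
  set I := ∫ ξ, j ξ * (1 + |2 * π * ξ|) ^ 4 with hI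
  have hn0 : 0 ≤ n := integral_nonneg fun _ => norm_nonneg _
  have hI0 : 0 ≤ I := integral_nonneg fun ξ => mul_nonneg (h.j0 ξ) (by positivity)
  have hR := h.R0
  set L := ∑ p ∈ P, (p : ℝ)⁻¹ with hLd
  set η := Real.exp (-(1 / 100 * L)) with hη
  have hη0 : 0 < η := Real.exp_pos _
  set Λ := 4 * L * l with hΛd
  have hΛ : 1 ≤ Λ := by nlinarith
  have h1 := sum_le_sum fun U (hU : U ∈ P.powerset) => per_U χ h
    (fun p hp => hP p (mem_powerset.1 hU hp)) hL hl (fun p hp => hPl p (mem_powerset.1 hU hp)) hη0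
  simp only [sum_add_distrib, ← mul_sum] at h1
  have h2 := sum_sq_le hk χ h hP hΛ
  have s1 := sum_c (c := 3 / 2) (by norm_num) P
  have s2 := sum_c (c := 4) (by norm_num) P
  have s3 := sum_c (c := 2) (by norm_num) P
  rw [← hLd] at s1 s2 s3
  rw [← hn, ← hΛd] at h1
  rw [← hI] at h2
  have h3 : ∑ U ∈ P.powerset, (pr U : ℝ)⁻¹ * ∫ w, ‖FF χ φ U w‖ ≤
      n * Real.exp (45 / 100 * L) * Real.exp (3 / 2 * L) +
      n * Real.exp (-(276 / 100 * L)) * Real.exp (4 * L) + η * Real.exp (2 * L) +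
      η⁻¹ * Real.exp (1 - 1035 / 1000 * L) * (Λ + 2 * R) *
        (((2 * Λ + 4) * (2 + 4 * k)) ^ 2 * I) := h1.trans (by gcongr)
  have hV : VV P ^ 2 ≤ Real.exp (-(2 * L)) := by
    refine (pow_le_pow_left₀ (VV_pos hP).le (VV_le hP) 2).trans (le_of_eq ?_)
    rw [← Real.exp_nat_mul]
    congr 1
    push_cast
    ring
  have h4 := mul_le_mul hV h3 (sum_nonneg fun U _ =>
    mul_nonneg (by positivity) (integral_nonneg fun _ => norm_nonneg _)) (Real.exp_pos _).le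
  refine h4.trans ?_
  have b1 : Real.exp (-(2 * L)) * (Real.exp (45 / 100 * L) * Real.exp (3 / 2 * L)) ≤ η := by
    rw [← Real.exp_add, ← Real.exp_add]
    exact Real.exp_le_exp.2 (by linarith)
  have b2 : Real.exp (-(2 * L)) * (Real.exp (-(276 / 100 * L)) * Real.exp (4 * L)) ≤ η := by
    rw [← Real.exp_add, ← Real.exp_add]
    exact Real.exp_le_exp.2 (by linarith)
  have b3 : Real.exp (-(2 * L)) * (η * Real.exp (2 * L)) = η := by
    rw [mul_left_comm, ← Real.exp_add]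
    simp
  have b4 : Λ ^ 3 ≤ (4 * c) ^ 3 * (6 * 100 ^ 3) * Real.exp (301 / 100 * L) := by
    have a1 := Real.pow_div_factorial_le_exp (1 / 100 * L) (by positivity) 3
    have a2 : L ^ 3 ≤ 6 * 100 ^ 3 * Real.exp (1 / 100 * L) := by
      norm_num [Nat.factorial] at a1 ⊢
      linarith
    calc Λ ^ 3 ≤ (4 * L * (c * Real.exp L)) ^ 3 := by rw [hΛd]; gcongr
      _ = (4 * c) ^ 3 * L ^ 3 * Real.exp L ^ 3 := by ring
      _ ≤ (4 * c) ^ 3 * (6 * 100 ^ 3 * Real.exp (1 / 100 * L)) * Real.exp L ^ 3 := by gcongr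
      _ = _ := by
        rw [← Real.exp_nat_mul, show 301 / 100 * L = 1 / 100 * L + (3 : ℕ) * L by push_cast; ring,
          Real.exp_add]
        ring
  have b5 : (Λ + 2 * R) * (((2 * Λ + 4) * (2 + 4 * k)) ^ 2 * I) ≤
      ((1 + 2 * R) * (6 * (2 + 4 * k)) ^ 2 * I) * Λ ^ 3 := by
    calc _ ≤ ((1 + 2 * R) * Λ) * (((6 * Λ) * (2 + 4 * k)) ^ 2 * I) := by
          gcongr
          · nlinarith
          · linarith
      _ = _ := by ring
  have b6 : Real.exp (-(2 * L)) * (η⁻¹ * Real.exp (1 - 1035 / 1000 * L)) *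
      Real.exp (301 / 100 * L) ≤ Real.exp 1 * η := by
    rw [hη, ← Real.exp_neg, ← Real.exp_add, ← Real.exp_add, ← Real.exp_add, ← Real.exp_add]
    exact Real.exp_le_exp.2 (by linarith)
  set K := (1 + 2 * R) * (6 * (2 + 4 * (k : ℝ))) ^ 2 * I with hK
  have hK0 : 0 ≤ K := by positivity
  have b7 : Real.exp (-(2 * L)) * (η⁻¹ * Real.exp (1 - 1035 / 1000 * L) * (Λ + 2 * R) *
      (((2 * Λ + 4) * (2 + 4 * k)) ^ 2 * I)) ≤
      Real.exp 1 * K * (4 * c) ^ 3 * (6 * 100 ^ 3) * η := by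
    calc _ = Real.exp (-(2 * L)) * (η⁻¹ * Real.exp (1 - 1035 / 1000 * L)) * ((Λ + 2 * R) *
          (((2 * Λ + 4) * (2 + 4 * k)) ^ 2 * I)) := by ring
      _ ≤ Real.exp (-(2 * L)) * (η⁻¹ * Real.exp (1 - 1035 / 1000 * L)) *
          (K * ((4 * c) ^ 3 * (6 * 100 ^ 3) * Real.exp (301 / 100 * L))) :=
          mul_le_mul_of_nonneg_left (b5.trans (mul_le_mul_of_nonneg_left b4 hK0)) (by positivity)
      _ = Real.exp (-(2 * L)) * (η⁻¹ * Real.exp (1 - 1035 / 1000 * L)) *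
          Real.exp (301 / 100 * L) * (K * (4 * c) ^ 3 * (6 * 100 ^ 3)) := by ring
      _ ≤ Real.exp 1 * η * (K * (4 * c) ^ 3 * (6 * 100 ^ 3)) := by gcongr
      _ = _ := by ring
  nlinarith [mul_le_mul_of_nonneg_left b1 hn0, mul_le_mul_of_nonneg_left b2 hn0]

namespace DB

lemma four_scale (f : ℝ → ℂ) {δ : ℝ} (hδ : 0 < δ) (ξ : ℝ) :
    𝓕 (fun x => f (x / δ) / δ) ξ = 𝓕 f (δ * ξ) := by
  rw [fourier_real_eq_integral_exp_smul, fourier_real_eq_integral_exp_smul]
  have h1 := Measure.integral_comp_div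
    (fun v : ℝ => Complex.exp ((-2 * π * v * (δ * ξ) : ℝ) * Complex.I) • f v) δ
  have h2 : (δ : ℂ) ≠ 0 := by exact_mod_cast hδ.ne'
  rw [abs_of_pos hδ, Complex.real_smul] at h1
  rw [← mul_right_inj' h2, ← h1, ← integral_const_mul]
  refine integral_congr_ae (.of_forall fun v => ?_)
  have h3 : -2 * π * (v / δ) * (δ * ξ) = -2 * π * v * ξ := by field_simp
  simp only [smul_eq_mul, h3]
  field_simp

lemma four_dphi {τ : ℝ → ℝ} (hs : Continuous τ) (h1 : ∀ x, τ x ≠ 0 → |x| ≤ 1) (c ξ : ℝ) :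
    𝓕 (dphi τ c) ξ =
      (Complex.exp ((2 * π * ξ * c : ℝ) * Complex.I) - 1) * 𝓕 (fun x => (τ x : ℂ)) ξ := by
  have a2 : HasCompactSupport fun x => (τ x : ℂ) :=
    cpt_of_abs (R := 1) fun x hx => h1 x (by simpa using hx)
  have b3 : HasCompactSupport fun x => (τ (x + c) : ℂ) :=
    cpt_of_abs (R := 1 + |c|) fun x hx => by
      have := abs_sub (x + c) c
      rw [add_sub_cancel_right] at this
      linarith [h1 (x + c) (by simpa using hx)]
  rw [sub_mul, one_mul, ← fourier_shift]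
  simp only [fourier_real_eq_integral_exp_smul, smul_eq_mul]
  rw [← integral_sub]
  · refine integral_congr_ae (.of_forall fun v => ?_)
    simp only [dphi]
    push_cast
    ring
  · exact Continuous.integrable_of_hasCompactSupport (by fun_prop) b3.mul_left
  · exact Continuous.integrable_of_hasCompactSupport (by fun_prop) a2.mul_left

lemma scale {τ : ℝ → ℝ} (h : Bump τ 1) {δ : ℝ} (hδ : 0 < δ) :
    Bump (fun x => τ (x / δ) / δ) δ := by
  refine ⟨(h.sm.comp (contDiff_id.div_const δ)).div_const δ,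
    fun x => div_nonneg (h.nn _) hδ.le, fun x hx => ?_, ?_⟩
  · have := h.supp (x / δ) fun h0 => hx (by simp [h0])
    rwa [abs_div, abs_of_pos hδ, div_le_one hδ] at this
  · rw [integral_div, Measure.integral_comp_div τ δ, h.int, abs_of_pos hδ, smul_eq_mul, mul_one,
      div_self hδ.ne']

lemma exists_one : ∃ τ : ℝ → ℝ, Bump τ 1 := by
  let b : ContDiffBump (0 : ℝ) := ⟨1 / 2, 1, by norm_num, by norm_num⟩
  refine ⟨b.normed volume, b.contDiff_normed, b.nonneg_normed, fun x hx => ?_, b.integral_normed⟩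
  have : x ∈ Function.support (b.normed volume) := hx
  rw [b.support_normed_eq] at this
  simpa [b] using (mem_ball_zero_iff.1 this).le

lemma norm_dphi {τ : ℝ → ℝ} {δ : ℝ} (h : Bump τ δ) (c : ℝ) : ∫ w, ‖dphi τ c w‖ ≤ 2 := by
  have a1 : Integrable τ := Integrable.of_integral_ne_zero (by rw [h.int]; exact one_ne_zero)
  have a2 : Integrable fun w => τ (w + c) := a1.comp_add_right c
  have a3 : ∫ w, (τ (w + c) + τ w) = 2 := by
    rw [integral_add a2 a1, integral_add_right_eq_self τ c, h.int]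
    norm_num
  rw [← a3]
  refine integral_mono_of_nonneg (.of_forall fun _ => norm_nonneg _) (a2.add a1)
    (.of_forall fun w => ?_)
  simp only [dphi, Complex.norm_real, Real.norm_eq_abs]
  exact abs_le.2 ⟨by linarith [h.nn (w + c), h.nn w], by linarith [h.nn (w + c), h.nn w]⟩

lemma int_S (S : SchwartzMap ℝ ℂ) : Integrable fun ξ => ‖S ξ‖ * (1 + |2 * π * ξ|) ^ 4 := by
  have b1 := ((S.integrable_pow_mul volume 0).add
    ((S.integrable_pow_mul volume 4).const_mul ((2 * π) ^ 4))).const_mul 8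
  refine b1.mono' (by fun_prop) (.of_forall fun ξ => ?_)
  rw [Real.norm_of_nonneg (by positivity)]
  simp only [Pi.add_apply, pow_zero, one_mul, Real.norm_eq_abs]
  have b2 : (1 + |2 * π * ξ|) ^ 4 ≤ 8 * (1 + (2 * π) ^ 4 * |ξ| ^ 4) := by
    rw [abs_mul, abs_of_pos two_pi_pos, ← mul_pow]
    have := add_pow_le zero_le_one (mul_nonneg two_pi_pos.le (abs_nonneg ξ)) 4
    norm_num at this ⊢
    linarith
  calc _ ≤ ‖S ξ‖ * (8 * (1 + (2 * π) ^ 4 * |ξ| ^ 4)) := by gcongr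
    _ = _ := by ring

end DB

theorem bump : S_Bump := by
  obtain ⟨τ, hτ⟩ := DB.exists_one
  have a1 : ContDiff ℝ ∞ fun x => (τ x : ℂ) := Complex.ofRealCLM.contDiff.comp hτ.sm
  have a2 : HasCompactSupport fun x => (τ x : ℂ) :=
    cpt_of_abs (R := 1) fun x hx => hτ.supp x (by simpa using hx)
  set S := 𝓕 (a2.toSchwartzMap a1) with hS
  have b1 : ∀ ξ, S ξ = 𝓕 (fun x => (τ x : ℂ)) ξ := fun _ => rfl
  obtain ⟨M, hM0, hM⟩ := S.decay 0 0
  simp only [pow_zero, one_mul, norm_iteratedFDeriv_zero] at hM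
  set g : ℝ → ℝ := fun ξ => ‖S ξ‖ * (1 + |2 * π * ξ|) ^ 4 with hg
  have g1 : Integrable g := DB.int_S S
  have g0 : 0 ≤ ∫ ξ, g ξ := integral_nonneg fun ξ => by positivity
  refine ⟨1 + M * ∫ ξ, g ξ, le_add_of_nonneg_right (by positivity), fun δ hδ hδ1 =>
    ⟨_, DB.scale hτ hδ, fun c => ?_⟩⟩
  have hb := DB.scale hτ hδ
  set σ : ℝ → ℝ := fun x => τ (x / δ) / δ with hσ
  have h1 : ∀ x, σ x ≠ 0 → |x| ≤ 1 := fun x hx => (hb.supp x hx).trans hδ1
  have a3 : ∀ ξ, 𝓕 (dphi σ c) ξ =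
      (Complex.exp ((2 * π * ξ * c : ℝ) * Complex.I) - 1) * S (δ * ξ) := fun ξ => by
    rw [DB.four_dphi hb.sm.continuous h1, b1, ← DB.four_scale _ hδ]
    simp only [hσ, Complex.ofReal_div]
  have g2 : Integrable fun ξ => c ^ 2 * M / δ ^ 4 * g (δ * ξ) :=
    (g1.comp_mul_left' hδ.ne').const_mul _
  have g3 : ∀ ξ, c ^ 2 * M * ‖S (δ * ξ)‖ * (1 + |2 * π * ξ|) ^ 4 ≤
      c ^ 2 * M / δ ^ 4 * g (δ * ξ) := fun ξ => by
    have e1 : 1 + |2 * π * ξ| ≤ (1 + |2 * π * (δ * ξ)|) / δ := by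
      rw [le_div_iff₀ hδ, show 2 * π * (δ * ξ) = δ * (2 * π * ξ) by ring, abs_mul δ,
        abs_of_pos hδ]
      linarith
    calc _ ≤ c ^ 2 * M * ‖S (δ * ξ)‖ * ((1 + |2 * π * (δ * ξ)|) / δ) ^ 4 := by gcongr
      _ = _ := by simp only [hg]; ring
  refine ⟨fun ξ => c ^ 2 * M * ‖S (δ * ξ)‖, ⟨Complex.ofRealCLM.contDiff.comp
    ((hb.sm.comp (contDiff_id.add contDiff_const)).sub hb.sm), fun x hx => ?_, by positivity,
    fun ξ => ?_, fun ξ => by positivity, ?_⟩, DB.norm_dphi hb c, ?_⟩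
  · by_cases h : σ x = 0
    · have := abs_sub (x + c) c
      rw [add_sub_cancel_right] at this
      linarith [h1 (x + c) (by simpa [dphi, h] using hx)]
    · linarith [h1 x h, abs_nonneg c]
  · rw [a3, norm_mul, mul_pow]
    have e1 := Real.norm_exp_I_mul_ofReal_sub_one_le (x := 2 * π * ξ * c)
    rw [mul_comm Complex.I] at e1
    have e2 := pow_le_pow_left₀ (norm_nonneg _) e1 2
    rw [Real.norm_eq_abs, sq_abs] at e2
    calc _ ≤ (2 * π * ξ * c) ^ 2 * (M * ‖S (δ * ξ)‖) := by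
          rw [sq ‖S (δ * ξ)‖]
          gcongr
          exact hM _
      _ = _ := by ring
  · refine g2.mono' (by fun_prop) (.of_forall fun ξ => ?_)
    rw [Real.norm_of_nonneg (by positivity)]
    exact g3 ξ
  · refine (integral_mono_of_nonneg (.of_forall fun ξ => by positivity) g2 (.of_forall g3)).trans ?_
    rw [integral_const_mul, Measure.integral_comp_mul_left g δ, abs_of_pos (inv_pos.2 hδ),
      smul_eq_mul]
    calc _ = (M * ∫ ξ, g ξ) * c ^ 2 / δ ^ 5 := by field_simp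
      _ ≤ _ := by gcongr; linarith

end Pool.Agent.P.MP_26a8c3_nt.Lg
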