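import Pool.Agent.P.MP_26a8c3_nt.Lg.Defs

/-! The Gram form of the bilinear sum with a reciprocal phase. -/

namespace Pool.Agent.P.MP_26a8c3_nt.Lg

open Finset MeasureTheory
open scoped ContDiff
open Pool.Agent.P.MP_a14ce1_nt
open Inf
open Hyb (ee ee_add norm_ee)

namespace Gram

open scoped ComplexConjugate

lemma corr_eq (α : ℕ → ℝ) {H : ℝ → ℝ → ℂ} {a b : ℝ} (h : Adm H a b) {N : ℕ}
    (hN : 0 < N) {ζ X : ℝ} (hζ : 0 < ζ) {k : ℕ} (hk : 0 < k) :
    ∑ q ∈ box (b * (√N * ζ)) (b * ζ / √N),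
      conj (vv α H N ζ X (q.1 + k * q.2) q.2) * vv α H N ζ X q.1 q.2 =
      SS k (GG α α (k * X)) (HK H N k) (√N * ζ) (√N * ζ) := by
  have hN' : (0 : ℝ) < N := by exact_mod_cast hN
  have hk' : (0 : ℝ) < k := by exact_mod_cast hk
  have hS : 0 < √N := Real.sqrt_pos.2 hN'
  have hS2 : √N ^ 2 = (N : ℝ) := Real.sq_sqrt hN'.le
  have e0 : ∀ d e : ℕ, N * ((d + k * e : ℕ) / (√N * ζ) - d / (√N * ζ)) / k = √N * e / ζ := by
    intro d e
    push_cast
    field_simp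
    rw [hS2]
    ring
  rw [SS_eq (h.HK N k) (mul_pos hS hζ) (mul_pos hS hζ),
    sum_reidx (box (b * (√N * ζ)) (b * (√N * ζ))) (box (b * (√N * ζ)) (b * ζ / √N))
      (e := fun q => (q.1, q.1 + k * q.2))]
  · refine sum_congr rfl fun q hq => ?_
    obtain ⟨⟨a1, -⟩, a2, -⟩ := mem_box.1 hq
    have a1' : (0 : ℝ) < q.1 := by exact_mod_cast a1
    have a2' : (0 : ℝ) < q.2 := by exact_mod_cast a2
    have e1 : ee (k * X / (q.1 * (q.1 + k * q.2 : ℕ))) =
        ee (-(X / ((q.1 + k * q.2 : ℕ) * q.2))) * ee (X / (q.1 * q.2)) := by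
      rw [← ee_add]
      congr 1
      push_cast
      field_simp
      ring
    have e2 : q.1 ≡ q.1 + k * q.2 [MOD k] := by simp [Nat.ModEq]
    simp only [tt, e2, if_true, vv, HK, GG, e0, map_mul, conj_ee, Complex.conj_ofReal, e1]
    ring
  · intro q q' hq
    simp only [Prod.mk.injEq] at hq
    obtain ⟨a1, a2⟩ := hq
    rw [a1] at a2
    exact Prod.ext a1 (Nat.eq_of_mul_eq_mul_left hk (by omega))
  · intro p hp
    have a1 := tt_supp (h.HK N k) (mul_pos hS hζ) (mul_pos hS hζ) hp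
    refine ⟨a1, ?_⟩
    unfold tt at hp
    split_ifs at hp with hc
    swap
    · exact absurd rfl hp
    obtain ⟨-, a3, a4⟩ := h.supp _ _ (left_ne_zero_of_mul (right_ne_zero_of_mul hp))
    have a5 : p.1 < p.2 := by
      have b1 := (mul_pos_iff_of_pos_left hN').1
        ((div_pos_iff_of_pos_right hk').1 (h.a0.trans_le a3))
      rw [sub_pos, div_lt_div_iff_of_pos_right (mul_pos hS hζ)] at b1
      exact_mod_cast b1
    obtain ⟨e, he⟩ := (Nat.modEq_iff_dvd' a5.le).1 hc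
    have a6 : p.2 = p.1 + k * e := by omega
    rw [a6, e0] at a4
    refine ⟨(p.1, e), mem_box.2 ⟨(mem_box.1 a1).1, Nat.pos_of_ne_zero ?_,
      (le_div_iff₀' hS).2 ((div_le_iff₀ hζ).1 a4)⟩, Prod.ext rfl a6.symm⟩
    rintro rfl
    omega

lemma diag (α : ℕ → ℝ) {H : ℝ → ℝ → ℂ} {b M : ℝ} (hb : 0 < b)
    (hM : ∀ s t, ‖H s t‖ ≤ M) {N : ℕ} {ζ X : ℝ} (hζ : 0 < ζ) :
    (∑ q ∈ box (b * (√N * ζ)) (b * ζ / √N),
      conj (vv α H N ζ X q.1 q.2) * vv α H N ζ X q.1 q.2).re ≤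
      M ^ 2 * (b * ζ / √N) * ∑ d ∈ Ioc 0 ⌊b * (√N * ζ)⌋₊, α d ^ 2 := by
  have a1 : ∀ d e : ℕ, ‖conj (vv α H N ζ X d e) * vv α H N ζ X d e‖ ≤ M ^ 2 * α d ^ 2 := by
    intro d e
    rw [norm_mul, Complex.norm_conj, ← sq, vv, norm_mul, norm_mul, norm_ee, mul_one,
      Complex.norm_real, mul_pow, Real.norm_eq_abs, sq_abs, mul_comm]
    exact mul_le_mul_of_nonneg_right (pow_le_pow_left₀ (norm_nonneg _) (hM _ _) 2) (sq_nonneg _)
  refine (Complex.re_le_norm _).trans ((norm_sum_le _ _).trans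
    ((sum_le_sum fun q _ => a1 q.1 q.2).trans ?_))
  unfold Inf.box
  rw [sum_product, mul_sum]
  refine sum_le_sum fun d _ => ?_
  dsimp only
  rw [sum_const, nsmul_eq_mul]
  have a2 := card_seg (x := b * ζ / √N) (by positivity)
  calc _ ≤ (b * ζ / √N) * (M ^ 2 * α d ^ 2) := mul_le_mul_of_nonneg_right a2 (by positivity)
    _ = _ := by ring

end Gram

open scoped ComplexConjugate in
theorem gramq : S_Gram := by
  intro α β _ hβ H a b M h hb hM N hN ζ X hζ
  have hN' : (0 : ℝ) < N := by exact_mod_cast hN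
  have hS : 0 < √N := Real.sqrt_pos.2 hN'
  set D := M ^ 2 * (b * ζ / √N) * ∑ d ∈ Ioc 0 ⌊b * (√N * ζ)⌋₊, α d ^ 2 with hD
  set v := vv α H N ζ X with hv
  set B₁ := box (2 * (b * (√N * ζ))) (b * ζ / √N) with hB₁
  set B₀ := box (b * (√N * ζ)) (b * ζ / √N) with hB₀
  set w : ℕ × ℕ → ℂ := fun p => ∑ i ∈ range N, v (p.1 - i * p.2) p.2 with hw
  set T : ℕ → ℕ → ℂ := fun i i' =>
    ∑ p ∈ B₁, conj (v (p.1 - i * p.2) p.2) * v (p.1 - i' * p.2) p.2 with hT
  have h1 : ∑ p ∈ B₁, ‖w p‖ ^ 2 = ∑ i ∈ range N, ∑ i' ∈ range N, (T i i').re := by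
    simp only [hT, Complex.re_sum]
    rw [sum_congr rfl fun i _ => sum_comm, sum_comm]
    refine sum_congr rfl fun p _ => ?_
    simp only [← Complex.re_sum, ← sum_mul_sum]
    rw [← map_sum, Complex.conj_mul', ← Complex.ofReal_pow, Complex.ofReal_re]
  have h2 : ∀ i i', (T i i').re = (T i' i).re := by
    intro i i'
    rw [← Complex.conj_re]
    simp only [hT, map_sum, map_mul, Complex.conj_conj, mul_comm]
  have h3 : ∀ i k, i + k < N → T i (i + k) =
      ∑ q ∈ B₀, conj (v (q.1 + k * q.2) q.2) * v q.1 q.2 := by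
    intro i k hik
    rw [hT]
    simp only
    rw [shift_sum h hζ hik fun p => conj (v (p.1 - i * p.2) p.2)]
    refine sum_congr rfl fun q _ => ?_
    rw [add_mul, show q.1 + (i * q.2 + k * q.2) - i * q.2 = q.1 + k * q.2 by omega]
  have h4 : ∀ i ∈ range N, ∀ i' ∈ range N, (T i i').re ≤ (if i = i' then D else 0) +
      (if i = i' then 0 else (SS (Nat.dist i i') (GG α α (Nat.dist i i' * X))
        (HK H N (Nat.dist i i')) (√N * ζ) (√N * ζ)).re) := by
    intro i hi i' hi'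
    rw [mem_range] at hi hi'
    rcases lt_trichotomy i i' with c | c | c
    · obtain ⟨k, rfl⟩ := Nat.exists_eq_add_of_le c.le
      rw [if_neg c.ne, if_neg c.ne, h3 i k hi', Gram.corr_eq α h hN hζ (by omega),
        Nat.dist_eq_sub_of_le c.le, Nat.add_sub_cancel_left, zero_add]
    · subst c
      rw [if_pos rfl, if_pos rfl, add_zero]
      have a1 := h3 i 0 hi
      simp only [add_zero, zero_mul] at a1
      rw [a1]
      exact Gram.diag α hb hM hζ
    · obtain ⟨k, rfl⟩ := Nat.exists_eq_add_of_le c.le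
      rw [if_neg c.ne', if_neg c.ne', h2, h3 i' k hi, Gram.corr_eq α h hN hζ (by omega),
        Nat.dist_comm, Nat.dist_eq_sub_of_le c.le, Nat.add_sub_cancel_left, zero_add]
  have h5 : ∑ p ∈ B₁, ‖w p‖ ^ 2 ≤ N * D + ∑ i ∈ range N, ∑ i' ∈ range N, if i = i' then 0 else
      (SS (Nat.dist i i') (GG α α (Nat.dist i i' * X)) (HK H N (Nat.dist i i'))
        (√N * ζ) (√N * ζ)).re := by
    rw [h1]
    refine (sum_le_sum fun i hi => sum_le_sum fun i' hi' => h4 i hi i' hi').trans (le_of_eq ?_)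
    simp only [sum_add_distrib, sum_ite_eq]
    rw [sum_congr rfl fun i hi => if_pos hi, sum_const, card_range, nsmul_eq_mul]
  have h6 : (N : ℂ) * SS 1 (GG α β X) H (√N * ζ) (ζ / √N) = ∑ p ∈ B₁, β p.2 * w p := by
    simp only [hw, mul_sum]
    rw [sum_comm, sum_congr rfl fun i hi => shift_sum h hζ (mem_range.1 hi) fun p => (β p.2 : ℂ)]
    dsimp only
    rw [sum_const, card_range, nsmul_eq_mul, SS_eq h (mul_pos hS hζ) (div_pos hζ hS),
      ← mul_div_assoc]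
    congr 1
    refine sum_congr rfl fun p _ => ?_
    rw [tt, if_pos Nat.modEq_one, GG, vv, show p.2 / (ζ / √N) = √N * p.2 / ζ by field_simp]
    ring
  have h7 : ‖∑ p ∈ B₁, β p.2 * w p‖ ^ 2 ≤ 2 * b ^ 2 * ζ ^ 2 * ∑ p ∈ B₁, ‖w p‖ ^ 2 := by
    have a1 : ‖∑ p ∈ B₁, β p.2 * w p‖ ≤ ∑ p ∈ B₁, ‖w p‖ :=
      (norm_sum_le _ _).trans (sum_le_sum fun p _ => by
        rw [norm_mul, Complex.norm_real]
        exact mul_le_of_le_one_left (norm_nonneg _) (hβ _))
    refine (pow_le_pow_left₀ (norm_nonneg _) a1 2).trans (sq_sum_le_card_mul_sum_sq.trans ?_)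
    refine mul_le_mul_of_nonneg_right ((card_box (by positivity) (by positivity)).trans
      (le_of_eq (by field_simp))) (sum_nonneg fun _ _ => by positivity)
  rw [← h6, norm_mul, Complex.norm_natCast, mul_pow] at h7
  exact h7.trans (mul_le_mul_of_nonneg_left h5 (by positivity))

end Pool.Agent.P.MP_26a8c3_nt.Lg
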