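import Pool.Agent.P.MP_26a8c3_nt.Lg.Defs

/-! The window of one term of the expansion is Lipschitz. -/

namespace Pool.Agent.P.MP_26a8c3_nt.Lg

open Finset
open Inf

namespace HW

lemma kap_lip {η V : ℝ} (hV : 2 ≤ V) (hη : V⁻¹ ≤ η) (s s' : ℝ) :
    |kap η s - kap η s'| ≤ V * |s - s'| := by
  have h0 : 0 < V := by linarith
  have h1 : 0 < η := (inv_pos.2 h0).trans_le hη
  have h2 : η⁻¹ ≤ V := inv_le_of_inv_le₀ h0 hη
  have a0 := abs_nonneg (s - s')
  have a1 : |s / η - 1 - (s' / η - 1)| ≤ V * |s - s'| := by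
    rw [show s / η - 1 - (s' / η - 1) = η⁻¹ * (s - s') by ring, abs_mul, abs_of_pos (inv_pos.2 h1)]
    gcongr
  have a2 : |2 - 2 * s - (2 - 2 * s')| ≤ V * |s - s'| := by
    rw [show 2 - 2 * s - (2 - 2 * s') = -(2 * (s - s')) by ring, abs_neg, abs_mul, abs_two]
    gcongr
  have a3 : 0 ≤ V * |s - s'| := by positivity
  unfold kap
  refine (abs_max_sub_max_le_max _ _ _ _).trans (max_le (by simpa using a3) ?_)
  refine (abs_min_sub_min_le_max _ _ _ _).trans (max_le (by simpa using a3) ?_)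
  exact (abs_min_sub_min_le_max _ _ _ _).trans (max_le a1 a2)

/-- Clamping to an interval. -/
noncomputable def cl (a b s : ℝ) : ℝ := max a (min b s)

lemma cl_lip (a b s s' : ℝ) : |cl a b s - cl a b s'| ≤ |s - s'| := by
  unfold cl
  refine (abs_max_sub_max_le_max _ _ _ _).trans (max_le (by simp) ?_)
  exact (abs_min_sub_min_le_max _ _ _ _).trans (max_le (by simp) le_rfl)

lemma cl_mem {a b : ℝ} (h : a ≤ b) (s : ℝ) : a ≤ cl a b s ∧ cl a b s ≤ b :=
  ⟨le_max_left _ _, max_le h (min_le_left _ _)⟩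

lemma cl_eq {a b s : ℝ} (h1 : a ≤ s) (h2 : s ≤ b) : cl a b s = s := by
  rw [cl, min_eq_right h2, max_eq_right h1]

lemma w_lip {w : ℝ → ℂ} {V : ℝ} (hV : 1 ≤ V) (hw : Amp w V) {u u' : ℝ} (a : (V ^ 4)⁻¹ ≤ u)
    (b : u ≤ 1) (a' : (V ^ 4)⁻¹ ≤ u') (b' : u' ≤ 1) : ‖w u - w u'‖ ≤ V ^ 13 * |u - u'| := by
  have h0 : 0 < V := by linarith
  wlog h : u ≤ u' generalizing u u'
  · rw [norm_sub_rev, abs_sub_comm]
    exact this a' b' a b (not_le.1 h).le
  have h1 : 0 < u := lt_of_lt_of_le (by positivity) a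
  refine (hw.lip u u' h1 h b').trans ?_
  rw [abs_sub_comm, abs_of_nonneg (sub_nonneg.2 h), div_le_iff₀ (by positivity)]
  have h2 : 1 ≤ V ^ 4 * u := by rwa [← div_le_iff₀' (by positivity), one_div]
  have h3 : 1 ≤ (V ^ 4 * u) ^ 3 := one_le_pow₀ h2
  have h4 : 0 ≤ V * (u' - u) := mul_nonneg h0.le (sub_nonneg.2 h)
  nlinarith [mul_le_mul_of_nonneg_left h3 h4]

end HW

open HW

theorem hwq : S_HW := by
  intro V η α β γ w hV hη hη1 hw hα hαV hβ hβV hγ hγ2
  have h0 : 0 < V := by linarith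
  have hV1 : 1 ≤ V := by linarith
  have hη0 : 0 < η := (inv_pos.2 h0).trans_le hη
  have ha : 0 < α := by linarith
  have hb : 0 < β := by linarith
  have hc : ∀ {α : ℝ}, 0 < α → η / α ≤ 1 / α := fun h => by gcongr
  have hlow : ∀ {α : ℝ}, 1 ≤ α → α ≤ V → (V ^ 2)⁻¹ ≤ η / α := fun {α} a b => by
    rw [sq, mul_inv, div_eq_mul_inv]
    exact mul_le_mul hη (inv_anti₀ (by linarith) b) (by positivity) hη0.le
  set u : ℝ → ℝ → ℝ := fun s t => γ * (cl (η / α) (1 / α) s * cl (η / β) (1 / β) t) with hu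
  have hu1 : ∀ s t, (V ^ 4)⁻¹ ≤ u s t ∧ u s t ≤ 1 := by
    intro s t
    obtain ⟨a1, a2⟩ := cl_mem (hc ha) s
    obtain ⟨a3, a4⟩ := cl_mem (hc hb) t
    have a5 := (hlow hα hαV).trans a1
    have a6 := (hlow hβ hβV).trans a3
    have a7 : 0 < (V ^ 2)⁻¹ := by positivity
    constructor
    · calc (V ^ 4)⁻¹ = 1 * ((V ^ 2)⁻¹ * (V ^ 2)⁻¹) := by field_simp
        _ ≤ _ := mul_le_mul hγ (mul_le_mul a5 a6 a7.le (a7.le.trans a5)) (by positivity)
            (by linarith)
    · calc u s t ≤ α * β * (1 / α * (1 / β)) :=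
          mul_le_mul hγ2 (mul_le_mul a2 a4 (a7.le.trans a6) (by positivity))
            (mul_nonneg (a7.le.trans a5) (a7.le.trans a6)) (by positivity)
        _ = 1 := by field_simp
  have hu2 : ∀ s t s' t', |u s t - u s' t'| ≤ V * (|s - s'| + |t - t'|) := by
    intro s t s' t'
    obtain ⟨a1, a2⟩ := cl_mem (hc ha) s'
    obtain ⟨a3, a4⟩ := cl_mem (hc hb) t
    have a5 : 0 ≤ cl (η / α) (1 / α) s' := le_trans (by positivity) a1
    have a6 : 0 ≤ cl (η / β) (1 / β) t := le_trans (by positivity) a3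
    have b1 := cl_lip (η / α) (1 / α) s s'
    have b2 := cl_lip (η / β) (1 / β) t t'
    have e : u s t - u s' t' = γ * ((cl (η / α) (1 / α) s - cl (η / α) (1 / α) s') *
        cl (η / β) (1 / β) t + cl (η / α) (1 / α) s' *
        (cl (η / β) (1 / β) t - cl (η / β) (1 / β) t')) := by simp only [hu]; ring
    rw [e, abs_mul, abs_of_pos (by linarith : 0 < γ)]
    calc _ ≤ α * β * (|s - s'| * (1 / β) + 1 / α * |t - t'|) := by
          refine mul_le_mul hγ2 ((abs_add_le _ _).trans (add_le_add ?_ ?_)) (abs_nonneg _)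
            (by positivity)
          · rw [abs_mul, abs_of_nonneg a6]
            exact mul_le_mul b1 a4 a6 (abs_nonneg _)
          · rw [abs_mul, abs_of_nonneg a5]
            exact mul_le_mul a2 b2 (abs_nonneg _) (by positivity)
      _ = α * |s - s'| + β * |t - t'| := by field_simp
      _ ≤ V * |s - s'| + V * |t - t'| := by gcongr
      _ = _ := by ring
  have he : ∀ s t, HW η w α β γ s t = kap η (α * s) * kap η (β * t) * w (u s t) := by
    intro s t
    by_cases c : kap η (α * s) = 0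
    · simp [HW, c]
    by_cases c' : kap η (β * t) = 0
    · simp [HW, c']
    obtain ⟨a1, a2⟩ := kap_ne hη0 c
    obtain ⟨a3, a4⟩ := kap_ne hη0 c'
    simp only [HW, hu]
    rw [cl_eq ((div_le_iff₀' ha).2 a1.le) ((le_div_iff₀' ha).2 a2.le),
      cl_eq ((div_le_iff₀' hb).2 a3.le) ((le_div_iff₀' hb).2 a4.le)]
  have hwb : ∀ s t, ‖w (u s t)‖ ≤ V := fun s t =>
    hw.bd _ (le_trans (by positivity) (hu1 s t).1) (hu1 s t).2
  have hk : ∀ x, ‖((kap η x : ℝ) : ℂ)‖ ≤ 1 := fun x => by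
    rw [Complex.norm_real, Real.norm_of_nonneg (kap_nonneg _ _)]
    exact kap_le _ _
  have p1 : V ≤ V ^ 16 := le_self_pow₀ hV1 (by norm_num)
  have p2 : (V ^ 16)⁻¹ ≤ (V ^ 2)⁻¹ :=
    inv_anti₀ (by positivity) (pow_le_pow_right₀ hV1 (by norm_num))
  refine ⟨fun s t h => ?_, fun s t => ?_, fun s t s' t' => ?_⟩
  · obtain ⟨⟨a1, a2⟩, a3, a4⟩ := HW_ne hη0 h
    have b : ∀ {α s : ℝ}, 1 ≤ α → α ≤ V → η < α * s → α * s < 1 →
        (V ^ 16)⁻¹ ≤ s ∧ s ≤ V ^ 16 := by
      intro α s c1 c2 c3 c4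
      have c5 : 0 < s := (mul_pos_iff_of_pos_left (by linarith)).1 (hη0.trans c3)
      exact ⟨p2.trans ((hlow c1 c2).trans ((div_le_iff₀' (by linarith)).2 c3.le)),
        by nlinarith⟩
    exact ⟨b hα hαV a1 a2, b hβ hβV a3 a4⟩
  · rw [he, norm_mul, norm_mul]
    exact (mul_le_of_le_one_left (norm_nonneg _)
      (mul_le_one₀ (hk _) (norm_nonneg _) (hk _))).trans ((hwb s t).trans p1)
  · have d1 : ∀ {α : ℝ}, 0 < α → α ≤ V → ∀ s s' : ℝ,
        ‖((kap η (α * s) : ℝ) : ℂ) - kap η (α * s')‖ ≤ V ^ 2 * |s - s'| := by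
      intro α c1 c2 s s'
      rw [← Complex.ofReal_sub, Complex.norm_real, Real.norm_eq_abs]
      refine (kap_lip hV hη _ _).trans ?_
      rw [← mul_sub, abs_mul, abs_of_pos c1, sq, mul_assoc]
      gcongr
    have d2 := (w_lip hV1 hw (hu1 s t).1 (hu1 s t).2 (hu1 s' t').1 (hu1 s' t').2).trans
      (mul_le_mul_of_nonneg_left (hu2 s t s' t') (by positivity))
    rw [he, he, show ((kap η (α * s) : ℝ) : ℂ) * kap η (β * t) * w (u s t) -
        kap η (α * s') * kap η (β * t') * w (u s' t') =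
        (kap η (α * s) - kap η (α * s')) * kap η (β * t) * w (u s t) +
        kap η (α * s') * (kap η (β * t) - kap η (β * t')) * w (u s t) +
        kap η (α * s') * kap η (β * t') * (w (u s t) - w (u s' t')) by ring]
    refine norm_add₃_le.trans ?_
    simp only [norm_mul]
    have f1 := mul_le_mul (mul_le_mul (d1 ha hαV s s') (hk (β * t)) (norm_nonneg _)
      (by positivity)) (hwb s t) (norm_nonneg _) (by positivity)
    have f2 := mul_le_mul (mul_le_mul (hk (α * s')) (d1 hb hβV t t') (norm_nonneg _)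
      (by positivity)) (hwb s t) (norm_nonneg _) (by positivity)
    have f3 := mul_le_mul (mul_le_mul (hk (α * s')) (hk (β * t')) (norm_nonneg _)
      (by positivity)) d2 (norm_nonneg _) (by positivity)
    have g1 : V ^ 3 + V ^ 14 ≤ V ^ 16 := by
      have : V ^ 3 ≤ V ^ 14 := pow_le_pow_right₀ hV1 (by norm_num)
      nlinarith [pow_pos h0 14, mul_le_mul hV hV two_pos.le h0.le]
    have g2 := mul_le_mul_of_nonneg_right g1
      (add_nonneg (abs_nonneg (s - s')) (abs_nonneg (t - t')))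
    nlinarith

end Pool.Agent.P.MP_26a8c3_nt.Lg
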