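import Pool.Agent.P.MP_26a8c3_nt.Lg.Defs

/-! The main estimate for one subset of primes, with coefficients in two variables. -/

namespace Pool.Agent.P.MP_26a8c3_nt.Lg

open Finset MeasureTheory
open scoped ContDiff
open Pool.Agent.P.MP_a14ce1_nt
open Inf
open Hyb (ee ee_add norm_ee)

namespace MU

lemma move {G : ℕ → ℕ → ℂ} {P : Finset ℕ} (hG : Gd G (· ∈ P)) (A : Finset ℕ) (hA : A ⊆ P)
    (d e : ℕ) : G (pr A * d) e = G d (pr A * e) := by
  induction A using Finset.induction_on generalizing e with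
  | empty => simp [pr]
  | insert p A hp ih =>
    have e1 : pr (insert p A) = p * pr A := prod_insert hp
    rw [e1, mul_assoc, hG.inv p (hA (mem_insert_self _ _)),
      ih (fun x hx => hA (mem_insert_of_mem hx))]
    congr 1
    ring

lemma inner2 {k : ℕ} [NeZero k] {K : ℝ → ℝ → ℂ} {ρ M : ℝ} (h : Kad K ρ M) {φ : ℝ → ℂ} {R : ℝ}
    {j : ℝ → ℝ} (hφ : Tf φ R j) {P U : Finset ℕ} (hP : ∀ p ∈ P, p.Prime ∧ Nat.Coprime p k)
    (hU : U ⊆ P) {G : ℕ → ℕ → ℂ} (hG : Gd G (· ∈ P)) {Z : ℝ} (hZ : 0 < Z) {d d' : ℕ}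
    (hd : 0 < d) (hd' : 0 < d') :
    ‖∑ A ∈ U.powerset, T2 k G (Phi K φ) Z (pr A * d, pr (U \ A) * d')‖ ≤
      (if ((pr U * d * d' : ℕ) : ℝ) ≤ Real.exp ρ * Z ^ 2 then M else 0) *
        ∫ w, (Set.Icc (Real.log (d / Z) - ρ) (Real.log (d / Z) + ρ)).indicator
          (fun w => ∑ χ : DirichletCharacter ℂ k, ‖FF χ φ U w‖) w := by
  refine le_trans (le_of_eq ?_) (inner_le h hφ (fun p hp => hP p (hU hp))
    (G := fun _ => G d (pr U * d')) (fun _ => hG.bd _ _) hZ hd hd')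
  congr 1
  refine sum_congr rfl fun A hA => ?_
  have hAU := mem_powerset.1 hA
  have e1 : pr (U \ A) * pr A = pr U := prod_sdiff hAU
  have e2 : G (pr A * d) (pr (U \ A) * d') = G d (pr U * d') := by
    rw [move hG A (hAU.trans hU), ← e1]
    congr 1
    ring
  simp only [T2, TT, e2]

lemma outer2 {P : Finset ℕ} {C y₀ : ℝ} (hC : Cnt P C y₀) {g : ℝ → ℝ} (hg : Integrable g)
    (hg0 : ∀ w, 0 ≤ g w) {Z ρ : ℝ} (hZ : 0 < Z)
    (hs : ∀ w, g w ≠ 0 → y₀ ≤ Z * Real.exp (w + ρ)) (S : Finset ℕ)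
    (hS : ∀ d ∈ S, 0 < d ∧ Nat.Coprime d (pr P)) :
    ∑ d ∈ S, (d : ℝ)⁻¹ * ∫ w, (Set.Icc (Real.log (d / Z) - ρ) (Real.log (d / Z) + ρ)).indicator
      g w ≤ C * VV P * Real.exp (2 * ρ) * ∫ w, g w := by
  simp only [← integral_const_mul]
  rw [← integral_finsetSum _ fun d _ => (hg.indicator measurableSet_Icc).const_mul _]
  refine integral_mono_of_nonneg (.of_forall fun w => sum_nonneg fun d _ =>
    mul_nonneg (by positivity) (Set.indicator_nonneg (fun _ _ => hg0 _) _)) (hg.const_mul _)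
    (.of_forall fun w => ?_)
  by_cases hw : g w = 0
  · simp [Set.indicator, hw]
  simp only [Set.indicator, mul_ite, mul_zero]
  rw [← sum_filter, ← sum_mul]
  refine mul_le_mul_of_nonneg_right ?_ (hg0 w)
  set S' := S.filter fun d : ℕ => w ∈ Set.Icc (Real.log (d / Z) - ρ) (Real.log (d / Z) + ρ)
  have h1 : ∀ d ∈ S', Z * Real.exp (w - ρ) ≤ d ∧ (d : ℝ) ≤ Z * Real.exp (w + ρ) := by
    intro d hd
    obtain ⟨a, b, c⟩ := mem_filter.1 hd
    have hd0 : (0 : ℝ) < d := by exact_mod_cast (hS d a).1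
    rw [← le_div_iff₀' hZ, ← div_le_iff₀' hZ, ← Real.le_log_iff_exp_le (by positivity),
      ← Real.log_le_iff_le_exp (by positivity)]
    constructor <;> linarith
  have h2 := hC _ (hs w hw) S' fun d hd =>
    ⟨(hS d (mem_filter.1 hd).1).1, (h1 d hd).2, (hS d (mem_filter.1 hd).1).2⟩
  refine (sum_le_card_nsmul _ _ (Z * Real.exp (w - ρ))⁻¹ fun d hd =>
    inv_anti₀ (by positivity) (h1 d hd).1).trans ?_
  rw [nsmul_eq_mul, ← div_eq_mul_inv, div_le_iff₀ (by positivity)]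
  refine h2.trans (le_of_eq ?_)
  rw [show w + ρ = 2 * ρ + (w - ρ) by ring, Real.exp_add]
  ring

end MU

theorem muq : S_MU := by
  intro k _ K ρ M h φ R j hφ P U hP hU G hG C y₀ Z hC0 hC hZ0 hZ
  have hP1 : ∀ p ∈ P, p.Prime := fun p hp => (hP p hp).1
  have hU1 : ∀ p ∈ U, p.Prime := fun p hp => hP1 p (hU hp)
  have hm : (0 : ℝ) < pr U := by exact_mod_cast pr_pos hU1
  have hV := VV_pos hP1
  have hM : 0 ≤ M := (norm_nonneg _).trans (h.bd 0 0)
  have hρ := h.r0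
  have hR := hφ.R0
  set B := Real.exp (2 * ρ + R) with hB
  have hB0 : 0 < B := Real.exp_pos _
  set g : ℝ → ℝ := fun w => ∑ χ : DirichletCharacter ℂ k, ‖FF χ φ U w‖ with hg
  have hgi : ∀ χ : DirichletCharacter ℂ k, Integrable fun w => ‖FF χ φ U w‖ := fun χ =>
    ((FF_cont χ hφ.sm.continuous U).integrable_of_hasCompactSupport (FF_cpt χ hφ.supp hU1)).norm
  have hg0 : ∀ w, 0 ≤ g w := fun w => by positivity
  set J : ℕ → ℝ := fun d =>
    ∫ w, (Set.Icc (Real.log (d / Z) - ρ) (Real.log (d / Z) + ρ)).indicator g w with hJ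
  have hJ0 : ∀ d, 0 ≤ J d := fun d =>
    integral_nonneg fun w => Set.indicator_nonneg (fun _ _ => hg0 _) _
  set S := (Ioc 0 ⌊B * Z⌋₊).filter fun d => Nat.Coprime d (pr P) with hS
  have hZ' : y₀ ≤ Z / (pr U * B) := by rwa [le_div_iff₀ (by positivity)]
  have h1 := MU.outer2 hC (integrable_finsetSum _ fun χ _ => hgi χ) hg0 hZ0 (ρ := ρ)
    (fun w hw => ?_) S fun d hd => ⟨(mem_Ioc.1 (mem_filter.1 hd).1).1, (mem_filter.1 hd).2⟩
  · rw [integral_finsetSum _ fun χ _ => hgi χ] at h1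
    rw [sum_comm]
    have h2 : ∀ q ∈ box (B * Z) (B * Z), ‖∑ A ∈ U.powerset,
        (if Nat.Coprime q.1 (pr P) ∧ Nat.Coprime q.2 (pr P) then
          T2 k G (Phi K φ) Z (pr A * q.1, pr (U \ A) * q.2) else 0)‖ ≤
        (if Nat.Coprime q.1 (pr P) then M * J q.1 else 0) * (if Nat.Coprime q.2 (pr P) ∧
          ((pr U * q.1 * q.2 : ℕ) : ℝ) ≤ Real.exp ρ * Z ^ 2 then 1 else 0) := by
      intro q hq
      obtain ⟨⟨a1, -⟩, a2, -⟩ := mem_box.1 hq
      by_cases c : Nat.Coprime q.1 (pr P) ∧ Nat.Coprime q.2 (pr P)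
      · rw [sum_congr rfl fun A _ => if_pos c, if_pos c.1]
        refine (MU.inner2 h hφ hP hU hG hZ0 a1 a2).trans (le_of_eq ?_)
        by_cases c2 : ((pr U * q.1 * q.2 : ℕ) : ℝ) ≤ Real.exp ρ * Z ^ 2
        · rw [if_pos c2, if_pos ⟨c.2, c2⟩, mul_one]
        · rw [if_neg c2, if_neg fun h => c2 h.2, mul_zero, zero_mul]
      · rw [sum_congr rfl fun A _ => if_neg c, sum_const_zero, norm_zero]
        have := hJ0 q.1
        positivity
    refine (norm_sum_le _ _).trans ((sum_le_sum h2).trans ?_)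
    rw [Inf.box, sum_product]
    simp only [← mul_sum]
    simp only [ite_mul, zero_mul]
    rw [← sum_filter, ← hS]
    have h3 : ∀ d ∈ S, M * J d * ∑ d' ∈ Ioc 0 ⌊B * Z⌋₊, (if Nat.Coprime d' (pr P) ∧
        ((pr U * d * d' : ℕ) : ℝ) ≤ Real.exp ρ * Z ^ 2 then (1 : ℝ) else 0) ≤
        M * (C * VV P * (Real.exp ρ * Z ^ 2)) * (pr U : ℝ)⁻¹ * ((d : ℝ)⁻¹ * J d) := by
      intro d hd
      obtain ⟨a1, a2⟩ := mem_seg.1 (mem_filter.1 hd).1
      have hd0 : (0 : ℝ) < d := by exact_mod_cast a1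
      rw [sum_boole]
      have a3 := hC (Real.exp ρ * Z ^ 2 / (pr U * d)) (hZ'.trans ?_)
        ((Ioc 0 ⌊B * Z⌋₊).filter fun d' => Nat.Coprime d' (pr P) ∧
          ((pr U * d * d' : ℕ) : ℝ) ≤ Real.exp ρ * Z ^ 2) fun n hn => ?_
      · refine (mul_le_mul_of_nonneg_left a3 (mul_nonneg hM (hJ0 d))).trans (le_of_eq ?_)
        field_simp
      · rw [div_le_div_iff₀ (by positivity) (by positivity)]
        calc Z * (pr U * d) ≤ Z * (pr U * (B * Z)) := by gcongr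
          _ = 1 * Z ^ 2 * (pr U * B) := by ring
          _ ≤ _ := by gcongr; exact Real.one_le_exp hρ
      · obtain ⟨b1, b2, b3⟩ := mem_filter.1 hn
        refine ⟨(mem_Ioc.1 b1).1, ?_, b2⟩
        rw [le_div_iff₀' (by positivity)]
        exact_mod_cast b3
    refine (sum_le_sum h3).trans ?_
    rw [← mul_sum]
    refine (mul_le_mul_of_nonneg_left h1 (by positivity)).trans (le_of_eq ?_)
    rw [show 3 * ρ = ρ + 2 * ρ by ring, Real.exp_add]
    ring
  · obtain ⟨χ, -, hχ⟩ := exists_ne_zero_of_sum_ne_zero hw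
    have a1 := (FF_supp χ hφ.supp hU1 (norm_ne_zero_iff.1 hχ)).1
    refine hZ'.trans ?_
    rw [div_eq_mul_inv, ← Real.exp_log hm, hB, ← Real.exp_add, ← Real.exp_neg]
    gcongr
    linarith

end Pool.Agent.P.MP_26a8c3_nt.Lg
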