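import Pool.Agent.P.MP_26a8c3_nt.Lg.Defs
import Pool.Agent.P.MP_0ad054_nt.An.All

/-! Character sums over primes with reciprocal weights are bounded. -/

namespace Pool.Agent.P.MP_26a8c3_nt.Lg

open Finset MeasureTheory
open scoped ContDiff
open Pool.Agent.P.MP_a14ce1_nt
open Inf
open Hyb (ee ee_add norm_ee)
open ArithmeticFunction

namespace NP

/-- The weight in the partial summation. -/
noncomputable def wt (n : ℕ) : ℝ := 1 / (n * Real.log n)

lemma wt_step {b : ℕ} (hb : 1 ≤ b) (hL : 1 ≤ Real.log b) :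
    0 ≤ wt b - wt (b + 1) ∧ (b : ℝ) / Real.log b * (wt b - wt (b + 1)) ≤
      2 * (1 / Real.log b - 1 / Real.log (b + 1 : ℕ)) := by
  have hb1 : (1 : ℝ) ≤ b := by exact_mod_cast hb
  have hD : 1 ≤ ((b : ℝ) + 1) * (Real.log (b + 1 : ℕ) - Real.log b) := by
    have h := Real.log_le_sub_one_of_pos (x := (b : ℝ) / ((b : ℝ) + 1)) (by positivity)
    rw [Real.log_div (by positivity) (by positivity)] at h
    have e : (b : ℝ) / ((b : ℝ) + 1) - 1 = -(1 / ((b : ℝ) + 1)) := by field_simp; ring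
    rw [e] at h
    push_cast
    have h2 : 1 / ((b : ℝ) + 1) ≤ Real.log ((b : ℝ) + 1) - Real.log b := by linarith
    rw [div_le_iff₀ (by positivity)] at h2
    linarith
  unfold wt
  have hc : ((b + 1 : ℕ) : ℝ) = (b : ℝ) + 1 := by push_cast; rfl
  generalize Real.log (b + 1 : ℕ) = L' at *
  generalize Real.log b = L at *
  rw [hc]
  generalize (b : ℝ) = x at *
  have hD0 : 0 < L' - L := by
    by_contra h
    nlinarith [not_lt.1 h]
  have hL' : 0 < L' := by linarith
  have hL0 : 0 < L := by linarith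
  have e1 : 1 / (x * L) - 1 / ((x + 1) * L') =
      ((x + 1) * (L' - L) + L) / (x * (x + 1) * L * L') := by
    field_simp
    ring
  have e2 : 1 / L - 1 / L' = (L' - L) / (L * L') := by field_simp
  rw [e1, e2]
  refine ⟨by positivity, ?_⟩
  have e3 : x / L * (((x + 1) * (L' - L) + L) / (x * (x + 1) * L * L')) =
      ((x + 1) * (L' - L) + L) / ((x + 1) * L) / (L * L') := by
    field_simp
  rw [e3, ← mul_div_assoc]
  apply div_le_div_of_nonneg_right _ (by positivity)
  rw [div_le_iff₀ (by positivity)]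
  nlinarith [mul_le_mul_of_nonneg_left hD hL0.le,
    mul_le_mul_of_nonneg_left hL (by positivity : 0 ≤ (x + 1) * (L' - L))]

lemma abel (f : ℕ → ℂ) {C : ℝ} (hC : 0 ≤ C) {a : ℕ} (ha : 1 ≤ a) (hL : 1 ≤ Real.log a)
    (h : ∀ n, a ≤ n → ‖∑ m ∈ Icc 1 n, f m‖ ≤ C * n / Real.log n) (b : ℕ) (hab : a ≤ b) :
    ‖∑ n ∈ Ioc a b, f n * wt n - (∑ m ∈ Icc 1 b, f m) * wt b + (∑ m ∈ Icc 1 a, f m) * wt a‖ ≤
      2 * C * (1 / Real.log a - 1 / Real.log b) := by
  induction b, hab using Nat.le_induction with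
  | base => simp
  | succ b hab ih =>
    have ha1 : (1 : ℝ) ≤ a := by exact_mod_cast ha
    have hLb : 1 ≤ Real.log b :=
      hL.trans (Real.log_le_log (by linarith) (by exact_mod_cast hab))
    obtain ⟨s1, s2⟩ := wt_step (ha.trans hab) hLb
    rw [sum_Ioc_succ_top hab, sum_Icc_succ_top (by omega : 1 ≤ b + 1)]
    have e : ∑ n ∈ Ioc a b, f n * wt n + f (b + 1) * wt (b + 1) -
        (∑ m ∈ Icc 1 b, f m + f (b + 1)) * wt (b + 1) + (∑ m ∈ Icc 1 a, f m) * wt a =
        (∑ n ∈ Ioc a b, f n * wt n - (∑ m ∈ Icc 1 b, f m) * wt b + (∑ m ∈ Icc 1 a, f m) * wt a) +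
          (∑ m ∈ Icc 1 b, f m) * ((wt b - wt (b + 1) : ℝ) : ℂ) := by
      push_cast
      ring
    rw [e]
    refine (norm_add_le _ _).trans ?_
    rw [norm_mul, Complex.norm_real, Real.norm_of_nonneg s1]
    have h1 := mul_le_mul_of_nonneg_right (h b hab) s1
    have h2 := mul_le_mul_of_nonneg_left s2 hC
    have e2 : C * b / Real.log b * (wt b - wt (b + 1)) =
        C * ((b : ℝ) / Real.log b * (wt b - wt (b + 1))) := by ring
    linarith

lemma bdry {z : ℂ} {C : ℝ} (hC : 0 ≤ C) {n : ℕ} (hn : 1 ≤ n) (hL : 1 ≤ Real.log n)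
    (h : ‖z‖ ≤ C * n / Real.log n) : ‖z * wt n‖ ≤ C := by
  have h1 : (1 : ℝ) ≤ n := by exact_mod_cast hn
  have h0 : 0 ≤ wt n := by unfold wt; positivity
  rw [norm_mul, Complex.norm_real, Real.norm_of_nonneg h0]
  refine (mul_le_mul_of_nonneg_right h h0).trans ?_
  have e : C * n / Real.log n * wt n = C / (Real.log n * Real.log n) := by
    unfold wt
    field_simp
  rw [e]
  exact div_le_self hC (by nlinarith)

lemma nonprime : ∃ B : ℝ, 0 ≤ B ∧ ∀ s : Finset ℕ,
    ∑ n ∈ s, (if n.Prime then 0 else vonMangoldt n) / (n : ℝ) ≤ B := by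
  have hs := vonMangoldt.summable_residueClass_non_primes_div (q := 1) 0
  have he : ∀ n : ℕ, vonMangoldt.residueClass (0 : ZMod 1) n = vonMangoldt n := fun n =>
    Set.indicator_of_mem (s := {n : ℕ | (n : ZMod 1) = 0}) (a := n)
      (show (n : ZMod 1) = 0 from Subsingleton.elim _ _) _
  simp only [he] at hs
  have h0 : ∀ n : ℕ, 0 ≤ (if n.Prime then 0 else vonMangoldt n) / (n : ℝ) := fun n => by
    have : 0 ≤ vonMangoldt n := vonMangoldt_nonneg
    split_ifs <;> positivity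
  exact ⟨_, tsum_nonneg h0, fun s => hs.sum_le_tsum _ fun n _ => h0 n⟩

end NP

open NP in
theorem np : S_NP := by
  obtain ⟨C, hC, hsw⟩ := MP_0ad054_nt.An.sw_all 1 3
  obtain ⟨B, hB, hnp⟩ := nonprime
  refine ⟨4 * C + B, by linarith, fun k _ χ hχ u v hu hk huv => ?_⟩
  have hk2 : 2 ≤ k := by
    by_contra h
    have h0 := NeZero.ne k
    obtain rfl : k = 1 := by omega
    exact hχ (DirichletCharacter.level_one χ)
  have hk2' : (2 : ℝ) ≤ k := by exact_mod_cast hk2
  set a := ⌊u⌋₊ with ha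
  set b := ⌊v⌋₊ with hb
  have ha2 : 2 ≤ a := Nat.le_floor (by simpa using hu)
  have ha2' : (2 : ℝ) ≤ a := by exact_mod_cast ha2
  have hab : a ≤ b := Nat.floor_le_floor huv
  have hua : Real.log u ≤ Real.log a + 0.7 := by
    have h2 : u ≤ a * 2 := by linarith [Nat.lt_floor_add_one u]
    have h3 := Real.log_le_log (by linarith) h2
    rw [Real.log_mul (by linarith) (by norm_num)] at h3
    linarith [Real.log_two_lt_d9]
  have hmono : ∀ n, a ≤ n → Real.log a ≤ Real.log n := fun n hn =>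
    Real.log_le_log (by linarith) (by exact_mod_cast hn)
  have hLa : 1.3 ≤ Real.log a := by linarith
  have hL : ∀ n, a ≤ n → 1 ≤ Real.log n := fun n hn => by linarith [hmono n hn]
  set f : ℕ → ℂ := fun n => (vonMangoldt n : ℂ) * χ n with hf
  have hψ : ∀ n, a ≤ n → ‖∑ m ∈ Icc 1 n, f m‖ ≤ C * n / Real.log n := fun n hn => by
    have h1 := hmono n hn
    have h2 : (k : ℝ) ≤ Real.log n ^ 3 := by
      have h3 : 1.3 ≤ Real.log n := by linarith
      have h4 : (k : ℝ) ≤ Real.log n + 0.7 := by linarith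
      generalize Real.log n = L at *
      nlinarith [mul_le_mul h3 h3 (by norm_num) (by linarith)]
    simpa only [pow_one] using hsw n k χ (ha2.trans hn) h2 hχ
  have h1 := abel f hC.le (by omega) (hL a le_rfl) hψ b hab
  have h2 := bdry hC.le (by omega) (hL a le_rfl) (hψ a le_rfl)
  have h3 := bdry hC.le (by omega) (hL b hab) (hψ b hab)
  have h4 : 2 * C * (1 / Real.log a - 1 / Real.log b) ≤ 2 * C := by
    have c1 : 1 / Real.log a ≤ 1 := by
      rw [div_le_one (by linarith)]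
      linarith
    have c2 : 0 ≤ 1 / Real.log b := by
      have := hL b hab
      positivity
    nlinarith
  have h5 : ‖∑ n ∈ Ioc a b, f n * wt n‖ ≤ 4 * C := by
    have e : ∑ n ∈ Ioc a b, f n * wt n = (∑ n ∈ Ioc a b, f n * wt n -
        (∑ m ∈ Icc 1 b, f m) * wt b + (∑ m ∈ Icc 1 a, f m) * wt a) +
        (∑ m ∈ Icc 1 b, f m) * wt b - (∑ m ∈ Icc 1 a, f m) * wt a := by ring
    rw [e]
    refine (norm_sub_le _ _).trans ?_
    linarith [norm_add_le (∑ n ∈ Ioc a b, f n * wt n -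
        (∑ m ∈ Icc 1 b, f m) * wt b + (∑ m ∈ Icc 1 a, f m) * wt a) ((∑ m ∈ Icc 1 b, f m) * wt b)]
  have e : ∑ p ∈ Ch.pr u v, χ p / (p : ℂ) = ∑ n ∈ Ioc a b, f n * wt n -
      ∑ n ∈ Ioc a b, (if n.Prime then 0 else f n * wt n) := by
    rw [Ch.pr, sum_filter, ← sum_sub_distrib]
    refine sum_congr rfl fun n hn => ?_
    have hn1 := hL n (mem_Ioc.1 hn).1.le
    split_ifs with hp
    · have hn0 : (n : ℂ) ≠ 0 := by exact_mod_cast hp.ne_zero
      have hl0 : ((Real.log n : ℝ) : ℂ) ≠ 0 := by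
        exact_mod_cast (by linarith : Real.log n ≠ 0)
      simp only [hf, wt, vonMangoldt_apply_prime hp, sub_zero, Complex.ofReal_div,
        Complex.ofReal_mul, Complex.ofReal_one, Complex.ofReal_natCast]
      field_simp
    · simp
  rw [e]
  refine (norm_sub_le _ _).trans (add_le_add h5 ?_)
  refine (norm_sum_le _ _).trans (le_trans (sum_le_sum fun n hn => ?_) (hnp (Ioc a b)))
  have hn1 := hL n (mem_Ioc.1 hn).1.le
  have hn0 : (0 : ℝ) < n := by exact_mod_cast (by have := (mem_Ioc.1 hn).1; omega : 0 < n)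
  split_ifs with hp
  · simp
  · have h0 : 0 ≤ wt n := by unfold wt; positivity
    have hv : 0 ≤ vonMangoldt n := vonMangoldt_nonneg
    rw [norm_mul, hf, norm_mul, Complex.norm_real, Complex.norm_real, Real.norm_of_nonneg h0,
      Real.norm_of_nonneg hv]
    have c1 : ‖χ n‖ ≤ 1 := χ.norm_le_one _
    have c2 : wt n ≤ 1 / n := by
      unfold wt
      apply one_div_le_one_div_of_le hn0
      nlinarith
    calc vonMangoldt n * ‖χ n‖ * wt n ≤ vonMangoldt n * 1 * (1 / n) := by gcongr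
      _ = _ := by ring

end Pool.Agent.P.MP_26a8c3_nt.Lg
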