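import Pool.Agent.P.MP_26a8c3_nt.Lg.Defs

/-! Truncation of the fourfold sum for the bilinear form of the long weights. -/

namespace Pool.Agent.P.MP_26a8c3_nt.Lg

open Finset MeasureTheory
open scoped ContDiff ArithmeticFunction.Moebius
open Pool.Agent.P.MP_a14ce1_nt
open Inf
open Hyb (ee ee_add norm_ee)

namespace Ph

lemma all_le (Z : ℕ) {u : ℕ → ℂ} {M : ℝ} (hM : 0 ≤ M)
    (h : ∀ k : ℕ, 0 < k → ‖u k‖ ≤ M * ((k : ℝ) ^ 2)⁻¹) : ‖∑ k ∈ Ioc 0 Z, u k‖ ≤ 2 * M := by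
  refine (norm_sum_le _ _).trans ((sum_le_sum fun k hk => h k (mem_Ioc.1 hk).1).trans ?_)
  rw [← mul_sum, mul_comm]
  exact mul_le_mul_of_nonneg_right (sum_inv_sq_le _) hM

lemma cut_le (Z : ℕ) {T : ℕ} (hT : T ≠ 0) {u : ℕ → ℂ} {M ε δ : ℝ} (hM : 0 ≤ M)
    (hδ : 0 ≤ δ) (h : ∀ k : ℕ, 0 < k → ‖u k‖ ≤ M * ((k : ℝ) ^ 2)⁻¹)
    (h' : ∀ k : ℕ, 0 < k → k ≤ T → ‖u k‖ ≤ ε + δ * ((k : ℝ) ^ 2)⁻¹) :
    ‖∑ k ∈ Ioc 0 Z, u k‖ ≤ T * ε + (2 * δ + M * (T : ℝ)⁻¹) := by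
  rw [← sum_filter_add_sum_filter_not _ (· ≤ T), ← add_assoc]
  refine norm_add_le_of_le ((norm_sum_le _ _).trans ?_) ((norm_sum_le _ _).trans ?_)
  · refine (sum_le_sum_of_subset_of_nonneg (t := Ioc 0 T) (fun k hk => mem_Ioc.2
      ⟨(mem_Ioc.1 (mem_filter.1 hk).1).1, (mem_filter.1 hk).2⟩) fun _ _ _ => norm_nonneg _).trans
      ((sum_le_sum fun k hk => h' k (mem_Ioc.1 hk).1 (mem_Ioc.1 hk).2).trans ?_)
    rw [sum_add_distrib, sum_const, Nat.card_Ioc, Nat.sub_zero, nsmul_eq_mul, ← mul_sum,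
      mul_comm δ]
    exact add_le_add le_rfl (mul_le_mul_of_nonneg_right (sum_inv_sq_le _) hδ)
  · refine (sum_le_sum fun k hk => h k (mem_Ioc.1 (mem_filter.1 hk).1).1).trans ?_
    rw [← mul_sum]
    exact mul_le_mul_of_nonneg_left (sum_inv_sq_tail _ hT
      fun k hk => not_le.1 (mem_filter.1 hk).2) hM

lemma four_le (Z : ℕ) {T : ℕ} (hT : T ≠ 0) {u : ℕ → ℕ → ℕ → ℕ → ℂ} {M ε : ℝ} (hM : 0 ≤ M)
    (h : ∀ a b c d : ℕ, 0 < a → 0 < b → 0 < c → 0 < d → ‖u a b c d‖ ≤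
      M * ((a : ℝ) ^ 2)⁻¹ * ((b : ℝ) ^ 2)⁻¹ * ((c : ℝ) ^ 2)⁻¹ * ((d : ℝ) ^ 2)⁻¹)
    (h' : ∀ a b c d : ℕ, 0 < a → 0 < b → 0 < c → 0 < d → a ≤ T → b ≤ T → c ≤ T → d ≤ T →
      ‖u a b c d‖ ≤ ε) :
    ‖∑ a ∈ Ioc 0 Z, ∑ b ∈ Ioc 0 Z, ∑ c ∈ Ioc 0 Z, ∑ d ∈ Ioc 0 Z, u a b c d‖ ≤
      (T : ℝ) ^ 4 * ε + 32 * M * (T : ℝ)⁻¹ := by
  have a3 : ∀ a b c : ℕ, 0 < a → 0 < b → 0 < c → ‖∑ d ∈ Ioc 0 Z, u a b c d‖ ≤
      2 * M * ((a : ℝ) ^ 2)⁻¹ * ((b : ℝ) ^ 2)⁻¹ * ((c : ℝ) ^ 2)⁻¹ := fun a b c ha hb hc =>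
    (all_le Z (by positivity) fun d hd => h a b c d ha hb hc hd).trans (le_of_eq (by ring))
  have a2 : ∀ a b : ℕ, 0 < a → 0 < b → ‖∑ c ∈ Ioc 0 Z, ∑ d ∈ Ioc 0 Z, u a b c d‖ ≤
      4 * M * ((a : ℝ) ^ 2)⁻¹ * ((b : ℝ) ^ 2)⁻¹ := fun a b ha hb =>
    (all_le Z (by positivity) fun c hc => a3 a b c ha hb hc).trans (le_of_eq (by ring))
  have a1 : ∀ a : ℕ, 0 < a → ‖∑ b ∈ Ioc 0 Z, ∑ c ∈ Ioc 0 Z, ∑ d ∈ Ioc 0 Z, u a b c d‖ ≤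
      8 * M * ((a : ℝ) ^ 2)⁻¹ := fun a ha =>
    (all_le Z (by positivity) fun b hb => a2 a b ha hb).trans (le_of_eq (by ring))
  have b3 : ∀ a b c : ℕ, 0 < a → 0 < b → 0 < c → a ≤ T → b ≤ T → c ≤ T →
      ‖∑ d ∈ Ioc 0 Z, u a b c d‖ ≤ T * ε +
        M * (T : ℝ)⁻¹ * ((a : ℝ) ^ 2)⁻¹ * ((b : ℝ) ^ 2)⁻¹ * ((c : ℝ) ^ 2)⁻¹ :=
    fun a b c ha hb hc ha' hb' hc' =>
    (cut_le Z hT (δ := 0) (by positivity) le_rfl (fun d hd => h a b c d ha hb hc hd)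
      fun d hd hd' => (h' a b c d ha hb hc hd ha' hb' hc' hd').trans (le_of_eq (by ring))).trans
      (le_of_eq (by ring))
  have b2 : ∀ a b : ℕ, 0 < a → 0 < b → a ≤ T → b ≤ T →
      ‖∑ c ∈ Ioc 0 Z, ∑ d ∈ Ioc 0 Z, u a b c d‖ ≤ T * (T * ε) +
        4 * M * (T : ℝ)⁻¹ * ((a : ℝ) ^ 2)⁻¹ * ((b : ℝ) ^ 2)⁻¹ := fun a b ha hb ha' hb' =>
    (cut_le Z hT (by positivity) (by positivity) (fun c hc => a3 a b c ha hb hc)
      fun c hc hc' => b3 a b c ha hb hc ha' hb' hc').trans (le_of_eq (by ring))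
  have b1 : ∀ a : ℕ, 0 < a → a ≤ T →
      ‖∑ b ∈ Ioc 0 Z, ∑ c ∈ Ioc 0 Z, ∑ d ∈ Ioc 0 Z, u a b c d‖ ≤ T * (T * (T * ε)) +
        12 * M * (T : ℝ)⁻¹ * ((a : ℝ) ^ 2)⁻¹ := fun a ha ha' =>
    (cut_le Z hT (by positivity) (by positivity) (fun b hb => a2 a b ha hb)
      fun b hb hb' => b2 a b ha hb ha' hb').trans (le_of_eq (by ring))
  exact (cut_le Z hT (by positivity) (by positivity) a1 b1).trans
    (le_of_eq (by ring))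

lemma amp_mono {w : ℝ → ℂ} {V V' : ℝ} (h : Amp w V) (hV : V ≤ V') : Amp w V' :=
  ⟨h.cont, fun u a b => (h.bd u a b).trans hV, fun u u' a b c => (h.lip u u' a b c).trans
    (div_le_div_of_nonneg_right (mul_le_mul_of_nonneg_right hV (sub_nonneg.2 b))
      (by positivity))⟩

lemma coef_le (r j m m' : ℕ) :
    ‖((μ j * fo (r * j * (r * j)) * (cf m * cf m') : ℝ) : ℂ)‖ ≤ (m : ℝ)⁻¹ * (m' : ℝ)⁻¹ := by
  rw [Complex.norm_real, Real.norm_eq_abs, abs_mul, abs_mul, abs_mul]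
  exact (mul_le_of_le_one_left (by positivity) (mul_le_one₀ (abs_mu j) (abs_nonneg _)
    (fo_Mf.bd _))).trans (mul_le_mul (abs_cf m) (abs_cf m') (abs_nonneg _) (by positivity))

lemma gam_le {r j m m' : ℝ} (a1 : 1 ≤ r) (a2 : 1 ≤ j) (a3 : 1 ≤ m) (a4 : 1 ≤ m') :
    r * j ^ 2 ≤ r * j * m * (r * j * m') :=
  calc _ = r * j * 1 * (1 * j * 1 : ℝ) := by ring
    _ ≤ _ := by gcongr

end Ph

open Ph in
theorem phq (hw : S_HW) (hc : S_Core) : S_Ph := by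
  obtain ⟨n, W₀, hc⟩ := hc
  refine ⟨144 * n, max 65 W₀, fun V z η hV hz hl hη hη1 w ha X => ?_⟩
  have v1 : 65 ≤ V := (le_max_left _ _).trans hV
  have v2 : W₀ ≤ V := (le_max_right _ _).trans hV
  have v0 : 0 < V := by linarith
  have hη0 : 0 < η := (inv_pos.2 v0).trans_le hη
  set T : ℕ := ⌈64 * V ^ 2⌉₊ with hT
  have t1 : 64 * V ^ 2 ≤ T := Nat.le_ceil _
  have t2 : (T : ℝ) ≤ V ^ 3 := by
    have := (Nat.ceil_lt_add_one (show 0 ≤ 64 * V ^ 2 by positivity)).le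
    nlinarith
  have t3 : V ≤ T := by nlinarith
  have t4 : (1 : ℝ) ≤ T := by linarith
  have t5 : (0 : ℝ) < T := by linarith
  have t6 : T ≠ 0 := by exact_mod_cast t5.ne'
  have t7 : (T : ℝ) ≤ (T : ℝ) ^ 3 := le_self_pow₀ t4 (by norm_num)
  have t8 : (T : ℝ) ^ 3 ≤ ((T : ℝ) ^ 3) ^ 16 := le_self_pow₀ (t4.trans t7) (by norm_num)
  have t9 : (((T : ℝ) ^ 3) ^ 16) ^ n ≤ Real.log z := by
    refine le_trans ?_ hl
    rw [show 144 * n = 3 * 3 * 16 * n by ring, pow_mul, pow_mul, pow_mul]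
    gcongr
  rw [Ph_eq hη0 hz ha.cont]
  refine (four_le ⌊z⌋₊ t6 (M := V) (ε := (((T : ℝ) ^ 3) ^ 16)⁻¹) v0.le
    (fun r j m m' hr hj hm hm' => ?_) fun r j m m' hr hj hm hm' hr' hj' hn hn' => ?_).trans ?_
  · have a1 : (1 : ℝ) ≤ r := by exact_mod_cast hr
    have a2 : (1 : ℝ) ≤ j := by exact_mod_cast hj
    have a3 : (1 : ℝ) ≤ m := by exact_mod_cast hm
    have a4 : (1 : ℝ) ≤ m' := by exact_mod_cast hm'
    have a5 := one_le_mul_of_one_le_of_one_le a1 a2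
    have a6 := (HW_UB hη0 ha.cont ha.bd (one_le_mul_of_one_le_of_one_le a5 a3)
      (one_le_mul_of_one_le_of_one_le a5 a4) (by positivity) (gam_le a1 a2 a3 a4)).2 z hz X
    rw [norm_mul]
    exact (mul_le_mul (coef_le r j m m') a6 (norm_nonneg _) (by positivity)).trans
      (le_of_eq (by field_simp))
  · have a1 : (1 : ℝ) ≤ r := by exact_mod_cast hr
    have a2 : (1 : ℝ) ≤ j := by exact_mod_cast hj
    have a3 : (1 : ℝ) ≤ m := by exact_mod_cast hm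
    have a4 : (1 : ℝ) ≤ m' := by exact_mod_cast hm'
    have b1 : (r : ℝ) ≤ T := by exact_mod_cast hr'
    have b2 : (j : ℝ) ≤ T := by exact_mod_cast hj'
    have b3 : (m : ℝ) ≤ T := by exact_mod_cast hn
    have b4 : (m' : ℝ) ≤ T := by exact_mod_cast hn'
    have a5 := one_le_mul_of_one_le_of_one_le a1 a2
    have c1 : ∀ {x : ℝ}, 0 ≤ x → x ≤ T → r * j * x ≤ (T : ℝ) ^ 3 := fun {x} h0 h =>
      calc _ ≤ (T : ℝ) * T * T := by gcongr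
        _ = _ := by ring
    have a6 := hw ((T : ℝ) ^ 3) η (r * j * m) (r * j * m') (r * j ^ 2) w (by linarith)
      ((inv_anti₀ v0 (t3.trans t7)).trans hη) hη1 (amp_mono ha (t3.trans t7))
      (one_le_mul_of_one_le_of_one_le a5 a3) (c1 (by positivity) b3)
      (one_le_mul_of_one_le_of_one_le a5 a4) (c1 (by positivity) b4)
      (one_le_mul_of_one_le_of_one_le a1 (one_le_pow₀ a2)) (gam_le a1 a2 a3 a4)
    have a7 := hc _ z (by linarith) hz t9 _ a6 (X / (r * j ^ 2))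
    rw [norm_mul]
    exact (mul_le_of_le_one_left (norm_nonneg _) ((coef_le r j m m').trans
      (mul_le_one₀ (inv_le_one_of_one_le₀ a3) (by positivity) (inv_le_one_of_one_le₀ a4)))).trans a7
  · have c1 : (T : ℝ) ^ 4 * (((T : ℝ) ^ 3) ^ 16)⁻¹ ≤ (T : ℝ)⁻¹ := by
      rw [← pow_mul, ← div_eq_mul_inv, div_le_iff₀ (by positivity), inv_mul_eq_div,
        le_div_iff₀ t5, ← pow_succ]
      exact pow_le_pow_right₀ t4 (by norm_num)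
    have c2 : (T : ℝ)⁻¹ ≤ (64 * V ^ 2)⁻¹ := inv_anti₀ (by positivity) t1
    have c3 : (1 + 32 * V) * (64 * V ^ 2)⁻¹ ≤ V⁻¹ := by
      rw [← div_eq_mul_inv, div_le_iff₀ (by positivity), inv_mul_eq_div, le_div_iff₀ v0]
      nlinarith
    calc _ ≤ (1 + 32 * V) * (T : ℝ)⁻¹ := by linarith
      _ ≤ (1 + 32 * V) * (64 * V ^ 2)⁻¹ := by gcongr
      _ ≤ _ := c3

end Pool.Agent.P.MP_26a8c3_nt.Lg
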