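import Pool.Agent.P.MP_26a8c3_nt.Lg.Defs

/-! The smoothed remainder of the long weights, with polynomial parameters. -/

namespace Pool.Agent.P.MP_26a8c3_nt.Lg

open Finset MeasureTheory
open scoped ContDiff
open Pool.Agent.P.MP_a14ce1_nt
open Inf
open Hyb (ee ee_add norm_ee)

namespace R22

lemma g_int {g : ℝ → ℝ} {C : ℝ} (hg : Hyb.Good g C) : Integrable g :=
  hg.smooth.continuous.integrable_of_hasCompactSupport
    (Hyb.cpt_of hg.supp one_pos fun u hu => by simpa using hu)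

lemma ee_cont : Continuous ee := by unfold ee; fun_prop

lemma ge_int {g : ℝ → ℝ} {C : ℝ} (hg : Hyb.Good g C) (ξ : ℝ) :
    Integrable fun v => (g v : ℂ) * ee (-(ξ * v)) := by
  have h1 := hg.smooth.continuous
  have h2 := ee_cont
  refine (g_int hg).mono' (Continuous.aestronglyMeasurable (by fun_prop)) (.of_forall fun v => ?_)
  rw [norm_mul, norm_ee, mul_one, Complex.norm_real, Real.norm_of_nonneg (hg.nonneg v)]

lemma hat_le {g : ℝ → ℝ} {C : ℝ} (hg : Hyb.Good g C) (ξ : ℝ) : ‖Hyb.hat g ξ‖ ≤ 2 := by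
  refine (norm_integral_le_of_norm_le (g_int hg) (.of_forall fun v => ?_)).trans hg.int_le
  rw [norm_mul, norm_ee, mul_one, Complex.norm_real, Real.norm_of_nonneg (hg.nonneg v)]

lemma hat_lip {g : ℝ → ℝ} {C : ℝ} (hg : Hyb.Good g C) (ξ ξ' : ℝ) :
    ‖Hyb.hat g ξ - Hyb.hat g ξ'‖ ≤ 26 * |ξ - ξ'| := by
  rw [Hyb.hat, Hyb.hat, ← integral_sub (ge_int hg ξ) (ge_int hg ξ')]
  refine (norm_integral_le_of_norm_le ((g_int hg).const_mul (13 * |ξ - ξ'|))
    (.of_forall fun v => ?_)).trans ?_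
  · rw [← mul_sub, norm_mul, Complex.norm_real, Real.norm_of_nonneg (hg.nonneg v), mul_comm]
    rcases eq_or_ne (g v) 0 with c | c
    · simp [c]
    refine mul_le_mul_of_nonneg_right ((Hyb.norm_ee_sub _ _).trans ?_) (hg.nonneg v)
    obtain ⟨a1, a2⟩ := hg.supp v c
    have a3 : |v| ≤ 2 := abs_le.2 ⟨by linarith, a2⟩
    rw [show -(ξ * v) - -(ξ' * v) = -((ξ - ξ') * v) by ring, abs_neg, abs_mul]
    have a4 := Real.pi_lt_d2
    have a5 := Real.pi_pos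
    calc _ ≤ 2 * 3.15 * (|ξ - ξ'| * 2) := by gcongr
      _ ≤ _ := by nlinarith [abs_nonneg (ξ - ξ')]
  · rw [integral_const_mul]
    nlinarith [hg.int_le, abs_nonneg (ξ - ξ')]

lemma WW_lip {g : ℝ → ℝ} {C : ℝ} (hg : Hyb.Good g C) (h : ℤ) {a u u' : ℝ} (ha : 1 ≤ a)
    (h0 : 0 < u) (h1 : u ≤ u') (h2 : u' ≤ 1) :
    ‖WW g h (a * u) - WW g h (a * u')‖ ≤ (2 + 26 * |(h : ℝ)|) * (u' - u) / u ^ 3 := by
  have a0 : 0 < u' := h0.trans_le h1
  have a1 : 0 < a := by linarith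
  have a2 : 0 ≤ u' - u := sub_nonneg.2 h1
  have a3 : (a * u)⁻¹ - (a * u')⁻¹ = (u' - u) / (a * u * u') := by field_simp
  have a4 : |(a * u)⁻¹ - (a * u')⁻¹| ≤ (u' - u) / u ^ 2 := by
    rw [a3, abs_of_nonneg (by positivity)]
    refine div_le_div_of_nonneg_left a2 (by positivity) ?_
    calc u ^ 2 = 1 * u * u := by ring
      _ ≤ _ := by gcongr
  have a5 : (a * u')⁻¹ ≤ u⁻¹ := inv_anti₀ h0 (h1.trans (le_mul_of_one_le_left a0.le ha))
  have a6 : (u' - u) / u ^ 2 ≤ (u' - u) / u ^ 3 :=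
    div_le_div_of_nonneg_left a2 (by positivity)
      (pow_le_pow_of_le_one h0.le (h1.trans h2) (by norm_num))
  have e : WW g h (a * u) - WW g h (a * u') =
      (((a * u)⁻¹ - (a * u')⁻¹ : ℝ) : ℂ) * Hyb.hat g (h / (a * u)) +
      (((a * u')⁻¹ : ℝ) : ℂ) * (Hyb.hat g (h / (a * u)) - Hyb.hat g (h / (a * u'))) := by
    rw [WW, WW, Complex.ofReal_sub]
    ring
  have a7 : |(h : ℝ) / (a * u) - h / (a * u')| ≤ |(h : ℝ)| * ((u' - u) / u ^ 2) := by
    rw [div_eq_mul_inv, div_eq_mul_inv (h : ℝ), ← mul_sub, abs_mul]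
    gcongr
  rw [e]
  refine (norm_add_le _ _).trans ?_
  rw [norm_mul, norm_mul, Complex.norm_real, Complex.norm_real, Real.norm_eq_abs,
    Real.norm_of_nonneg (by positivity)]
  calc _ ≤ (u' - u) / u ^ 3 * 2 + u⁻¹ * (26 * (|(h : ℝ)| * ((u' - u) / u ^ 2))) := by
        refine add_le_add (mul_le_mul (a4.trans a6) (hat_le hg _) (norm_nonneg _) (by positivity))
          (mul_le_mul a5 ((hat_lip hg _ _).trans ?_) (norm_nonneg _) (by positivity))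
        gcongr
    _ = _ := by field_simp

lemma amp {g : ℝ → ℝ} {C : ℝ} (hg : Hyb.Good g C) {h : ℤ} (hh : h ≠ 0) {a V : ℝ} (ha : 1 ≤ a)
    (h1 : C * a ≤ V) (h2 : 2 + 26 * |(h : ℝ)| ≤ V) :
    Amp (fun u => Hyb.ch 2 h * WW g h (a * u)) V := by
  have := WW_cont hg hh
  have hC := hg.pos
  refine ⟨by fun_prop, fun u a1 a2 => ?_, fun u u' a1 a2 a3 => ?_⟩
  · rw [norm_mul, AddChar.norm_apply, one_mul]
    refine (norm_WW hg hh _).trans (le_trans ?_ h1)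
    rw [abs_of_nonneg (by positivity)]
    exact mul_le_mul_of_nonneg_left (mul_le_of_le_one_right (by positivity) a2) hC.le
  · rw [← mul_sub, norm_mul, AddChar.norm_apply, one_mul]
    have := sub_nonneg.2 a2
    refine (WW_lip hg h ha a1 a2 a3).trans ?_
    gcongr

lemma point {g : ℝ → ℝ} {C : ℝ} (hg : Hyb.Good g C) {η A y : ℝ} (hη : 0 < η) (hA : 0 < A)
    (hy0 : 0 < y) {H : ℕ} (hH : 32 * C * A ^ 4 < H)
    (hy : ∀ h : ℤ, h ≠ 0 → |(h : ℝ)| ≤ H → ∀ X,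
      ‖Ph η (fun u => Hyb.ch 2 h * WW g h (2 * A ^ 2 * u)) (A * √y) X‖ ≤ 1 / (4 * H * A ^ 2))
    (x₀ : ℝ) :
    |QF ⌊A * √y⌋₊ (lam ⌊A * √y⌋₊ (y2 η (A * √y)))
      (lam ⌊A * √y⌋₊ (y2 η (A * √y))) (Hyb.rem g 2 1 x₀ y)| ≤ y := by
  have hC := hg.pos
  have hH0 : (0 : ℝ) < H := lt_trans (by positivity) hH
  set w : ℤ → ℝ → ℂ := fun h u => Hyb.ch 2 h * WW g h (2 * A ^ 2 * u) with hw
  have hs := Real.sqrt_pos.2 hy0
  have hz2 : (A * √y) ^ 2 = A ^ 2 * y := by rw [mul_pow, Real.sq_sqrt hy0.le]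
  have hz : 0 < A * √y := by positivity
  generalize A * √y = z at *
  set l := lam ⌊z⌋₊ (y2 η z) with hl
  have ho : ∀ d, l d ≠ 0 → Odd d := fun d => lam_odd fun r hr => (y2_ne hη hz hr).1
  have h3 : ∀ h : ℤ, ∑ p ∈ box z z, (l p.1 * l p.2 : ℝ) * Hyb.trm g 2 1 x₀ y (Nat.lcm p.1 p.2) h =
      (z : ℂ) ^ 2 * Ph η (w h) z (-(h * x₀ / 2)) := by
    intro h
    rw [Ph, mul_inv_cancel_left₀ (pow_ne_zero 2 (Complex.ofReal_ne_zero.2 hz.ne'))]
    refine sum_congr rfl fun p _ => ?_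
    by_cases c : l p.1 * l p.2 = 0
    · simp only [← hl, c, Complex.ofReal_zero, zero_mul]
    have a1 := odd_lcm (ho _ (left_ne_zero_of_mul c)) (ho _ (right_ne_zero_of_mul c))
    have a2 : (Nat.lcm p.1 p.2 : ℝ) ≠ 0 := by exact_mod_cast a1.pos.ne'
    simp only [Hyb.trm, hw, WW, hz2]
    rw [ZMod.natCast_eq_one_iff_odd.2 a1, ZMod.inv_one, mul_one, mul_one,
      show 2 * A ^ 2 * (Nat.lcm p.1 p.2 / (A ^ 2 * y)) = (y / ((2 : ℕ) * Nat.lcm p.1 p.2))⁻¹ by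
        push_cast; field_simp, inv_inv, div_inv_eq_mul, ← mul_div_assoc, neg_div, div_div]
    push_cast
    ring
  set S : ℕ → ℂ := fun D => ∑ n ∈ range H, (Hyb.trm g 2 1 x₀ y D (n + 1) +
    Hyb.trm g 2 1 x₀ y D (-(n + 1))) with hS
  have h4 : QF ⌊z⌋₊ l l (Hyb.rem g 2 1 x₀ y) =
      QF ⌊z⌋₊ l l (fun D => (Hyb.rem g 2 1 x₀ y D - S D).re) +
      (∑ n ∈ range H, ((z : ℂ) ^ 2 * Ph η (w (n + 1)) z (-(((n + 1 : ℤ) : ℝ) * x₀ / 2)) +
        (z : ℂ) ^ 2 * Ph η (w (-(n + 1))) z (-(((-(n + 1) : ℤ) : ℝ) * x₀ / 2)))).re := by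
    simp only [← h3, ← sum_add_distrib, ← mul_add]
    rw [sum_comm, Complex.re_sum, Inf.box, sum_product, QF, QF, ← sum_add_distrib]
    refine sum_congr rfl fun d _ => ?_
    rw [← sum_add_distrib]
    refine sum_congr rfl fun e _ => ?_
    rw [← mul_sum, Complex.re_ofReal_mul, Complex.sub_re, Complex.ofReal_re]
    ring
  have h5 : |QF ⌊z⌋₊ l l (fun D => (Hyb.rem g 2 1 x₀ y D - S D).re)| ≤
      2 * z * (2 * z) * (4 * C * A ^ 2 / H) := by
    refine QF_le (by positivity) (fun d hd e he a b => ?_) (y2_l1 hη hz) (y2_l1 hη hz)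
    have a1 := odd_lcm (ho _ a) (ho _ b)
    refine (Complex.abs_re_le_norm _).trans ((Hyb.rem_approx hg 2 1 x₀ hy0 a1.pos.ne'
      (Nat.coprime_two_right.2 a1) (by exact_mod_cast hH0)).trans ?_)
    calc _ ≤ 2 * (C * (z * z) / (y / (2 : ℕ))) / H := by gcongr; exact lcm_le hd he
      _ = _ := by rw [← sq, hz2]; push_cast; field_simp; norm_num
  have h6 : ∀ h : ℤ, h ≠ 0 → |(h : ℝ)| ≤ H → ∀ X,
      ‖(z : ℂ) ^ 2 * Ph η (w h) z X‖ ≤ y / (4 * H) := by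
    intro h a b X
    rw [norm_mul, norm_pow, Complex.norm_real, Real.norm_of_nonneg hz.le, hz2]
    exact (mul_le_mul_of_nonneg_left (hy h a b X) (by positivity)).trans
      (le_of_eq (by field_simp))
  have h7 : ∀ n ∈ range H, |(((n : ℤ) + 1 : ℤ) : ℝ)| ≤ H := by
    intro n hn
    rw [abs_of_nonneg (by positivity)]
    exact_mod_cast mem_range.1 hn
  rw [h4]
  refine ((abs_add_le _ _).trans (add_le_add (h5.trans ?_) ((Complex.abs_re_le_norm _).trans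
    ((norm_sum_le _ _).trans ((sum_le_card_nsmul _ _ _ fun n hn => norm_add_le_of_le
      (h6 _ (by positivity) (h7 n hn) _) (h6 _ (neg_ne_zero.2 (by positivity))
        (by rw [Int.cast_neg, abs_neg]; exact h7 n hn) _)).trans (le_of_eq ?_)))))).trans
    (add_halves y).le
  · rw [show 2 * z * (2 * z) * (4 * C * A ^ 2 / H) = z ^ 2 * (16 * C * A ^ 2) / H by ring, hz2,
      div_le_iff₀ hH0]
    nlinarith
  · rw [card_range, nsmul_eq_mul]
    field_simp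
    norm_num

end R22

theorem r22q (h : S_Ph) : S_R22 := by
  intro g C hg
  obtain ⟨n, V₀, h⟩ := h
  have hC := hg.pos
  refine ⟨8 * n + 1, |V₀| + 832 * C + 80, fun A y hA hy hn x₀ => ?_⟩
  have a0 := abs_nonneg V₀
  have a1 : 2 ≤ A := by linarith
  have a2 : 1 ≤ A := by linarith
  have a3 : 0 < A := by linarith
  have p : ∀ {i j : ℕ}, i ≤ j → A ^ i ≤ A ^ j := fun hij => pow_le_pow_right₀ a2 hij
  have b1 : (1 : ℝ) ≤ A ^ 4 := one_le_pow₀ a2
  have b2 : A ^ 5 = A * A ^ 4 := by ring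
  have b3 : (832 * C + 80) * A ^ 4 ≤ A ^ 5 := by
    rw [b2]
    exact mul_le_mul_of_nonneg_right (by linarith) (by positivity)
  have b4 := Nat.lt_floor_add_one (32 * C * A ^ 4)
  have b5 : (⌊32 * C * A ^ 4⌋₊ : ℝ) ≤ 32 * C * A ^ 4 := Nat.floor_le (by positivity)
  have b6 : 0 < C * A ^ 4 := by positivity
  have b7 : A ^ 5 ≤ A ^ 8 := p (by norm_num)
  have b8 : A ^ 2 ≤ A ^ 4 := p (by norm_num)
  have b9 : (1 : ℝ) ≤ A ^ 2 := one_le_pow₀ a2
  refine R22.point hg (by positivity) a3 hy (H := ⌊32 * C * A ^ 4⌋₊ + 1)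
    (by exact_mod_cast b4) (fun k hk hk2 X => ?_) x₀
  push_cast at hk2 ⊢
  refine (h (A ^ 8) _ _ ?_ (by positivity) ?_ (inv_anti₀ (by positivity) (p (by norm_num)))
    (inv_le_one_of_one_le₀ b9) _ (R22.amp hg hk (by linarith) ?_ ?_) X).trans ?_
  · have : A ^ 1 ≤ A ^ 8 := p (by norm_num)
    linarith [le_abs_self V₀, pow_one A]
  · rw [Real.log_mul a3.ne' (Real.sqrt_pos.2 hy).ne', Real.log_sqrt hy.le, ← pow_mul]
    have c1 := Real.log_nonneg a2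
    have c2 : A ^ (8 * n) * 2 ≤ A ^ (8 * n + 1) := by
      rw [pow_succ]
      gcongr
    linarith
  · nlinarith [mul_le_mul_of_nonneg_left b8 hC.le]
  · nlinarith
  · rw [one_div]
    refine inv_anti₀ (by positivity) ?_
    calc _ ≤ A ^ 5 * A ^ 2 := mul_le_mul_of_nonneg_right (by nlinarith) (by positivity)
      _ = A ^ 7 := by ring
      _ ≤ _ := p (by norm_num)

end Pool.Agent.P.MP_26a8c3_nt.Lg
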