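import Pool.Agent.P.MP_26a8c3_nt.Lg.Defs

/-! Removal of the primes of `P` from the first variable. -/

namespace Pool.Agent.P.MP_26a8c3_nt.Lg

open Finset MeasureTheory
open scoped ContDiff
open Pool.Agent.P.MP_a14ce1_nt
open Inf
open Hyb (ee ee_add norm_ee)

namespace Rem

/-- The common factor of all terms. -/
noncomputable def W (H : ℝ → ℝ → ℂ) (z X : ℝ) (p : ℕ × ℕ) : ℂ :=
  fo p.2 * ee (X / (p.1 * p.2)) * H (p.1 / z) (p.2 / z)

lemma norm_W {H : ℝ → ℝ → ℂ} {M : ℝ} (hM : ∀ s t, ‖H s t‖ ≤ M) (z X : ℝ) (p : ℕ × ℕ) :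
    ‖W H z X p‖ ≤ M := by
  rw [W, norm_mul, norm_mul, norm_ee, mul_one, Complex.norm_real]
  exact (mul_le_of_le_one_left (norm_nonneg _) (fo_Mf.bd _)).trans (hM _ _)

lemma e1 {H : ℝ → ℝ → ℂ} {a b : ℝ} (h : Adm H a b) {z : ℝ} (hz : 0 < z) (X : ℝ) :
    SS 1 (GG fo fo X) H z z = ∑ p ∈ box (b * z) (b * z), (fo p.1 : ℂ) * W H z X p := by
  rw [SS_eq h hz hz]
  refine sum_congr rfl fun p _ => ?_
  rw [tt, if_pos (Nat.modEq_one), GG, W]
  ring

lemma e2 {H : ℝ → ℝ → ℂ} {a b : ℝ} (h : Adm H a b) {z : ℝ} (hz : 0 < z) (X : ℝ) (u : ℕ → ℝ)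
    {g : ℕ} (hg : 0 < g) :
    SS 1 (GG u fo (X / g)) H (z / g) z =
      ∑ p ∈ box (b * z) (b * z), ((if g ∣ p.1 then u (p.1 / g) else 0 : ℝ) : ℂ) * W H z X p := by
  have hg0 : (0 : ℝ) < g := by exact_mod_cast hg
  rw [SS_eq h (div_pos hz hg0) hz,
    sum_reidx (F := fun p : ℕ × ℕ => ((if g ∣ p.1 then u (p.1 / g) else 0 : ℝ) : ℂ) * W H z X p)
      _ (box (b * (z / g)) (b * z)) (e := fun q : ℕ × ℕ => (g * q.1, q.2)) ?_ ?_]
  · refine sum_congr rfl fun q _ => ?_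
    rw [tt, if_pos (Nat.modEq_one), GG, W]
    simp only [dvd_mul_right, if_true, Nat.mul_div_cancel_left _ hg, Nat.cast_mul]
    rw [div_div_eq_mul_div, div_div, mul_comm (q.1 : ℝ) g, mul_assoc (g : ℝ)]
    ring
  · intro q q' hq
    simp only [Prod.mk.injEq] at hq
    exact Prod.ext (Nat.eq_of_mul_eq_mul_left hg hq.1) hq.2
  · intro p hp
    have h1 : g ∣ p.1 := by
      by_contra c
      simp [c] at hp
    have h2 : H (p.1 / z) (p.2 / z) ≠ 0 := right_ne_zero_of_mul (right_ne_zero_of_mul hp)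
    obtain ⟨⟨a1, a2⟩, a3, a4⟩ := h.supp _ _ h2
    have a5 := (div_pos_iff_of_pos_right hz).1 (h.a0.trans_le a1)
    have a6 := (div_pos_iff_of_pos_right hz).1 (h.a0.trans_le a3)
    have a7 := (div_le_iff₀ hz).1 a2
    have a8 := (div_le_iff₀ hz).1 a4
    refine ⟨mem_box.2 ⟨⟨by exact_mod_cast a5, a7⟩, by exact_mod_cast a6, a8⟩, ?_⟩
    obtain ⟨d, hd⟩ := h1
    refine ⟨(d, p.2), mem_box.2 ⟨⟨?_, ?_⟩, by exact_mod_cast a6, a8⟩, Prod.ext hd.symm rfl⟩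
    · rw [hd] at a5
      have : 0 < g * d := by exact_mod_cast a5
      exact Nat.pos_of_mul_pos_left this
    · rw [hd, Nat.cast_mul] at a7
      rw [← mul_div_assoc, le_div_iff₀ hg0]
      simpa [mul_comm] using a7

lemma sq_sum {P : Finset ℕ} {Q : ℕ} (hQ : Q ≠ 0) (hP : ∀ p ∈ P, Q < p) {x : ℝ} (hx : 0 ≤ x) :
    ∑ p ∈ Inf.box x x, ∑ q ∈ P, (if q ^ 2 ∣ p.1 then (1 : ℝ) else 0) ≤ x * x * (Q : ℝ)⁻¹ := by
  rw [Inf.box, sum_product, sum_comm]
  dsimp only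
  rw [sum_const (∑ d ∈ Ioc 0 ⌊x⌋₊, ∑ q ∈ P, (if q ^ 2 ∣ d then (1 : ℝ) else 0)), nsmul_eq_mul,
    sum_comm, mul_assoc]
  refine mul_le_mul (card_seg hx) ?_ (sum_nonneg fun _ _ => sum_nonneg fun _ _ => by positivity) hx
  refine (sum_le_sum fun q _ => seg_dvd hx (q ^ 2)).trans ?_
  simp only [div_eq_mul_inv, Nat.cast_pow]
  rw [← mul_sum]
  exact mul_le_mul_of_nonneg_left (sum_inv_sq_tail P hQ hP) hx

end Rem

theorem remq (h : S_U) : S_Rem := by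
  intro P Q J hQ hP H a b M hA hb hM z X hz
  obtain ⟨-, -, u3, -, -, -, u7⟩ := h P fun p hp => ⟨(hP p hp).1, (hP p hp).2.1⟩
  have hM0 : 0 ≤ M := (norm_nonneg _).trans (hM 0 0)
  have hpr : ∀ S ∈ P.powerset, 0 < pr S := fun S hS =>
    pr_pos fun p hp => (hP p (mem_powerset.1 hS hp)).1
  set T : Finset ℕ → ℂ := fun S =>
    (-8⁻¹ : ℂ) ^ S.card * SS 1 (GG (uu P) fo (X / pr S)) H (z / pr S) z with hT
  have s1 : ∑ S ∈ PJ P J, T S =
      ∑ S ∈ P.powerset, T S - ∑ S ∈ P.powerset.filter fun S => ¬ S.card ≤ J, T S := by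
    rw [PJ, ← sum_filter_add_sum_filter_not P.powerset (fun S => S.card ≤ J) T]
    ring
  have s2 : ‖∑ S ∈ P.powerset.filter fun S => ¬ S.card ≤ J, T S‖ ≤
      M * b ^ 2 * z ^ 2 * (Real.exp (rc P / 4) / 2 ^ J) := by
    have t1 := tail_c (c := 8⁻¹) (by positivity) P J
    rw [show 2 * (8⁻¹ : ℝ) * rc P = rc P / 4 by ring] at t1
    refine (norm_sum_le _ _).trans (le_trans ?_ (mul_le_mul_of_nonneg_left t1 (by positivity)))
    rw [mul_sum]
    refine sum_le_sum fun S hS => ?_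
    have hg : (0 : ℝ) < pr S := by exact_mod_cast hpr S (mem_filter.1 hS).1
    have t2 := norm_SS (k := 1) (norm_GG u3 fo_Mf.bd (X / pr S)) hA hb hM (div_pos hz hg) hz
    rw [hT, norm_mul, norm_pow, norm_neg, norm_inv, Complex.norm_ofNat]
    refine (mul_le_mul_of_nonneg_left t2 (by positivity)).trans (le_of_eq ?_)
    field_simp
  have s3 : SS 1 (GG fo fo X) H z z - ∑ S ∈ P.powerset, T S =
      ∑ p ∈ box (b * z) (b * z), ((fo p.1 - ∑ S ∈ P.powerset,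
        if pr S ∣ p.1 then (-8⁻¹ : ℝ) ^ S.card * uu P (p.1 / pr S) else 0 : ℝ) : ℂ) *
          Rem.W H z X p := by
    have t0 : ∀ S ∈ P.powerset, T S = ∑ p ∈ Inf.box (b * z) (b * z), (-8⁻¹ : ℂ) ^ S.card *
        (((if pr S ∣ p.1 then uu P (p.1 / pr S) else 0 : ℝ) : ℂ) * Rem.W H z X p) := by
      intro S hS
      rw [hT]
      beta_reduce
      rw [Rem.e2 hA hz X (uu P) (hpr S hS), mul_sum]
    rw [Rem.e1 hA hz, sum_congr rfl t0, sum_comm, ← sum_sub_distrib]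
    refine sum_congr rfl fun p _ => ?_
    push_cast
    rw [sub_mul, sum_mul]
    congr 1
    refine sum_congr rfl fun S _ => ?_
    split_ifs
    · push_cast
      ring
    · simp
  have s4 : ‖SS 1 (GG fo fo X) H z z - ∑ S ∈ P.powerset, T S‖ ≤
      M * b ^ 2 * z ^ 2 * (Q : ℝ)⁻¹ := by
    rw [s3]
    have t1 := Rem.sq_sum hQ (fun p hp => (hP p hp).2.2) (x := b * z) (by positivity)
    refine (norm_sum_le _ _).trans ((sum_le_sum fun p _ => ?_).trans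
      (le_trans (le_of_eq (sum_mul _ _ M).symm) ((mul_le_mul_of_nonneg_right t1 hM0).trans
        (le_of_eq (by ring)))))
    rw [norm_mul, Complex.norm_real]
    exact mul_le_mul (u7 p.1) (Rem.norm_W hM z X p) (norm_nonneg _)
      (sum_nonneg fun _ _ => by positivity)
  rw [s1, ← sub_add, mul_add]
  exact (norm_add_le _ _).trans (add_le_add s4 s2)

end Pool.Agent.P.MP_26a8c3_nt.Lg
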