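import Pool.Agent.P.MP_26a8c3_nt.Lg.Defs

/-! The sieve inequality with a growing level and the final bound. -/

namespace Pool.Agent.P.MP_26a8c3_nt.Lg

open Finset Filter Topology MeasureTheory
open scoped ArithmeticFunction.Moebius
open Inf

theorem siftq (h : S_R22) : S_Sift := by
  obtain ⟨g, C, hg, hg1, hg2, hI, hI1⟩ := exists_bump
  obtain ⟨n, A₀, hR⟩ := h g C hg
  have hC := hg.pos
  set K := Real.exp 8 ^ 2 * (1 + 24 * C) + 48 * Real.exp 8 * C + 1 with hK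
  have hK0 : 0 ≤ K := by positivity
  refine ⟨n + 3, max A₀ (Real.exp (40 * (27 + 8 * K))), fun A N a hA1 hAN => ?_⟩
  have hA2 := (le_max_right _ _).trans hA1
  have hA0 : 0 < A := (Real.exp_pos _).trans_le hA2
  have hL0 : 40 * (27 + 8 * K) ≤ Real.log A := (Real.le_log_iff_exp_le hA0).2 hA2
  have hA : Real.log A + 1 ≤ A := by linarith [Real.log_le_sub_one_of_pos hA0]
  obtain ⟨L, hlog⟩ : ∃ L, Real.log A = L := ⟨_, rfl⟩
  rw [hlog] at hL0 hA ⊢
  have hA3 : 1 ≤ A := by linarith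
  have p1 : A ^ n ≤ Real.log N := (pow_le_pow_right₀ hA3 (by omega)).trans hAN
  have p2 : A ^ 3 ≤ Real.log N := (pow_le_pow_right₀ hA3 (by omega)).trans hAN
  have p3 : A ^ 2 ≤ Real.log N := (pow_le_pow_right₀ hA3 (by omega)).trans hAN
  have hN : (0 : ℝ) < N := by
    rcases Nat.eq_zero_or_pos N with h0 | h0
    · rw [h0, Nat.cast_zero, Real.log_zero] at p3
      exact absurd p3 (not_le.2 (by positivity))
    · exact_mod_cast h0
  have h22 := hR A N ((le_max_left _ _).trans hA1) hN p1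
  have hN1 : A ≤ √(N : ℝ) :=
    Real.le_sqrt_of_sq_le (by linarith [Real.log_le_sub_one_of_pos hN])
  have hN2 : 4 * (L + 3) ^ 2 + 2 * L ≤ Real.log N := by
    have q1 : (L + 1) ^ 3 ≤ A ^ 3 := pow_le_pow_left₀ (by linarith) hA 3
    have q2 : 10 ≤ L := by linarith
    nlinarith [mul_nonneg (sub_nonneg.2 q2) (sq_nonneg L)]
  obtain ⟨c, hc⟩ : ∃ c, c = L / 8 - 27 - 8 * K := ⟨_, rfl⟩
  have hc1 : L / 10 ≤ c := by linarith
  have hc0 : 0 ≤ c := by linarith
  have hL : L = 8 * (|c| + 27 + 8 * K) := by rw [abs_of_nonneg hc0]; linarith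
  have hη : 0 < (A ^ 2)⁻¹ := by positivity
  have hlη : Real.log (A ^ 2)⁻¹ = -(2 * L) := by rw [Real.log_inv, Real.log_pow, hlog]; norm_num
  have hη4 : 4 * (A ^ 2)⁻¹ ≤ 1 := by
    rw [← div_eq_mul_inv, div_le_one (by positivity)]
    nlinarith
  have hs : 0 < √(N : ℝ) := by linarith
  have hw : 1 ≤ √(N : ℝ) / A := (one_le_div hA0).2 hN1
  have hz : 0 < A * √(N : ℝ) := by positivity
  have e1 : (A ^ 2)⁻¹ * (A * √(N : ℝ)) = √(N : ℝ) / A := by field_simp
  have hG : Real.log N / 4 - L / 2 ≤ G0 ⌊√(N : ℝ) / A⌋₊ := by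
    have b1 := HO_ge0 (zero_lt_one.trans_le hw)
    rw [HO_HH, Real.log_div hs.ne' hA0.ne', Real.log_sqrt hN.le, hlog] at b1
    linarith [G0_ge ⌊√(N : ℝ) / A⌋₊]
  have b2 := h1_ge hη hη4 (z := A * √(N : ℝ)) (by rw [mul_assoc, e1]; linarith)
  have b3 := h1_le hη (by linarith) hz
  have b4 := N2_le hη (by linarith) hz
  rw [Real.log_mul (by norm_num) hη.ne', hlη, show (4 : ℝ) = 2 ^ 2 by norm_num,
    Real.log_pow] at b2
  rw [hlη] at b3 b4
  push_cast at b2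
  have b5 := Real.log_two_lt_d9
  have b6 := fun t => sieve_ineq (t := t) hg hg1 hg2 hη hw
    ((div_le_self hs.le (by linarith)).trans (le_mul_of_one_le_left hs.le (by linarith))) e1
    (by rw [mul_comm, mul_div_assoc', mul_assoc, mul_div_cancel_left₀ _ hA0.ne',
      Real.mul_self_sqrt hN.le]) a
  have hl : 0 < Real.log N + L / 10 := by nlinarith [sq_nonneg (L + 3)]
  refine le_trans ?_ (div_le_div_of_nonneg_left (by positivity) hl
    (show Real.log N + L / 10 ≤ Real.log N + c by linarith))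
  generalize G0 ⌊√(N : ℝ) / A⌋₊ = G at *
  generalize ∑ r ∈ Ioc 0 ⌊A * √(N : ℝ)⌋₊, μ r * y2 (A ^ 2)⁻¹ (A * √(N : ℝ)) r = h at *
  have b7 : (L + 3) ^ 2 ≤ G := by linarith
  have hG0 : 0 < G := lt_of_lt_of_le (pow_pos (by linarith) 2) b7
  have b8 : 0 ≤ h := by linarith
  have b9 : h * h ≤ G := by nlinarith
  have c1 : h / G * G = h := div_mul_cancel₀ _ hG0.ne'
  refine fin_num (by positivity) hN.le hK0 hI hI1 c1 ?_ (by linarith)
    (by linarith) hL hG hG0 (by linarith) (b6 _ ?_ c1 (h22 a))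
  · rwa [div_mul_eq_mul_div, div_le_one hG0]
  · rw [abs_of_nonneg (by positivity), div_le_one hG0]
    nlinarith

namespace Sift

lemma last_pt {c A Y : ℝ} (hA : 1 ≤ A) (h1 : 1 ≤ Y) (h2 : |c| + 1 ≤ Real.log Y)
    (h3 : |c| + 1 + 100 * A ≤ Y ^ ((6 : ℕ) : ℝ)⁻¹) {N : ℝ} (b1 : Y ≤ N) (b2 : N ≤ Y + 1) :
    A * √N + 2 * N / (Real.log N + (c + 1)) < 2 * Y / (Real.log Y + c) := by
  have h4 := Real.rpow_inv_natCast_pow (x := Y) (n := 6) (by linarith) (by norm_num)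
  generalize Y ^ ((6 : ℕ) : ℝ)⁻¹ = s at h3 h4
  have a0 := abs_nonneg c
  have a1 := le_abs_self c
  have a2 := neg_abs_le c
  have hs : 0 < s := by linarith
  have a3 : Real.log Y ≤ 6 * s := by
    rw [← h4, Real.log_pow]
    push_cast
    linarith [Real.log_le_sub_one_of_pos hs]
  have b3 := Real.log_le_log (by linarith) b1
  have b4 : √N ≤ 2 * s ^ 3 := Real.sqrt_le_iff.2 ⟨by positivity, by nlinarith⟩
  have b5 : 2 * N / (Real.log N + (c + 1)) ≤ 2 * (Y + 1) / (Real.log Y + c + 1) :=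
    div_le_div₀ (by linarith) (by linarith) (by linarith) (by linarith)
  generalize Real.log Y = l at *
  have b6 : 1 ≤ l + c := by linarith
  have b7 : l + c + 1 ≤ 7 * s := by linarith
  generalize l + c = Λ at *
  have b8 : Λ * (Λ + 1) ≤ 49 * s ^ 2 := by nlinarith
  have b9 : 1 ≤ s ^ 3 := one_le_pow₀ (by linarith)
  have c1 : 2 * (Y + 1) / (Λ + 1) = 2 * Y / Λ - (2 * Y - 2 * Λ) / (Λ * (Λ + 1)) := by
    field_simp
    ring
  have c2 : A * (2 * s ^ 3) < (2 * Y - 2 * Λ) / (Λ * (Λ + 1)) := by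
    rw [lt_div_iff₀ (by positivity), ← h4]
    have c3 : s ≤ s ^ 5 := le_self_pow₀ (by linarith) (by norm_num)
    have c4 := mul_le_mul_of_nonneg_left b8 (show 0 ≤ A * (2 * s ^ 3) by positivity)
    have c5 := mul_le_mul_of_nonneg_right (show 100 * A ≤ s by linarith) (pow_pos hs 5).le
    have c6 := mul_le_mul_of_nonneg_right hA (pow_pos hs 5).le
    nlinarith
  nlinarith [mul_le_mul_of_nonneg_left b4 (zero_le_one.trans hA)]

lemma ev_log : ∀ᶠ Y : ℝ in atTop, 101 * Real.log Y ≤ Y ^ ((6 : ℕ) : ℝ)⁻¹ := by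
  have h := (isLittleO_log_rpow_atTop (show (0 : ℝ) < ((6 : ℕ) : ℝ)⁻¹ by norm_num)).bound
    (show (0 : ℝ) < 1 / 101 by norm_num)
  filter_upwards [h, eventually_ge_atTop 0] with Y h1 h2
  rw [Real.norm_eq_abs, Real.norm_of_nonneg (Real.rpow_nonneg h2 _)] at h1
  linarith [le_abs_self (Real.log Y)]

end Sift

theorem mainq (h : S_Sift) : S_Main := by
  obtain ⟨n, A₀, h1⟩ := h
  have hn : (0 : ℝ) < ((n + 1 : ℕ) : ℝ) := by positivity
  have t1 : Tendsto (fun Y : ℝ => Real.log Y ^ ((n + 1 : ℕ) : ℝ)⁻¹) atTop atTop :=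
    (tendsto_rpow_atTop (inv_pos.2 hn)).comp Real.tendsto_log_atTop
  obtain ⟨t₀, ht⟩ := eventually_atTop.1 (((t1.eventually_ge_atTop (max A₀ 2)).and
    ((Real.tendsto_log_atTop.comp Real.tendsto_log_atTop).eventually_ge_atTop
      (20 * ((n + 1 : ℕ) : ℝ)))).and (Sift.ev_log.and (eventually_gt_atTop 1)))
  refine ⟨(20 * ((n + 1 : ℕ) : ℝ))⁻¹, by positivity, t₀, fun k l x y hk hy => ?_⟩
  obtain ⟨⟨a1, a2⟩, a3, a4⟩ := ht _ hy
  simp only [Function.comp] at a2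
  have a5 : 0 < y / k := by linarith
  have a6 := Real.log_pos a4
  have a7 := Real.rpow_inv_natCast_pow (x := Real.log (y / k)) (n := n + 1) a6.le (by omega)
  have a8 := Real.log_rpow a6 ((n + 1 : ℕ) : ℝ)⁻¹
  generalize Real.log (y / k) ^ ((n + 1 : ℕ) : ℝ)⁻¹ = A at a1 a7 a8
  have hA2 : 2 ≤ A := (le_max_right _ _).trans a1
  have hA : 1 ≤ A := by linarith
  have a9 : A ≤ Real.log (y / k) := a7 ▸ le_self_pow₀ hA (by omega)
  obtain ⟨c, hc⟩ : ∃ c, c = (20 * ((n + 1 : ℕ) : ℝ))⁻¹ * Real.log (Real.log (y / k)) := ⟨_, rfl⟩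
  rw [← hc]
  have e1 : 1 ≤ c := by
    rw [hc, ← div_eq_inv_mul, le_div_iff₀ (by positivity)]
    linarith
  have e2 : Real.log A / 10 = 2 * c := by
    rw [a8, hc]
    field_simp
    ring
  have e3 : c ≤ Real.log (Real.log (y / k)) := by
    rw [hc]
    refine mul_le_of_le_one_left (by linarith) (inv_le_one_of_one_le₀ ?_)
    push_cast
    linarith [(Nat.cast_nonneg n : (0 : ℝ) ≤ n)]
  have e4 : |c| + 1 ≤ Real.log (y / k) := by
    rw [abs_of_nonneg (by linarith)]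
    linarith [Real.log_le_sub_one_of_pos a6]
  obtain ⟨l', S, hS, hcard⟩ := exists_fin (k := k) hk l x y
  have hk' : (0 : ℝ) < k := by exact_mod_cast hk
  have hφ : (0 : ℝ) < k.totient := by exact_mod_cast Nat.totient_pos.2 hk
  have b1 : y / k ≤ (⌊y / k⌋₊ + 1 : ℕ) := by
    push_cast
    exact (Nat.lt_floor_add_one _).le
  have b2 : ((⌊y / k⌋₊ + 1 : ℕ) : ℝ) ≤ y / k + 1 := by
    push_cast
    linarith [Nat.floor_le a5.le]
  have b4 := Real.log_le_log a5 b1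
  have f1 : ∀ a : ℕ, (cop (2 * ∏ p ∈ QQ 2 ⌊A * √((⌊y / k⌋₊ + 1 : ℕ) : ℝ)⌋₊, p) a
      (a + (⌊y / k⌋₊ + 1)) : ℝ) ≤ 2 * ((⌊y / k⌋₊ + 1 : ℕ) : ℝ) /
        (Real.log ((⌊y / k⌋₊ + 1 : ℕ) : ℝ) + (c + 1)) := fun a =>
    (h1 A _ a ((le_max_left _ _).trans a1)
      ((pow_le_pow_right₀ hA (Nat.le_succ n)).trans (a7.le.trans b4))).trans
      (div_le_div_of_nonneg_left (by positivity) (by linarith) (by linarith))
  have f2 : 2 ≤ A * √((⌊y / k⌋₊ + 1 : ℕ) : ℝ) :=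
    hA2.trans (le_mul_of_one_le_right (by linarith) (Real.one_le_sqrt.2 (by linarith)))
  have f3 := Sift.last_pt hA a4.le e4 (by linarith) b1 b2
  have b3 := gen_bound hS hk (squarefree_sift Nat.squarefree_two _) (sift_primes _ fun p _ hd =>
    (Nat.le_of_dvd two_pos hd).trans (Nat.le_floor (by exact_mod_cast f2)))
    (fun a b hab h => le_trans (Nat.cast_le.2 (card_le_card (filter_subset_filter _
      (Ioc_subset_Ioc_right (show b ≤ a + (⌊y / k⌋₊ + 1) from ?_))))) (f1 a))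
    ((Nat.cast_nonneg _).trans (f1 0))
  · rw [hcard, mul_comm (k.totient : ℝ), ← div_div, lt_div_iff₀ hφ]
    refine b3.trans_lt ((mul_lt_mul_of_pos_left ((add_le_add_left (card_seg (by linarith))
      _).trans_lt f3) hk').trans_le (le_of_eq ?_))
    field_simp
  · have c1 : (b : ℝ) < (a + (⌊y / k⌋₊ + 1) + 1 : ℕ) := by
      push_cast at b1 ⊢
      linarith
    exact Nat.lt_succ_iff.1 (Nat.cast_lt.1 c1)

end Pool.Agent.P.MP_26a8c3_nt.Lg
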