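import Pool.Agent.P.MP_26a8c3_nt.Lg.Defs

/-! The change of ratio: smoothing, bad pairs and good pairs. -/

namespace Pool.Agent.P.MP_26a8c3_nt.Lg

open Finset MeasureTheory
open scoped ContDiff
open Pool.Agent.P.MP_a14ce1_nt
open Inf
open Hyb (ee ee_add norm_ee)

namespace TV0

/-- The smoothed window. -/
noncomputable def Kt (K : ℝ → ℝ → ℂ) (τ : ℝ → ℝ) (u v : ℝ) : ℂ := ∫ w, K (u - w) v * (τ w : ℂ)

section smooth

variable {K : ℝ → ℝ → ℂ} {ρ M Λ : ℝ} {τ : ℝ → ℝ} {δ : ℝ}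

lemma int_tau (hτ : Bump τ δ) : Integrable τ :=
  hτ.sm.continuous.integrable_of_hasCompactSupport
    (HasCompactSupport.intro (isCompact_Icc (a := -δ) (b := δ)) fun x hx => by
      by_contra h0
      exact hx (abs_le.1 (hτ.supp x h0)))

lemma int_K (h : Kad K ρ M) (hτ : Bump τ δ) (u v : ℝ) :
    Integrable fun w => K (u - w) v * (τ w : ℂ) := by
  have hK : Continuous fun w => K (u - w) v := h.cont.comp (f := fun w => (u - w, v)) (by fun_prop)
  have hf := hτ.sm.continuous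
  have hf2 : HasCompactSupport fun w => (τ w : ℂ) :=
    cpt_of_abs (R := δ) fun x hx => hτ.supp x (by simpa using hx)
  exact Continuous.integrable_of_hasCompactSupport (hK.mul (by fun_prop)) hf2.mul_left

lemma norm_conv (hτ : Bump τ δ) {F : ℝ → ℂ} {m : ℝ} (hF : ∀ w, |w| ≤ δ → ‖F w‖ ≤ m) :
    ‖∫ w, F w * (τ w : ℂ)‖ ≤ m := by
  refine (norm_integral_le_of_norm_le ((int_tau hτ).const_mul m) (.of_forall fun w => ?_)).trans ?_
  · rw [norm_mul, Complex.norm_real, Real.norm_of_nonneg (hτ.nn w)]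
    by_cases hw : τ w = 0
    · simp [hw]
    · exact mul_le_mul_of_nonneg_right (hF w (hτ.supp w hw)) (hτ.nn w)
  · rw [integral_const_mul, hτ.int, mul_one]

lemma Kt_bd (h : Kad K ρ M) (hτ : Bump τ δ) (u v : ℝ) : ‖Kt K τ u v‖ ≤ M :=
  norm_conv hτ fun _ _ => h.bd _ _

lemma Kt_near (h : Kad K ρ M) (hL : ∀ u v w, |w| ≤ 1 → ‖K u v - K (u - w) v‖ ≤ Λ * |w|)
    (hτ : Bump τ δ) (hδ : δ ≤ 1) (u v : ℝ) : ‖K u v - Kt K τ u v‖ ≤ Λ * δ := by
  have hΛ : 0 ≤ Λ := by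
    have := (norm_nonneg _).trans (hL 0 0 1 (by simp))
    simpa using this
  have a1 : K u v = ∫ w, K u v * (τ w : ℂ) := by
    rw [integral_const_mul, integral_complex_ofReal, hτ.int]
    simp
  have a2 : Integrable fun w => K u v * (τ w : ℂ) := (int_tau hτ).ofReal.const_mul _
  rw [a1, Kt, ← integral_sub a2 (int_K h hτ u v)]
  simp only [← sub_mul]
  exact norm_conv hτ fun w hw => (hL u v w (hw.trans hδ)).trans (mul_le_mul_of_nonneg_left hw hΛ)

lemma Kt_supp (h : Kad K ρ M) (hτ : Bump τ δ) (hδ : δ ≤ 1) (u v : ℝ) (h0 : Kt K τ u v ≠ 0) :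
    |u| ≤ ρ + 1 ∧ |v| ≤ ρ :=
  Phi_supp (φ := fun w => (τ w : ℂ)) h
    (fun x hx => (hτ.supp x (by simpa using hx)).trans hδ) h0

lemma D_supp (h : Kad K ρ M) (hτ : Bump τ δ) (hδ : δ ≤ 1) (u v : ℝ)
    (h0 : K u v - Kt K τ u v ≠ 0) : |u| ≤ ρ + 1 ∧ |v| ≤ ρ := by
  by_cases h1 : Kt K τ u v = 0
  · rw [h1, sub_zero] at h0
    exact ⟨by linarith [(h.supp u v h0).1], (h.supp u v h0).2⟩
  · exact Kt_supp h hτ hδ u v h1

lemma Phi_eq (h : Kad K ρ M) (hτ : Bump τ δ) (c u v : ℝ) :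
    Phi K (dphi τ c) u v = Kt K τ (u + c) v - Kt K τ u v := by
  rw [Kt, Kt, ← integral_add_right_eq_self (fun w => K (u + c - w) v * (τ w : ℂ)) c,
    ← integral_sub ((int_K h hτ (u + c) v).comp_add_right c) (int_K h hτ u v), Phi]
  refine integral_congr_ae (.of_forall fun w => ?_)
  simp only [add_sub_add_right_eq_sub, dphi]
  push_cast
  ring

end smooth

lemma norm_T2 {k : ℕ} {G : ℕ → ℕ → ℂ} (hG : ∀ d e, ‖G d e‖ ≤ 1) {Ψ : ℝ → ℝ → ℂ} {M : ℝ}
    (hΨ : ∀ u v, ‖Ψ u v‖ ≤ M) (Z : ℝ) (p : ℕ × ℕ) : ‖T2 k G Ψ Z p‖ ≤ M := by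
  unfold T2
  split_ifs
  · rw [norm_mul]
    exact (mul_le_of_le_one_left (norm_nonneg _) (hG _ _)).trans (hΨ _ _)
  · rw [norm_zero]
    exact (norm_nonneg _).trans (hΨ 0 0)

lemma T2_supp {k : ℕ} {G : ℕ → ℕ → ℂ} {Pp : ℕ → Prop} (hG : Gd G Pp) {Ψ : ℝ → ℝ → ℂ} {a b : ℝ}
    (hΨ : ∀ u v, Ψ u v ≠ 0 → u ≤ a ∧ v - u ≤ b) {Z : ℝ} (hZ : 0 < Z) {p : ℕ × ℕ}
    (h : T2 k G Ψ Z p ≠ 0) : p ∈ box (Real.exp a * Z) (Real.exp b * Z) := by
  unfold T2 at h
  split_ifs at h with h1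
  swap
  · exact absurd rfl h
  have h3 : 0 < p.1 := Nat.pos_of_ne_zero fun h0 => left_ne_zero_of_mul h (h0 ▸ hG.zl _)
  have h4 : 0 < p.2 := Nat.pos_of_ne_zero fun h0 => left_ne_zero_of_mul h (h0 ▸ hG.zr _)
  have h3' : (0 : ℝ) < p.1 := by exact_mod_cast h3
  have h4' : (0 : ℝ) < p.2 := by exact_mod_cast h4
  obtain ⟨a1, a2⟩ := hΨ _ _ (right_ne_zero_of_mul h)
  have e : Real.log ((p.1 * p.2 : ℕ) / Z ^ 2) = Real.log (p.1 / Z) + Real.log (p.2 / Z) := by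
    rw [← Real.log_mul (by positivity) (by positivity)]
    push_cast
    ring_nf
  rw [e] at a2
  refine mem_box.2 ⟨⟨h3, ?_⟩, h4, ?_⟩ <;>
    rw [← div_le_iff₀ hZ, ← Real.log_le_iff_le_exp (by positivity)] <;> linarith

/-- A weighted sum of translated terms lives on a box of bounded area. -/
lemma wsum {k : ℕ} {G : ℕ → ℕ → ℂ} {Pp : ℕ → Prop} (hG : Gd G Pp) {Ψ : ℝ → ℝ → ℂ} {ρ m β : ℝ}
    (hΨ : ∀ u v, Ψ u v ≠ 0 → |u| ≤ ρ + 1 ∧ |v| ≤ ρ) (hm : ∀ u v, ‖Ψ u v‖ ≤ m) {Z : ℝ}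
    (hZ : 0 < Z) (w : ℕ × ℕ → ℂ) (hβ : 0 ≤ β)
    (hw : ∀ x y : ℝ, 0 ≤ x → 0 ≤ y → ∑ p ∈ box x y, ‖w p‖ ≤ β * (x * y)) (c : ℝ)
    (s : Finset (ℕ × ℕ)) :
    ‖∑ p ∈ s, w p * T2 k G (fun u v => Ψ (u + c) v) Z p‖ ≤
      Z ^ 2 * (Real.exp (3 * ρ + 3) * (m * β)) := by
  have hm0 : 0 ≤ m := (norm_nonneg _).trans (hm 0 0)
  set t := box (Real.exp (ρ + 1 - c) * Z) (Real.exp (2 * ρ + 1 + c) * Z) with ht
  have h1 : ∑ p ∈ s, ‖w p * T2 k G (fun u v => Ψ (u + c) v) Z p‖ ≤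
      ∑ p ∈ t, ‖w p * T2 k G (fun u v => Ψ (u + c) v) Z p‖ := by
    rw [← sum_filter_ne_zero]
    refine sum_le_sum_of_subset_of_nonneg (fun p hp => T2_supp hG (fun u v h0 => ?_) hZ
      (right_ne_zero_of_mul (norm_ne_zero_iff.1 (mem_filter.1 hp).2))) fun _ _ _ => norm_nonneg _
    obtain ⟨a1, a2⟩ := hΨ _ _ h0
    constructor <;> linarith [(abs_le.1 a1).1, (abs_le.1 a1).2, (abs_le.1 a2).2]
  refine (norm_sum_le _ _).trans (h1.trans ((sum_le_sum fun p _ => (norm_mul_le _ _).trans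
    (mul_le_mul_of_nonneg_left (norm_T2 hG.bd (fun u v => hm _ _) Z p) (norm_nonneg _))).trans ?_))
  rw [← sum_mul]
  refine (mul_le_mul_of_nonneg_right (hw _ _ (by positivity) (by positivity)) hm0).trans ?_
  have e : Real.exp (ρ + 1 - c) * Real.exp (2 * ρ + 1 + c) ≤ Real.exp (3 * ρ + 3) := by
    rw [← Real.exp_add]
    exact Real.exp_le_exp.2 (by linarith)
  calc _ = Z ^ 2 * (Real.exp (ρ + 1 - c) * Real.exp (2 * ρ + 1 + c) * (m * β)) := by ring
    _ ≤ _ := by gcongr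

lemma sq_count2 {p : ℕ} (hp : p.Prime) {x y : ℝ} (hx : 0 ≤ x) (hy : 0 ≤ y) :
    ∑ q ∈ box x y, (if p ^ 2 ∣ q.1 * q.2 then (1 : ℝ) else 0) ≤ 3 * (x * y) * ((p : ℝ) ^ 2)⁻¹ := by
  have h1 : ∀ q : ℕ × ℕ, (if p ^ 2 ∣ q.1 * q.2 then (1 : ℝ) else 0) ≤
      (if p ^ 2 ∣ q.1 then (1 : ℝ) else 0) * (if 1 ∣ q.2 then (1 : ℝ) else 0) +
      (if 1 ∣ q.1 then (1 : ℝ) else 0) * (if p ^ 2 ∣ q.2 then (1 : ℝ) else 0) +
      (if p ∣ q.1 then (1 : ℝ) else 0) * (if p ∣ q.2 then (1 : ℝ) else 0) := by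
    intro q
    simp only [one_dvd, if_true, mul_one, one_mul]
    by_cases h : p ^ 2 ∣ q.1 * q.2
    · rw [if_pos h]
      by_cases a : p ∣ q.1
      · by_cases b : p ∣ q.2
        · simp only [a, b, if_true]
          split_ifs <;> norm_num
        · have : p ^ 2 ∣ q.1 := (((Nat.Prime.coprime_iff_not_dvd hp).2 b).pow_left 2
            ).dvd_of_dvd_mul_right h
          simp only [this, if_true]
          split_ifs <;> norm_num
      · have : p ^ 2 ∣ q.2 := (((Nat.Prime.coprime_iff_not_dvd hp).2 a).pow_left 2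
          ).dvd_of_dvd_mul_left h
        simp only [this, if_true]
        split_ifs <;> norm_num
    · rw [if_neg h]
      positivity
  have h2 : ∀ a b : ℕ, ∑ q ∈ box x y, (if a ∣ q.1 then (1 : ℝ) else 0) *
      (if b ∣ q.2 then (1 : ℝ) else 0) ≤ x / a * (y / b) := by
    intro a b
    rw [Inf.box, sum_product, ← sum_mul_sum (f := fun d => if a ∣ d then (1 : ℝ) else 0)
      (g := fun d => if b ∣ d then (1 : ℝ) else 0)]
    exact mul_le_mul (seg_dvd hx a) (seg_dvd hy b) (sum_nonneg fun _ _ => by positivity)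
      (by positivity)
  refine (sum_le_sum fun q _ => h1 q).trans ?_
  rw [sum_add_distrib, sum_add_distrib]
  refine (add_le_add (add_le_add (h2 _ _) (h2 _ _)) (h2 _ _)).trans (le_of_eq ?_)
  push_cast
  ring

lemma two_om {P : Finset ℕ} (hP : ∀ p ∈ P, p.Prime) {x : ℝ} (hx : 0 ≤ x) :
    ∑ d ∈ Ioc 0 ⌊x⌋₊, (2 : ℝ) ^ (P.filter (· ∣ d)).card ≤ x * Real.exp (rc P) := by
  have h1 : ∀ d : ℕ, (2 : ℝ) ^ (P.filter (· ∣ d)).card ≤
      ∑ A ∈ P.powerset, if pr A ∣ d then (1 : ℝ) else 0 := by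
    intro d
    rw [sum_boole]
    have : (P.filter (· ∣ d)).powerset ⊆ P.powerset.filter fun A => pr A ∣ d := fun A hA => by
      have a := mem_powerset.1 hA
      exact mem_filter.2 ⟨mem_powerset.2 (a.trans (filter_subset _ _)),
        prod_primes_dvd d (fun p hp => (hP p (mem_filter.1 (a hp)).1).prime)
          fun p hp => (mem_filter.1 (a hp)).2⟩
    have a := card_le_card this
    rw [card_powerset] at a
    exact_mod_cast a
  refine (sum_le_sum fun d _ => h1 d).trans ?_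
  rw [sum_comm]
  refine (sum_le_sum fun A _ => seg_dvd hx (pr A)).trans ?_
  have a := sum_c zero_le_one P
  simp only [one_pow, one_mul] at a
  simp only [div_eq_mul_inv, ← mul_sum]
  exact mul_le_mul_of_nonneg_left a hx

/-- The indicator of the good pairs. -/
noncomputable def II (P : Finset ℕ) (J : ℕ) (p : ℕ × ℕ) : ℂ := ∑ U ∈ PJ P J, ∑ A ∈ U.powerset,
  if cond P A p.1 ∧ cond P (U \ A) p.2 then (1 : ℂ) else 0

lemma II_le {P : Finset ℕ} (hP : ∀ p ∈ P, p.Prime) (J : ℕ) (q : ℕ × ℕ) :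
    ‖1 - II P J q‖ ≤ (∑ p ∈ P, if p ^ 2 ∣ q.1 * q.2 then (1 : ℝ) else 0) +
      2 ^ (P.filter (· ∣ q.1)).card * 2 ^ (P.filter (· ∣ q.2)).card / 2 ^ J := by
  have h1 : ∀ U ⊆ P, ∀ A ∈ U.powerset, cond P A q.1 ∧ cond P (U \ A) q.2 →
      U = P.filter (· ∣ q.1) ∪ P.filter (· ∣ q.2) := by
    intro U hU A hA h
    have a1 := cond_eq hP ((mem_powerset.1 hA).trans hU) h.1
    have a2 := cond_eq hP (sdiff_subset.trans hU) h.2
    rw [← union_sdiff_of_subset (mem_powerset.1 hA), a2, a1]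
  have h0 : (0 : ℝ) ≤ ∑ p ∈ P, if p ^ 2 ∣ q.1 * q.2 then (1 : ℝ) else 0 :=
    sum_nonneg fun _ _ => by positivity
  by_cases h : (P.filter (· ∣ q.1) ∪ P.filter (· ∣ q.2)).card ≤ J
  · rw [II, PJ, sum_subset (filter_subset _ _) fun U hU hn => sum_eq_zero fun A hA =>
      if_neg fun hc => hn (mem_filter.2 ⟨hU, (h1 U (mem_powerset.1 hU) A hA hc) ▸ h⟩)]
    exact (ind_le hP q.1 q.2).trans (le_add_of_nonneg_right (by positivity))
  · rw [II, sum_eq_zero fun U hU => sum_eq_zero fun A hA => if_neg fun hc =>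
      h ((h1 U (mem_PJ.1 hU).1 A hA hc) ▸ (mem_PJ.1 hU).2), sub_zero, norm_one]
    refine le_add_of_nonneg_of_le h0 ?_
    rw [le_div_iff₀ (by positivity), one_mul, ← pow_add]
    exact pow_le_pow_right₀ one_le_two ((not_le.1 h).le.trans (card_union_le _ _))

lemma bad_sum {P : Finset ℕ} {Q : ℕ} (hQ : Q ≠ 0) (hP : ∀ p ∈ P, p.Prime ∧ Q < p) (J : ℕ)
    (x y : ℝ) (hx : 0 ≤ x) (hy : 0 ≤ y) : ∑ q ∈ box x y, ‖1 - II P J q‖ ≤
      (3 / Q + Real.exp (2 * rc P) / 2 ^ J) * (x * y) := by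
  have hP1 : ∀ p ∈ P, p.Prime := fun p hp => (hP p hp).1
  refine (sum_le_sum fun q _ => II_le hP1 J q).trans ?_
  rw [sum_add_distrib, add_mul, sum_comm, ← sum_div]
  refine add_le_add ((sum_le_sum fun p hp => sq_count2 (hP1 p hp) hx hy).trans ?_) ?_
  · rw [← mul_sum]
    refine (mul_le_mul_of_nonneg_left (sum_inv_sq_tail _ hQ fun p hp => (hP p hp).2)
      (by positivity)).trans (le_of_eq (by ring))
  · rw [Inf.box, sum_product, ← sum_mul_sum (f := fun d => (2 : ℝ) ^ (P.filter (· ∣ d)).card)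
      (g := fun d => (2 : ℝ) ^ (P.filter (· ∣ d)).card), div_mul_eq_mul_div]
    refine div_le_div_of_nonneg_right ((mul_le_mul (two_om hP1 hx) (two_om hP1 hy)
      (sum_nonneg fun _ _ => by positivity) (by positivity)).trans (le_of_eq ?_)) (by positivity)
    rw [two_mul, Real.exp_add]
    ring

end TV0

open TV0 in
theorem tv0 (hmu : S_MU) : S_TV0 := by
  intro k _ K ρ M Λ h hL τ δ c j hτ hδ hj P Q J hQ hP G hG C y₀ Z hC hcnt hZ hy
  set B := Real.exp (2 * ρ + (1 + |c|)) with hB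
  have hP1 : ∀ p ∈ P, p.Prime := fun p hp => (hP p hp).1
  have hM : 0 ≤ M := (norm_nonneg _).trans (h.bd 0 0)
  have e1 : ∀ p, T2 k G (fun u v => K (u + c) v - K u v) Z p =
      (1 * T2 k G (fun u v => K (u + c) v - Kt K τ (u + c) v) Z p -
        1 * T2 k G (fun u v => K (u + 0) v - Kt K τ (u + 0) v) Z p) +
      ((1 - II P J p) * T2 k G (fun u v => Kt K τ (u + c) v) Z p -
        (1 - II P J p) * T2 k G (fun u v => Kt K τ (u + 0) v) Z p) +
      II P J p * T2 k G (Phi K (dphi τ c)) Z p := by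
    intro p
    unfold T2
    simp only [Phi_eq h hτ, add_zero]
    split_ifs <;> ring
  simp only [e1, sum_add_distrib, sum_sub_distrib]
  have b1 := fun c' => wsum (k := k) hG (D_supp h hτ hδ) (Kt_near h hL hτ hδ) hZ (fun _ => 1)
    zero_le_one (fun x y hx hy => by simpa using card_box hx hy) c' (box (B * Z) (B * Z))
  have b2 := fun c' => wsum (k := k) hG (Kt_supp h hτ hδ) (Kt_bd h hτ) hZ
    (fun p => 1 - II P J p) (by positivity)
    (bad_sum hQ (fun p hp => ⟨hP1 p hp, (hP p hp).2.2⟩) J) c' (box (B * Z) (B * Z))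
  have b3 : ‖∑ p ∈ box (B * Z) (B * Z), II P J p * T2 k G (Phi K (dphi τ c)) Z p‖ ≤
      Z ^ 2 * (C ^ 2 * M * Real.exp (3 * ρ) *
        ∑ χ : DirichletCharacter ℂ k, DD χ (dphi τ c) P) := by
    simp only [II, sum_mul, ite_mul, one_mul, zero_mul]
    rw [sum_comm]
    refine (norm_sum_le _ _).trans ((sum_le_sum fun U hU => (le_of_eq ?_).trans
      (hmu k K ρ M h _ _ j hj P U (fun p hp => ⟨hP1 p hp, (hP p hp).2.1⟩) (mem_PJ.1 hU).1 G hG C y₀
        Z hC hcnt hZ (hy U hU))).trans ?_)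
    · have hUP := (mem_PJ.1 hU).1
      rw [sum_comm]
      congr 1
      refine sum_congr rfl fun A hA => ?_
      have hA0 := pr_pos fun p hp => hP1 p (hUP (mem_powerset.1 hA hp))
      have hA1 : 0 < pr (U \ A) := pr_pos fun p hp => hP1 p (hUP (sdiff_subset hp))
      rw [sum_reidx _ (box (B * Z) (B * Z)) (e := fun q => (pr A * q.1, pr (U \ A) * q.2))]
      · refine sum_congr rfl fun q _ => if_congr ?_ rfl rfl
        simp only [Inf.cond, dvd_mul_right, true_and, Nat.mul_div_cancel_left _ hA0,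
          Nat.mul_div_cancel_left _ hA1]
      · intro q q' hq
        simp only [Prod.mk.injEq] at hq
        exact Prod.ext (Nat.eq_of_mul_eq_mul_left hA0 hq.1) (Nat.eq_of_mul_eq_mul_left hA1 hq.2)
      · intro p hp
        split_ifs at hp with hc
        swap
        · exact absurd rfl hp
        have a1 : p ∈ box (B * Z) (B * Z) := T2_supp hG (fun u v h0 => by
          obtain ⟨a1, a2⟩ := Phi_supp h hj.supp h0
          constructor <;>
            linarith [(abs_le.1 a1).1, (abs_le.1 a1).2, (abs_le.1 a2).2, h.r0]) hZ hp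
        obtain ⟨⟨a2, a3⟩, a4, a5⟩ := mem_box.1 a1
        refine ⟨a1, (p.1 / pr A, p.2 / pr (U \ A)), mem_box.2 ⟨⟨Nat.div_pos
          (Nat.le_of_dvd a2 hc.1.1) hA0, le_trans ?_ a3⟩, Nat.div_pos (Nat.le_of_dvd a4 hc.2.1) hA1,
          le_trans ?_ a5⟩, Prod.ext (Nat.mul_div_cancel' hc.1.1) (Nat.mul_div_cancel' hc.2.1)⟩
        · exact_mod_cast Nat.div_le_self _ _
        · exact_mod_cast Nat.div_le_self _ _
    · refine (sum_le_sum_of_subset_of_nonneg (filter_subset (fun S : Finset ℕ => S.card ≤ J) _)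
        fun U _ _ => ?_).trans (le_of_eq ?_)
      · have : 0 ≤ ∑ χ : DirichletCharacter ℂ k, ∫ w, ‖FF χ (dphi τ c) U w‖ :=
          sum_nonneg fun _ _ => integral_nonneg fun _ => norm_nonneg _
        positivity
      · simp only [DD, mul_sum]
        rw [sum_comm]
        exact sum_congr rfl fun _ _ => sum_congr rfl fun _ _ => by ring
  refine norm_add₃_le.trans ((add_le_add (add_le_add ((norm_sub_le _ _).trans
    (add_le_add (b1 c) (b1 0))) ((norm_sub_le _ _).trans (add_le_add (b2 c) (b2 0)))) b3).trans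
    (le_of_eq (by ring)))

end Pool.Agent.P.MP_26a8c3_nt.Lg
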