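import Pool.Agent.P.MP_26a8c3_nt.Lg.Defs

/-! Logarithmic coordinates and the Lipschitz bound. -/

namespace Pool.Agent.P.MP_26a8c3_nt.Lg

open Finset MeasureTheory
open scoped ContDiff
open Pool.Agent.P.MP_a14ce1_nt
open Inf
open Hyb (ee ee_add norm_ee)

namespace TV1

lemma T2_supp {k : ℕ} {G : ℕ → ℕ → ℂ} (hl : ∀ e, G 0 e = 0) (hr : ∀ d, G d 0 = 0)
    {Ψ : ℝ → ℝ → ℂ} {ρ R : ℝ} (hρ : 0 ≤ ρ)
    (hΨ : ∀ u v, Ψ u v ≠ 0 → |u| ≤ ρ + R ∧ |v| ≤ ρ) {Z : ℝ} (hZ : 0 < Z) {p : ℕ × ℕ}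
    (h : T2 k G Ψ Z p ≠ 0) :
    p ∈ box (Real.exp (2 * ρ + R) * Z) (Real.exp (2 * ρ + R) * Z) := by
  unfold T2 at h
  split_ifs at h with h1
  swap
  · exact absurd rfl h
  have h3 : 0 < p.1 := Nat.pos_of_ne_zero fun h0 => left_ne_zero_of_mul h (h0 ▸ hl _)
  have h4 : 0 < p.2 := Nat.pos_of_ne_zero fun h0 => left_ne_zero_of_mul h (h0 ▸ hr _)
  have h3' : (0 : ℝ) < p.1 := by exact_mod_cast h3
  have h4' : (0 : ℝ) < p.2 := by exact_mod_cast h4
  obtain ⟨a1, a2⟩ := hΨ _ _ (right_ne_zero_of_mul h)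
  have e : Real.log ((p.1 * p.2 : ℕ) / Z ^ 2) = Real.log (p.1 / Z) + Real.log (p.2 / Z) := by
    rw [← Real.log_mul (by positivity) (by positivity)]
    push_cast
    ring_nf
  rw [e] at a2
  refine mem_box.2 ⟨⟨h3, ?_⟩, h4, ?_⟩ <;>
    rw [← div_le_iff₀ hZ, ← Real.log_le_iff_le_exp (by positivity)] <;>
    linarith [(abs_le.1 a1).1, (abs_le.1 a1).2, (abs_le.1 a2).2]

lemma kad {H : ℝ → ℝ → ℂ} {W : ℝ} (hW : 1 ≤ W) (h : Win H W) :
    Kad (KH H) (2 * Real.log W) W := by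
  have hr0 : 0 ≤ Real.log W := Real.log_nonneg hW
  have h1 : ∀ u, W⁻¹ ≤ Real.exp u ∧ Real.exp u ≤ W → |u| ≤ Real.log W := fun u hu => by
    have a1 := Real.log_le_log (by positivity) hu.1
    have a2 := Real.log_le_log (Real.exp_pos _) hu.2
    rw [Real.log_exp] at a1 a2
    rw [Real.log_inv] at a1
    exact abs_le.2 ⟨a1, a2⟩
  refine ⟨h.cont.comp (f := fun p : ℝ × ℝ => (Real.exp p.1, Real.exp (p.2 - p.1)))
    (by fun_prop), fun u v h0 => ?_, fun u v => h.bd _ _, by positivity⟩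
  have a1 := h1 _ (h.supp _ _ h0).1
  have a2 := h1 _ (h.supp _ _ h0).2
  have a3 := abs_add_le (v - u) u
  rw [sub_add_cancel] at a3
  constructor <;> linarith

lemma exp_step {W a w : ℝ} (ha : Real.exp a ≤ W) (hw : |w| ≤ 1) :
    |Real.exp a - Real.exp (a + w)| ≤ W * (2 * |w|) := by
  have e : Real.exp a - Real.exp (a + w) = -(Real.exp a * (Real.exp w - 1)) := by
    rw [Real.exp_add]; ring
  rw [e, abs_neg, abs_mul, abs_of_pos (Real.exp_pos a)]
  exact mul_le_mul ha (Real.abs_exp_sub_one_le hw) (abs_nonneg _)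
    ((Real.exp_pos a).le.trans ha)

lemma lip0 {H : ℝ → ℝ → ℂ} {W : ℝ} (hW : 1 ≤ W) (h : Win H W) {u v w : ℝ} (hw : |w| ≤ 1)
    (h0 : KH H u v ≠ 0) : ‖KH H u v - KH H (u - w) v‖ ≤ 4 * W ^ 2 * |w| := by
  obtain ⟨⟨-, a1⟩, -, a2⟩ := h.supp _ _ h0
  have b1 := exp_step a1 (w := -w) (by rwa [abs_neg])
  have b2 := exp_step a2 hw
  rw [abs_neg, ← sub_eq_add_neg] at b1
  have e : v - u + w = v - (u - w) := by ring
  rw [e] at b2
  refine (h.lip _ _ _ _).trans ?_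
  calc _ ≤ W * (W * (2 * |w|) + W * (2 * |w|)) :=
        mul_le_mul_of_nonneg_left (add_le_add b1 b2) (by linarith)
    _ = _ := by ring

lemma lip {H : ℝ → ℝ → ℂ} {W : ℝ} (hW : 1 ≤ W) (h : Win H W) (u v w : ℝ) (hw : |w| ≤ 1) :
    ‖KH H u v - KH H (u - w) v‖ ≤ 4 * W ^ 2 * |w| := by
  by_cases h0 : KH H u v = 0
  · by_cases h1 : KH H (u - w) v = 0
    · rw [h0, h1, sub_zero, norm_zero]
      positivity
    · have := lip0 hW h (w := -w) (by rwa [abs_neg]) h1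
      rw [abs_neg, sub_neg_eq_add, sub_add_cancel] at this
      rwa [norm_sub_rev]
  · exact lip0 hW h hw h0

lemma e1 {H : ℝ → ℝ → ℂ} {W : ℝ} (hW : 1 ≤ W) (h : Win H W) {k : ℕ} {G : ℕ → ℕ → ℂ}
    (hl : ∀ e, G 0 e = 0) (hr : ∀ d, G d 0 = 0) {Z R m : ℝ} (hZ : 0 < Z) (hm : 0 < m)
    (hml : |Real.log m| ≤ R) :
    SS k G H (Z / m) (Z * m) =
      ∑ p ∈ box (Real.exp (2 * (2 * Real.log W) + R) * Z)
        (Real.exp (2 * (2 * Real.log W) + R) * Z),
        T2 k G (fun u v => KH H (u + Real.log m) v) Z p := by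
  have hKad := kad hW h
  rw [SS, ← tsum_eq_sum (L := SummationFilter.unconditional _) fun p hp => ?_]
  · refine tsum_congr fun p => if_congr Iff.rfl ?_ rfl
    by_cases h0 : p.1 = 0
    · rw [h0, hl, zero_mul, zero_mul]
    by_cases h0' : p.2 = 0
    · rw [h0', hr, zero_mul, zero_mul]
    have h3 : (0 : ℝ) < p.1 := by exact_mod_cast Nat.pos_of_ne_zero h0
    have h4 : (0 : ℝ) < p.2 := by exact_mod_cast Nat.pos_of_ne_zero h0'
    simp only [KH]
    rw [Real.exp_sub, Real.exp_add, Real.exp_log (by positivity), Real.exp_log hm,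
      Real.exp_log (by push_cast; positivity)]
    congr 2
    · field_simp
    · push_cast
      field_simp
  · by_contra h0
    refine hp (T2_supp hl hr hKad.r0 (fun u v huv => ?_) hZ h0)
    have a1 := hKad.supp _ _ huv
    have a2 := abs_sub (u + Real.log m) (Real.log m)
    rw [add_sub_cancel_right] at a2
    exact ⟨by linarith [a1.1], a1.2⟩

end TV1

theorem tv1 : S_TV1 := by
  intro H W hW h
  refine ⟨TV1.kad hW h, TV1.lip hW h, fun k G hl hr Z l hZ hl0 => ?_⟩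
  have e2 := TV1.e1 hW h (k := k) hl hr (R := 1 + |Real.log l|) hZ one_pos
    (by rw [Real.log_one, abs_zero]; positivity)
  simp only [mul_one, div_one, Real.log_one, add_zero] at e2
  rw [TV1.e1 hW h hl hr (R := 1 + |Real.log l|) hZ hl0 (by linarith), e2, ← sum_sub_distrib]
  refine sum_congr rfl fun p _ => ?_
  unfold T2
  split_ifs <;> ring

end Pool.Agent.P.MP_26a8c3_nt.Lg
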