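import Pool.Agent.P.MP_26a8c3_nt.Lg.Defs

/-! Numerics for the change of ratio. -/

namespace Pool.Agent.P.MP_26a8c3_nt.Lg

open Finset MeasureTheory
open scoped ContDiff
open Pool.Agent.P.MP_a14ce1_nt
open Inf
open Hyb (ee ee_add norm_ee)

namespace TVP

lemma card_le (k : ℕ) [NeZero k] : (Fintype.card (DirichletCharacter ℂ k) : ℝ) ≤ k := by
  rw [← Nat.card_eq_fintype_card, DirichletCharacter.card_eq_totient_of_hasEnoughRootsOfUnity]
  exact_mod_cast Nat.totient_le k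

lemma exp_log_mul {W : ℝ} (hW : 0 < W) (n : ℕ) : Real.exp (n * Real.log W) = W ^ n := by
  rw [Real.exp_nat_mul, Real.exp_log hW]

lemma exp_three : Real.exp 3 ≤ 27 := by
  have h : Real.exp 3 = Real.exp 1 ^ 3 := by rw [← Real.exp_nat_mul]; norm_num
  have h1 := Real.exp_one_lt_d9
  have h0 := Real.exp_pos 1
  rw [h]
  calc _ ≤ (3 : ℝ) ^ 3 := by gcongr; linarith
    _ = 27 := by norm_num

lemma t1 {W : ℝ} (hW : 1000 ≤ W) :
    2 * (27 * W ^ 6) * (4 * W ^ 2 * (W ^ 10)⁻¹) ≤ 1 / (4 * W) := by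
  have h0 : 0 < W := by linarith
  rw [le_div_iff₀ (by positivity)]
  have : 2 * (27 * W ^ 6) * (4 * W ^ 2 * (W ^ 10)⁻¹) * (4 * W) = 864 / W := by
    field_simp; ring
  rw [this, div_le_one h0]
  linarith

lemma t2 {W Q : ℝ} (hW : 1000000000 ≤ W) (hQ : Real.exp W - 1 ≤ Q) :
    2 * (27 * W ^ 6) * (W * (3 / Q)) ≤ 1 / (4 * W) := by
  have h0 : 0 < W := by linarith
  have h1 := Real.pow_div_factorial_le_exp W h0.le 9
  have h2 := Real.add_one_le_exp W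
  have h3 : (Nat.factorial 9 : ℝ) = 362880 := by norm_num [Nat.factorial]
  rw [h3] at h1
  have h4 : 0 < Q := by linarith
  have h5 : 0 < W ^ 8 := by positivity
  have h6 : W ^ 9 = W * W ^ 8 := by ring
  have h7 : 648 * W ^ 8 ≤ Q := by nlinarith
  rw [le_div_iff₀ (by positivity)]
  have : 2 * (27 * W ^ 6) * (W * (3 / Q)) * (4 * W) = 648 * W ^ 8 / Q := by
    field_simp; ring
  rw [this, div_le_one h4]
  exact h7

lemma t3 {W E x : ℝ} (h0 : 0 < W) (hW : 216 * E ≤ W) (hx : x ≤ E / W ^ 9) :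
    2 * (27 * W ^ 6) * (W * x) ≤ 1 / (4 * W) := by
  calc _ ≤ 2 * (27 * W ^ 6) * (W * (E / W ^ 9)) := by gcongr
    _ = 216 * E / W * (1 / (4 * W)) := by field_simp; ring
    _ ≤ 1 * (1 / (4 * W)) := by gcongr; rwa [div_le_one h0]
    _ = _ := one_mul _

lemma t4 {W A E x : ℝ} (h1 : 1 ≤ W) (hA : 0 ≤ A) (hW : 4 * (A * E) ≤ W)
    (hx : x ≤ W * (E * W ^ 58 / W ^ 100)) : A * W * W ^ 6 * x ≤ 1 / (4 * W) := by
  have h0 : 0 < W := by linarith
  have h2 : W ≤ W ^ 33 := le_self_pow₀ h1 (by norm_num)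
  calc _ ≤ A * W * W ^ 6 * (W * (E * W ^ 58 / W ^ 100)) := by gcongr
    _ = 4 * (A * E) / W ^ 33 * (1 / (4 * W)) := by field_simp
    _ ≤ 1 * (1 / (4 * W)) := by gcongr; rw [div_le_one (by positivity)]; linarith
    _ = _ := one_mul _

lemma tail (L : ℝ) : Real.exp (2 * L) / 2 ^ ⌈6 * L⌉₊ ≤ Real.exp (-(2 * L)) := by
  have h1 : 6 * L ≤ (⌈6 * L⌉₊ : ℝ) := Nat.le_ceil _
  have h2 := Real.log_two_gt_d9
  rw [← exp_log_mul two_pos, ← Real.exp_sub]
  exact Real.exp_le_exp.2 (by nlinarith)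

lemma dd {W C B I F c k : ℝ} (h1 : 1 ≤ W) (hC : 0 ≤ C) (hB : 0 ≤ B) (hF : F ≤ 2) (hc : |c| ≤ W)
    (hk0 : 0 ≤ k) (hk : k ≤ W) (hI : I ≤ B * c ^ 2 / ((W ^ 10)⁻¹) ^ 5) :
    2 * F + 1 + Real.exp 1 * ((1 + 2 * (1 + |c|)) * (6 * (2 + 4 * k)) ^ 2 * I) *
      (4 * (C * W)) ^ 3 * (6 * 100 ^ 3) ≤
      (5 + 3 * (5 * 36 ^ 2 * B) * (4 * C) ^ 3 * (6 * 100 ^ 3)) * W ^ 58 := by
  have h0 : 0 < W := by linarith
  have a0 := abs_nonneg c
  have a1 : c ^ 2 ≤ W ^ 2 := by rw [← sq_abs]; gcongr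
  have a2 : I ≤ B * W ^ 52 := by
    refine hI.trans ?_
    calc _ ≤ B * W ^ 2 / ((W ^ 10)⁻¹) ^ 5 := by gcongr
      _ = _ := by field_simp
  have a3 : Real.exp 1 ≤ 3 := by linarith [Real.exp_one_lt_d9]
  have a4 : 1 ≤ W ^ 58 := one_le_pow₀ h1
  have a5 : (1 + 2 * (1 + |c|)) * (6 * (2 + 4 * k)) ^ 2 * I ≤
      (5 * W) * (36 * W) ^ 2 * (B * W ^ 52) := by
    calc _ ≤ (1 + 2 * (1 + |c|)) * (6 * (2 + 4 * k)) ^ 2 * (B * W ^ 52) := by gcongr
      _ ≤ _ := by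
          have b1 : 1 + 2 * (1 + |c|) ≤ 5 * W := by linarith
          have b2 : 6 * (2 + 4 * k) ≤ 36 * W := by linarith
          gcongr
  have a6 : Real.exp 1 * ((1 + 2 * (1 + |c|)) * (6 * (2 + 4 * k)) ^ 2 * I) ≤
      3 * ((5 * W) * (36 * W) ^ 2 * (B * W ^ 52)) := by
    calc _ ≤ Real.exp 1 * ((5 * W) * (36 * W) ^ 2 * (B * W ^ 52)) := by gcongr
      _ ≤ _ := by gcongr
  calc _ ≤ 5 * W ^ 58 + 3 * ((5 * W) * (36 * W) ^ 2 * (B * W ^ 52)) *
        (4 * (C * W)) ^ 3 * (6 * 100 ^ 3) := by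
        refine add_le_add (by linarith) ?_
        gcongr
    _ = _ := by ring

lemma pr_le {U : Finset ℕ} {y : ℝ} (hy : 0 ≤ y) {J : ℕ} (hU : ∀ p ∈ U, (p : ℝ) ≤ Real.exp y)
    (hJ : U.card ≤ J) : (pr U : ℝ) ≤ Real.exp (J * y) := by
  calc (pr U : ℝ) = ∏ p ∈ U, (p : ℝ) := by rw [pr, Nat.cast_prod]
    _ ≤ ∏ _p ∈ U, Real.exp y := prod_le_prod (fun _ _ => Nat.cast_nonneg _) hU
    _ = Real.exp (U.card * y) := by rw [prod_const, Real.exp_nat_mul]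
    _ ≤ _ := Real.exp_le_exp.2 (by gcongr)

lemma main (h0 : S_TV0) (h1 : S_TV1) (hd : S_DD) (hb : S_Bump) (hs : S_SV) (m : ℕ)
    (hm : m = 10000) : S_TVP := by
  obtain ⟨B, hB, hb⟩ := hb
  obtain ⟨Cs, hCs, hs⟩ := hs
  obtain ⟨C, hC, hme⟩ := mertens
  have hm' : (m : ℝ) = 10000 := by rw [hm]; norm_num
  set E := Real.exp C with hE
  have hE1 : C + 1 ≤ E := Real.add_one_le_exp C
  set K := 5 + 3 * (5 * 36 ^ 2 * B) * (4 * E) ^ 3 * (6 * 100 ^ 3) with hK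
  have hK0 : 0 ≤ K := by positivity
  refine ⟨m + 1 + 2, 1000000000 + 6 * C + 216 * (E * E) + 4 * (Cs ^ 2 * (K * E)) +
    Real.exp (C + 1), fun W Z hW hZ hn k hk hkW H hH G hG l hl hlW => ?_⟩
  have p1 : 0 ≤ E * E := by positivity
  have p2 : 0 ≤ Cs ^ 2 * (K * E) := by positivity
  have p3 := Real.exp_pos (C + 1)
  have w1 : 1000000000 ≤ W := by linarith
  have w0 : 0 < W := by linarith
  have w2 : 1 ≤ W := by linarith
  have w3 : C + 1 ≤ Real.log W := by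
    rw [Real.le_log_iff_exp_le w0]; linarith
  have w4 : Real.log W ≤ W := by linarith [Real.log_le_sub_one_of_pos w0]
  have : NeZero k := ⟨by omega⟩
  set y := W ^ (m + 1) with hy
  have y1 : W ≤ y := le_self_pow₀ w2 (by omega)
  have e1 := Real.add_one_le_exp W
  set P := Ch.pr (Real.exp W) (Real.exp y) with hP
  have hL := hme (Real.exp W) (Real.exp y) (by linarith) (Real.exp_le_exp.2 y1)
  have e2 : Real.log (Real.log (Real.exp y) / Real.log (Real.exp W)) = m * Real.log W := by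
    rw [Real.log_exp, Real.log_exp, hy, pow_succ, mul_div_cancel_right₀ _ w0.ne', Real.log_pow]
  rw [e2, ← hP, abs_le] at hL
  set L := rc P with hLd
  have l1 : 10000 * Real.log W - C ≤ L := by rw [← hm']; linarith [hL.1]
  have l2 : L ≤ 10000 * W + C := by
    have := hL.2
    rw [hm'] at this
    linarith
  have l3 : 1 ≤ L := by linarith
  have mem : ∀ p ∈ P, p.Prime ∧ Real.exp W < p ∧ (p : ℝ) ≤ Real.exp y := fun p hp =>
    (mem_pr (Real.exp_pos W).le).1 hp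
  have d0 : 0 < (W ^ 10)⁻¹ := by positivity
  have d1 : (W ^ 10)⁻¹ ≤ 1 := inv_le_one_of_one_le₀ (one_le_pow₀ w2)
  obtain ⟨τ, hτ, hj⟩ := hb _ d0 d1
  obtain ⟨j, j1, j2, j3⟩ := hj (Real.log l)
  obtain ⟨k1, k2, k3⟩ := h1 H W w2 hH
  rw [k3 k G hG.zl hG.zr Z l hZ hl]
  have q1 : Real.exp W - 1 ≤ (⌊Real.exp W⌋₊ : ℝ) := (Nat.sub_one_lt_floor _).le
  have q0 : ⌊Real.exp W⌋₊ ≠ 0 := by
    intro h
    rw [h, Nat.cast_zero] at q1
    linarith
  have hJ : (⌈6 * L⌉₊ : ℝ) ≤ 6 * L + 1 := (Nat.ceil_lt_add_one (by linarith)).le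
  refine (h0 k (KH H) _ W (4 * W ^ 2) k1 k2 τ _ (Real.log l) j hτ d1 j1 P ⌊Real.exp W⌋₊ ⌈6 * L⌉₊ q0
    (fun p hp => ⟨(mem p hp).1, ?_, (Nat.floor_lt (Real.exp_pos W).le).2 (mem p hp).2.1⟩) G
    ⟨hG.bd, hG.zl, hG.zr, fun p hp => hG.inv p ⟨(mem p hp).1, (mem p hp).2.1⟩⟩ Cs _ Z (by linarith)
    (hs P ⌊Real.exp y⌋₊ fun p hp => ⟨(mem p hp).1, Nat.le_floor (mem p hp).2.2⟩) hZ
    fun U hU => ?_).trans ?_
  · have : k < p := by
      have : (k : ℝ) < p := by linarith [(mem p hp).2.1]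
      exact_mod_cast this
    exact (Nat.coprime_of_lt_prime (by omega) this (mem p hp).1)
  · obtain ⟨u1, u2⟩ := mem_PJ.1 hU
    have a1 := pr_le (by linarith : 0 ≤ y) (fun p hp => (mem p (u1 hp)).2.2) u2
    have a2 : (⌊Real.exp y⌋₊ : ℝ) ≤ Real.exp y := Nat.floor_le (Real.exp_pos y).le
    have a3 : W ^ (m + 1 + 2) = W * W * y := by rw [hy]; ring
    have a4 : (⌈6 * L⌉₊ : ℝ) + 16 ≤ W * W := by nlinarith
    calc _ ≤ Real.exp y ^ 10 * (Real.exp (⌈6 * L⌉₊ * y) *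
          Real.exp (2 * (2 * Real.log W) + (1 + |Real.log l|))) := by gcongr
      _ = Real.exp (10 * y + (⌈6 * L⌉₊ * y + (2 * (2 * Real.log W) + (1 + |Real.log l|)))) := by
          rw [Real.exp_add (10 * y), Real.exp_add (_ * y), ← Real.exp_nat_mul]
          norm_num
      _ ≤ Real.exp (Real.log Z) := by
          refine Real.exp_le_exp.2 (le_trans ?_ hn)
          rw [a3]
          have := mul_le_mul_of_nonneg_right a4 (by linarith : 0 ≤ y)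
          linarith
      _ = Z := Real.exp_log hZ
  have x6 : Real.exp (3 * (2 * Real.log W)) = W ^ 6 := by
    rw [← exp_log_mul w0]; congr 1; push_cast; ring
  have x7 : Real.exp (3 * (2 * Real.log W) + 3) ≤ 27 * W ^ 6 := by
    rw [Real.exp_add, x6, mul_comm]
    gcongr
    exact exp_three
  have x8 : Real.exp (2 * L) / 2 ^ ⌈6 * L⌉₊ ≤ E * E / W ^ 9 := by
    refine (tail L).trans ?_
    rw [← exp_log_mul w0, hE, ← Real.exp_add, ← Real.exp_sub]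
    refine Real.exp_le_exp.2 ?_
    push_cast
    linarith
  have x9 : ∀ χ : DirichletCharacter ℂ k, DD χ (dphi τ (Real.log l)) P ≤
      K * E * W ^ 58 / W ^ 100 := by
    intro χ
    refine (hd k hk χ _ _ j j1 (E * W) (by nlinarith) P y (fun p hp => (mem p hp).1) l3
      (by linarith) (fun p hp => ?_) ?_).trans ?_
    · rw [Real.log_le_iff_le_exp (by exact_mod_cast (mem p hp).1.pos)]
      exact (mem p hp).2.2
    · have : W ^ m ≤ E * Real.exp L := by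
        rw [← exp_log_mul w0, hE, ← Real.exp_add]
        exact Real.exp_le_exp.2 (by linarith [hL.1])
      calc y = W ^ m * W := by rw [hy, pow_succ]
        _ ≤ E * Real.exp L * W := by gcongr
        _ = _ := by ring
    · have b1 := dd w2 (by linarith : 0 ≤ E) (by linarith : 0 ≤ B) j2 hlW (Nat.cast_nonneg k) hkW j3
      have b2 : Real.exp (-(1 / 100 * L)) ≤ E / W ^ 100 := by
        rw [← exp_log_mul w0, hE, ← Real.exp_sub]
        refine Real.exp_le_exp.2 ?_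
        push_cast
        linarith
      calc _ ≤ K * W ^ 58 * Real.exp (-(1 / 100 * L)) :=
            mul_le_mul_of_nonneg_right b1 (Real.exp_pos _).le
        _ ≤ K * W ^ 58 * (E / W ^ 100) := by gcongr
        _ = _ := by ring
  have x10 : ∑ χ : DirichletCharacter ℂ k, DD χ (dphi τ (Real.log l)) P ≤
      W * (K * E * W ^ 58 / W ^ 100) := by
    refine (sum_le_sum fun χ _ => x9 χ).trans ?_
    rw [sum_const, nsmul_eq_mul, card_univ]
    have := (card_le k).trans hkW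
    gcongr
  have z1 := t1 (by linarith : 1000 ≤ W)
  have z2 := t2 w1 q1
  have z3 := t3 w0 (by linarith) x8
  have z4 := t4 w2 (sq_nonneg Cs) (by linarith) x10
  rw [x6, div_eq_mul_inv (Z ^ 2)]
  refine mul_le_mul_of_nonneg_left ?_ (sq_nonneg Z)
  have z5 : W⁻¹ = 1 / (4 * W) + 1 / (4 * W) + 1 / (4 * W) + 1 / (4 * W) := by
    field_simp; ring
  have z6 : 2 * Real.exp (3 * (2 * Real.log W) + 3) * (4 * W ^ 2 * (W ^ 10)⁻¹ +
      W * (3 / (⌊Real.exp W⌋₊ : ℝ) + Real.exp (2 * L) / 2 ^ ⌈6 * L⌉₊)) ≤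
      2 * (27 * W ^ 6) * (4 * W ^ 2 * (W ^ 10)⁻¹ +
      W * (3 / (⌊Real.exp W⌋₊ : ℝ) + Real.exp (2 * L) / 2 ^ ⌈6 * L⌉₊)) := by gcongr
  rw [z5]
  linarith

end TVP

theorem tvq (h0 : S_TV0) (h1 : S_TV1) (hd : S_DD) (hb : S_Bump) (hs : S_SV) : S_TVP :=
  TVP.main h0 h1 hd hb hs 10000 rfl

end Pool.Agent.P.MP_26a8c3_nt.Lg
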