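import Pool.Agent.P.MP_26a8c3_nt.Lg.Defs

/-! Identities for the damped Liouville function. -/

namespace Pool.Agent.P.MP_26a8c3_nt.Lg

open Finset MeasureTheory
open scoped ContDiff
open Pool.Agent.P.MP_a14ce1_nt
open Inf
open Hyb (ee ee_add norm_ee)

namespace U

lemma map_pr {R : Type} [CommSemiring R] {u : ℕ → R} (hm : ∀ a b, u (a * b) = u a * u b)
    (h1 : u 1 = 1) (S : Finset ℕ) : u (pr S) = ∏ p ∈ S, u p := by
  unfold pr
  induction S using Finset.induction_on with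
  | empty => simpa using h1
  | insert a S ha ih => rw [prod_insert ha, prod_insert ha, hm, ih]

lemma pr_dvd {P S : Finset ℕ} (hP : ∀ p ∈ P, p.Prime) (hS : S ⊆ P) (d : ℕ) :
    pr S ∣ d ↔ S ⊆ P.filter (· ∣ d) := by
  refine ⟨fun h p hp => mem_filter.2 ⟨hS hp, (dvd_prod_of_mem _ hp).trans h⟩, fun h => ?_⟩
  exact Finset.prod_primes_dvd d (fun p hp => (hP p (hS hp)).prime)
    fun p hp => (mem_filter.1 (h hp)).2

lemma key {R : Type} [CommSemiring R] {P : Finset ℕ} (hP : ∀ p ∈ P, p.Prime) {u : ℕ → R}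
    (hm : ∀ a b, u (a * b) = u a * u b) (h1 : u 1 = 1) (c : ℕ → R) (d : ℕ) :
    ∑ S ∈ P.powerset, (if pr S ∣ d then (∏ p ∈ S, c p) * u (d / pr S) else 0) =
      u (d / pr (P.filter (· ∣ d))) * ∏ p ∈ P.filter (· ∣ d), (c p + u p) := by
  have hT : pr (P.filter (· ∣ d)) ∣ d := (pr_dvd hP (filter_subset _ _) d).2 Subset.rfl
  have e : P.powerset.filter (fun S => pr S ∣ d) = (P.filter (· ∣ d)).powerset := by
    ext S
    rw [mem_filter, mem_powerset, mem_powerset]
    exact ⟨fun h => (pr_dvd hP h.1 d).1 h.2, fun h =>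
      ⟨h.trans (filter_subset _ _), (pr_dvd hP (h.trans (filter_subset _ _)) d).2 h⟩⟩
  rw [← sum_filter, e, prod_add, mul_sum]
  refine sum_congr rfl fun S hS => ?_
  have hS' := mem_powerset.1 hS
  have h0 : 0 < pr S := pr_pos fun p hp => hP p (mem_filter.1 (hS' hp)).1
  have h2 : pr (P.filter (· ∣ d)) = pr (P.filter (· ∣ d) \ S) * pr S := (prod_sdiff hS').symm
  have h3 : d / pr S = d / pr (P.filter (· ∣ d)) * pr (P.filter (· ∣ d) \ S) := by
    refine Nat.div_eq_of_eq_mul_left h0 ?_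
    rw [mul_assoc, ← h2, Nat.div_mul_cancel hT]
  rw [h3, hm, map_pr hm h1]
  ring

lemma uu_mul (P : Finset ℕ) (a b : ℕ) : uu P (a * b) = uu P a * uu P b := by
  rcases eq_or_ne a 0 with rfl | ha
  · simp [uu, fo_Mf.zero]
  rcases eq_or_ne b 0 with rfl | hb
  · simp [uu, fo_Mf.zero]
  simp only [uu, fo_Mf.mul, Nat.factorization_mul ha hb, Finsupp.add_apply, pow_add,
    prod_mul_distrib]
  ring

lemma fo_one : fo 1 = 1 := by simp [fo]

lemma uu_one (P : Finset ℕ) : uu P 1 = 1 := by simp [uu, fo_one]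

lemma uu_le {P : Finset ℕ} (hP : ∀ p ∈ P, p.Prime) (n : ℕ) :
    |uu P n| ≤ ∏ _p ∈ P.filter (· ∣ n), (7 / 8 : ℝ) := by
  rcases eq_or_ne n 0 with rfl | hn
  · rw [uu, fo_Mf.zero, zero_mul, abs_zero]
    exact prod_nonneg fun _ _ => by norm_num
  have h0 : 0 ≤ ∏ p ∈ P, (7 / 8 : ℝ) ^ n.factorization p := prod_nonneg fun _ _ => by positivity
  rw [uu, abs_mul, abs_of_nonneg h0, prod_filter]
  refine (mul_le_of_le_one_left h0 (fo_Mf.bd n)).trans
    (prod_le_prod (fun _ _ => by positivity) fun p hp => ?_)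
  split_ifs with h
  · exact pow_le_of_le_one (by norm_num) (by norm_num)
      ((hP p hp).factorization_pos_of_dvd hn h).ne'
  · exact pow_le_one₀ (by norm_num) (by norm_num)

lemma uu_bd {P : Finset ℕ} (hP : ∀ p ∈ P, p.Prime) (n : ℕ) : |uu P n| ≤ 1 :=
  (uu_le hP n).trans (prod_le_one (fun _ _ => by norm_num) fun _ _ => by norm_num)

lemma uu_prime (P : Finset ℕ) {p : ℕ} (hp : p.Prime) (h2 : p ≠ 2) :
    uu P p = if p ∈ P then -(7 / 8) else -1 := by
  have e : ∀ q, (7 / 8 : ℝ) ^ p.factorization q = if p = q then 7 / 8 else 1 := fun q => by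
    rw [hp.factorization, Finsupp.single_apply]
    split_ifs <;> simp
  rw [uu, fo_Mf.prime p hp h2]
  simp only [e, prod_ite_eq]
  split_ifs <;> norm_num

end U

open U in
theorem ufacts : S_U := by
  intro P hP
  have hP1 : ∀ p ∈ P, p.Prime := fun p hp => (hP p hp).1
  have hu : ∀ p ∈ P, uu P p = -(7 / 8) := fun p hp => by
    rw [uu_prime P (hP p hp).1 (hP p hp).2, if_pos hp]
  refine ⟨uu_mul P, by simp [uu, fo_Mf.zero], uu_bd hP1, uu_le hP1,
    fun p hp h2 h => by rw [uu_prime P hp h2, if_neg h], fun ξ d => ?_, fun d => ?_⟩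
  · have h := key hP1 (u := fun n => (uu P n : ℂ)) (fun a b => by rw [uu_mul, Complex.ofReal_mul])
      (by rw [uu_one, Complex.ofReal_one]) (fun p => 8⁻¹ * ξ p) d
    simp only [prod_mul_distrib, prod_const] at h
    rw [h, norm_mul, norm_prod, Complex.norm_real]
    refine (mul_le_of_le_one_left (prod_nonneg fun _ _ => norm_nonneg _) (uu_bd hP1 _)).trans
      (le_of_eq (prod_congr rfl fun p hp => ?_))
    rw [hu p (mem_filter.1 hp).1, ← norm_neg]
    congr 1
    push_cast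
    ring
  · have h := key hP1 (uu_mul P) (uu_one P) (fun _ => -8⁻¹) d
    simp only [prod_const] at h
    have hT : pr (P.filter (· ∣ d)) ∣ d := (pr_dvd hP1 (filter_subset _ _) d).2 Subset.rfl
    have e1 : ∏ p ∈ P.filter (· ∣ d), (-8⁻¹ + uu P p) = fo (pr (P.filter (· ∣ d))) := by
      rw [map_pr fo_Mf.mul fo_one]
      refine prod_congr rfl fun p hp => ?_
      have hp' := (mem_filter.1 hp).1
      rw [hu p hp', fo_Mf.prime p (hP p hp').1 (hP p hp').2]
      norm_num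
    obtain ⟨d', hd'⟩ : ∃ d', d' = d / pr (P.filter (· ∣ d)) := ⟨_, rfl⟩
    have e2 : d = d' * pr (P.filter (· ∣ d)) := by rw [hd', Nat.div_mul_cancel hT]
    have e3 : fo d = fo d' * fo (pr (P.filter (· ∣ d))) := by rw [← fo_Mf.mul, ← e2]
    rw [h, e1, ← hd', e3, ← sub_mul, uu, ← mul_one_sub, abs_mul, abs_mul]
    have h0 : ∀ p ∈ P, (0 : ℝ) ≤ if p ^ 2 ∣ d then (1 : ℝ) else 0 := fun p _ => by
      split_ifs <;> norm_num
    by_cases hq : ∃ p ∈ P, p ^ 2 ∣ d
    · obtain ⟨p, hp, hq⟩ := hq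
      refine le_trans ?_ (single_le_sum h0 hp)
      rw [if_pos hq]
      have a0 : 0 ≤ ∏ p ∈ P, (7 / 8 : ℝ) ^ d'.factorization p :=
        prod_nonneg fun _ _ => by positivity
      have a1 : ∏ p ∈ P, (7 / 8 : ℝ) ^ d'.factorization p ≤ 1 :=
        prod_le_one (fun _ _ => by positivity) fun _ _ => pow_le_one₀ (by norm_num) (by norm_num)
      exact mul_le_one₀ (mul_le_one₀ (fo_Mf.bd _) (abs_nonneg _)
        (abs_le.2 ⟨by linarith, by linarith⟩)) (abs_nonneg _) (fo_Mf.bd _)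
    · have a : ∏ p ∈ P, (7 / 8 : ℝ) ^ d'.factorization p = 1 := by
        refine prod_eq_one fun p hp => ?_
        rw [Nat.factorization_eq_zero_of_not_dvd, pow_zero]
        intro hd
        refine hq ⟨p, hp, ?_⟩
        have b : p ∈ P.filter (· ∣ d) := mem_filter.2 ⟨hp, by rw [e2]; exact hd.mul_right _⟩
        rw [e2, sq]
        exact mul_dvd_mul hd (dvd_prod_of_mem _ b)
      rw [a, sub_self, abs_zero, mul_zero, zero_mul]
      exact sum_nonneg h0

end Pool.Agent.P.MP_26a8c3_nt.Lg
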