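import Pool.Agent.P.MP_26a8c3_nt.Lg.SV
import Pool.Agent.P.MP_26a8c3_nt.Lg.NP
import Pool.Agent.P.MP_26a8c3_nt.Lg.DB
import Pool.Agent.P.MP_26a8c3_nt.Lg.MU
import Pool.Agent.P.MP_26a8c3_nt.Lg.TV0
import Pool.Agent.P.MP_26a8c3_nt.Lg.TV1
import Pool.Agent.P.MP_26a8c3_nt.Lg.TVP
import Pool.Agent.P.MP_26a8c3_nt.Lg.Gram
import Pool.Agent.P.MP_26a8c3_nt.Lg.U
import Pool.Agent.P.MP_26a8c3_nt.Lg.Rem
import Pool.Agent.P.MP_26a8c3_nt.Lg.Ins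
import Pool.Agent.P.MP_26a8c3_nt.Lg.Core0
import Pool.Agent.P.MP_26a8c3_nt.Lg.CA1
import Pool.Agent.P.MP_26a8c3_nt.Lg.CA2
import Pool.Agent.P.MP_26a8c3_nt.Lg.Core
import Pool.Agent.P.MP_26a8c3_nt.Lg.HW
import Pool.Agent.P.MP_26a8c3_nt.Lg.Ph
import Pool.Agent.P.MP_26a8c3_nt.Lg.R22
import Pool.Agent.P.MP_26a8c3_nt.Lg.Sift

/-! Assembly. -/

namespace Pool.Agent.P.MP_26a8c3_nt.Lg

theorem tvp_all : S_TVP := tvq (tv0 muq) tv1 ddq bump sv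

theorem core_all : S_Core :=
  coreq (core0 ufacts (remq ufacts) gramq) (ca1 ufacts tvp_all)
    (ca2 ufacts (mm sv) np (insq ufacts (mm sv)))

theorem main_all : S_Main := mainq (siftq (r22q (phq hwq core_all)))

end Pool.Agent.P.MP_26a8c3_nt.Lg
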