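import Pool.Agent.P.MP_26a8c3_nt.Inf.Sv4
import Pool.Agent.P.MP_a14ce1_nt.Ch.Mertens

/-! Definitions, basic tools and interface statements for the iterated logarithmic gain.
Every piece of the proof is a theorem of the shape  S_a → S_b → S_c. -/

namespace Pool.Agent.P.MP_26a8c3_nt.Lg

open Finset MeasureTheory
open scoped ContDiff
open Pool.Agent.P.MP_a14ce1_nt
open Inf
open Hyb (ee ee_add norm_ee)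

/-- The sum of the reciprocals. -/
noncomputable def rc (P : Finset ℕ) : ℝ := ∑ p ∈ P, (p : ℝ)⁻¹

/-- Windows all of whose parameters are bounded by `W`. -/
structure Win (H : ℝ → ℝ → ℂ) (W : ℝ) : Prop where
  supp : ∀ s t, H s t ≠ 0 → (W⁻¹ ≤ s ∧ s ≤ W) ∧ W⁻¹ ≤ t ∧ t ≤ W
  bd : ∀ s t, ‖H s t‖ ≤ W
  lip : ∀ s t s' t', ‖H s t - H s' t'‖ ≤ W * (|s - s'| + |t - t'|)

/-- Bounded coefficients that do not see on which side the primes of `P` stand. -/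
structure Gd (G : ℕ → ℕ → ℂ) (P : ℕ → Prop) : Prop where
  bd : ∀ d e, ‖G d e‖ ≤ 1
  zl : ∀ e, G 0 e = 0
  zr : ∀ d, G d 0 = 0
  inv : ∀ p, P p → ∀ d e, G (p * d) e = G d (p * e)

/-- Approximate identities. -/
structure Bump (τ : ℝ → ℝ) (δ : ℝ) : Prop where
  sm : ContDiff ℝ ∞ τ
  nn : ∀ x, 0 ≤ τ x
  supp : ∀ x, τ x ≠ 0 → |x| ≤ δ
  int : ∫ x, τ x = 1

/-- The difference of two translates. -/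
noncomputable def dphi (τ : ℝ → ℝ) (c x : ℝ) : ℂ := ((τ (x + c) - τ x : ℝ) : ℂ)

/-- The general term at two scales. -/
noncomputable def tt (k : ℕ) (G : ℕ → ℕ → ℂ) (H : ℝ → ℝ → ℂ) (Z₁ Z₂ : ℝ) (p : ℕ × ℕ) : ℂ :=
  if p.1 ≡ p.2 [MOD k] then G p.1 p.2 * H (p.1 / Z₁) (p.2 / Z₂) else 0

/-- The sum over congruent pairs at two scales. -/
noncomputable def SS (k : ℕ) (G : ℕ → ℕ → ℂ) (H : ℝ → ℝ → ℂ) (Z₁ Z₂ : ℝ) : ℂ :=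
  ∑' p : ℕ × ℕ, tt k G H Z₁ Z₂ p

/-- The general term in logarithmic coordinates. -/
noncomputable def T2 (k : ℕ) (G : ℕ → ℕ → ℂ) (Φ : ℝ → ℝ → ℂ) (Z : ℝ) (p : ℕ × ℕ) : ℂ :=
  if p.1 ≡ p.2 [MOD k] then
    G p.1 p.2 * Φ (Real.log (p.1 / Z)) (Real.log ((p.1 * p.2 : ℕ) / Z ^ 2)) else 0

/-- A window in logarithmic coordinates. -/
noncomputable def KH (H : ℝ → ℝ → ℂ) (u v : ℝ) : ℂ := H (Real.exp u) (Real.exp (v - u))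

/-- Product coefficients with a reciprocal phase. -/
noncomputable def GG (α β : ℕ → ℝ) (Y : ℝ) (d e : ℕ) : ℂ := α d * β e * ee (Y / (d * e))

/-- The damped Liouville function. -/
noncomputable def uu (P : Finset ℕ) (n : ℕ) : ℝ := fo n * ∏ p ∈ P, (7 / 8 : ℝ) ^ n.factorization p

/-- The small subsets. -/
def PJ (P : Finset ℕ) (J : ℕ) : Finset (Finset ℕ) := P.powerset.filter fun S => S.card ≤ J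

/-- The primes that are removed and put back. -/
noncomputable def GP (N : ℕ) : Finset ℕ := Ch.pr (Real.exp N) (Real.exp ((N : ℝ) ^ 33))

/-- The upper sieve bound holds from `y₀` on. -/
def Cnt (P : Finset ℕ) (C y₀ : ℝ) : Prop := ∀ y : ℝ, y₀ ≤ y → ∀ S : Finset ℕ,
  (∀ n ∈ S, 0 < n ∧ (n : ℝ) ≤ y ∧ Nat.Coprime n (pr P)) → (S.card : ℝ) ≤ C * VV P * y

/-! ### Basic tools -/

lemma Win.mono {H : ℝ → ℝ → ℂ} {W W' : ℝ} (h : Win H W) (h0 : 0 < W) (hW : W ≤ W') :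
    Win H W' := by
  have a := inv_anti₀ h0 hW
  refine ⟨fun s t h1 => ?_, fun s t => (h.bd s t).trans hW, fun s t s' t' =>
    (h.lip s t s' t').trans (mul_le_mul_of_nonneg_right hW (by positivity))⟩
  obtain ⟨⟨b1, b2⟩, b3, b4⟩ := h.supp s t h1
  exact ⟨⟨a.trans b1, b2.trans hW⟩, a.trans b3, b4.trans hW⟩

lemma Win.cont {H : ℝ → ℝ → ℂ} {W : ℝ} (h : Win H W) :
    Continuous fun p : ℝ × ℝ => H p.1 p.2 := by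
  refine continuous_iff_continuousAt.2 fun q => ?_
  rw [ContinuousAt, tendsto_iff_norm_sub_tendsto_zero]
  refine squeeze_zero (fun _ => norm_nonneg _) (fun p => h.lip p.1 p.2 q.1 q.2) ?_
  exact Continuous.tendsto' (f := fun p : ℝ × ℝ => W * (|p.1 - q.1| + |p.2 - q.2|))
    (by fun_prop) q 0 (by simp)

lemma Win.adm {H : ℝ → ℝ → ℂ} {W : ℝ} (h : Win H W) (h0 : 0 < W) : Adm H W⁻¹ W :=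
  ⟨inv_pos.2 h0, h.cont, h.supp⟩

lemma tt_supp {k : ℕ} {G : ℕ → ℕ → ℂ} {H : ℝ → ℝ → ℂ} {a b : ℝ} (h : Adm H a b) {Z₁ Z₂ : ℝ}
    (h1 : 0 < Z₁) (h2 : 0 < Z₂) {p : ℕ × ℕ} (hp : tt k G H Z₁ Z₂ p ≠ 0) :
    p ∈ box (b * Z₁) (b * Z₂) := by
  unfold tt at hp
  split_ifs at hp
  swap
  · exact absurd rfl hp
  obtain ⟨⟨a1, a2⟩, a3, a4⟩ := h.supp _ _ (right_ne_zero_of_mul hp)
  have a5 := (div_pos_iff_of_pos_right h1).1 (h.a0.trans_le a1)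
  have a6 := (div_pos_iff_of_pos_right h2).1 (h.a0.trans_le a3)
  exact mem_box.2 ⟨⟨by exact_mod_cast a5, (div_le_iff₀ h1).1 a2⟩, by exact_mod_cast a6,
    (div_le_iff₀ h2).1 a4⟩

lemma SS_eq {k : ℕ} {G : ℕ → ℕ → ℂ} {H : ℝ → ℝ → ℂ} {a b : ℝ} (h : Adm H a b) {Z₁ Z₂ : ℝ}
    (h1 : 0 < Z₁) (h2 : 0 < Z₂) :
    SS k G H Z₁ Z₂ = ∑ p ∈ box (b * Z₁) (b * Z₂), tt k G H Z₁ Z₂ p :=
  tsum_eq_sum fun p hp => by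
    by_contra h0
    exact hp (tt_supp h h1 h2 h0)

lemma norm_tt {k : ℕ} {G : ℕ → ℕ → ℂ} (hG : ∀ d e, ‖G d e‖ ≤ 1) {H : ℝ → ℝ → ℂ} {M : ℝ}
    (hM : ∀ s t, ‖H s t‖ ≤ M) (Z₁ Z₂ : ℝ) (p : ℕ × ℕ) : ‖tt k G H Z₁ Z₂ p‖ ≤ M := by
  unfold tt
  split_ifs
  · rw [norm_mul]
    exact (mul_le_of_le_one_left (norm_nonneg _) (hG _ _)).trans (hM _ _)
  · rw [norm_zero]
    exact (norm_nonneg _).trans (hM 0 0)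

lemma norm_SS {k : ℕ} {G : ℕ → ℕ → ℂ} (hG : ∀ d e, ‖G d e‖ ≤ 1) {H : ℝ → ℝ → ℂ} {a b M : ℝ}
    (h : Adm H a b) (hb : 0 < b) (hM : ∀ s t, ‖H s t‖ ≤ M) {Z₁ Z₂ : ℝ} (h1 : 0 < Z₁)
    (h2 : 0 < Z₂) : ‖SS k G H Z₁ Z₂‖ ≤ M * (b * Z₁ * (b * Z₂)) := by
  rw [SS_eq h h1 h2]
  exact norm_sum_box (by positivity) (by positivity) ((norm_nonneg _).trans (hM 0 0))
    fun p _ => norm_tt hG hM _ _ p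

lemma norm_GG {α β : ℕ → ℝ} (ha : ∀ n, |α n| ≤ 1) (hb : ∀ n, |β n| ≤ 1) (Y : ℝ) (d e : ℕ) :
    ‖GG α β Y d e‖ ≤ 1 := by
  rw [GG, norm_mul, norm_mul, norm_ee, mul_one, Complex.norm_real, Complex.norm_real]
  exact mul_le_one₀ (ha d) (norm_nonneg _) (hb e)

lemma BB_SS (X : ℝ) (H : ℝ → ℝ → ℂ) (z : ℝ) :
    BB 1 (FX fo X) H z = ((z : ℂ) ^ 2)⁻¹ * SS 1 (GG fo fo X) H z z := by
  rw [BB, SS]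
  congr 1
  refine tsum_congr fun p => ?_
  simp only [tt, FX, GG, fo_Mf.mul, Nat.cast_mul, Complex.ofReal_mul]

lemma mem_PJ {P S : Finset ℕ} {J : ℕ} : S ∈ PJ P J ↔ S ⊆ P ∧ S.card ≤ J := by
  rw [PJ, mem_filter, mem_powerset]

lemma mem_pr {u v : ℝ} (hu : 0 ≤ u) {p : ℕ} :
    p ∈ Ch.pr u v ↔ p.Prime ∧ u < p ∧ (p : ℝ) ≤ v := by
  rw [Ch.pr, mem_filter, mem_Ioc, Nat.floor_lt hu]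
  exact ⟨fun h => ⟨h.2, h.1.1, (Nat.le_floor_iff' h.2.ne_zero).1 h.1.2⟩,
    fun h => ⟨⟨h.2.1, Nat.le_floor h.2.2⟩, h.1⟩⟩

/-- The sum over the large subsets. -/
lemma tail_c {c : ℝ} (hc : 0 ≤ c) (P : Finset ℕ) (J : ℕ) :
    ∑ U ∈ P.powerset.filter fun S => ¬ S.card ≤ J, c ^ U.card * (pr U : ℝ)⁻¹ ≤
      Real.exp (2 * c * rc P) / 2 ^ J := by
  rw [le_div_iff₀ (by positivity), sum_mul]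
  refine le_trans ?_ (sum_c (c := 2 * c) (by positivity) P)
  refine le_trans (sum_le_sum fun U hU => ?_) (sum_le_sum_of_subset_of_nonneg
    (filter_subset (fun S : Finset ℕ => ¬ S.card ≤ J) _) fun _ _ _ => by positivity)
  have : (2 : ℝ) ^ J ≤ 2 ^ U.card :=
    pow_le_pow_right₀ one_le_two (not_le.1 (mem_filter.1 hU).2).le
  calc _ ≤ c ^ U.card * (pr U : ℝ)⁻¹ * 2 ^ U.card := by gcongr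
    _ = _ := by rw [mul_pow]; ring

lemma mertens : ∃ C : ℝ, 0 < C ∧ ∀ u v : ℝ, 2 ≤ u → u ≤ v →
    |rc (Ch.pr u v) - Real.log (Real.log v / Real.log u)| ≤ C := by
  obtain ⟨C, hC, h⟩ := Ch.m1
  exact ⟨C, hC, fun u v a b => by simpa only [rc, Ch.rs, one_div] using h u v a b⟩

/-! ### Tools from the sieve and from primes in progressions -/

def S_SV : Prop := ∃ C : ℝ, 1 ≤ C ∧ ∀ (P : Finset ℕ) (z : ℕ), (∀ p ∈ P, p.Prime ∧ p ≤ z) →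
  Cnt P C ((z : ℝ) ^ 10)

def S_MM : Prop := ∃ C : ℝ, 1 ≤ C ∧ ∀ (P : Finset ℕ) (z : ℕ) (x : ℝ) (h : ℕ → ℝ),
  (∀ p ∈ P, p.Prime ∧ p ≤ z) → (z : ℝ) ^ 10 ≤ x → (∀ p ∈ P, 0 ≤ h p ∧ h p ≤ 1) →
  ∑ d ∈ Ioc 0 ⌊x⌋₊, ∏ p ∈ P.filter (· ∣ d), h p ≤ C * x * Real.exp (-∑ p ∈ P, (1 - h p) / p)

def S_NP : Prop := ∃ C : ℝ, 0 < C ∧ ∀ (k : ℕ) [NeZero k] (χ : DirichletCharacter ℂ k), χ ≠ 1 →
  ∀ u v : ℝ, 2 ≤ u → (k : ℝ) ≤ Real.log u → u ≤ v → ‖∑ p ∈ Ch.pr u v, χ p / (p : ℂ)‖ ≤ C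

/-! ### The change of ratio -/

def S_DD : Prop := ∀ (k : ℕ), 1 ≤ k → ∀ (χ : DirichletCharacter ℂ k) (φ : ℝ → ℂ) (R : ℝ)
  (j : ℝ → ℝ), Tf φ R j → ∀ c : ℝ, 1 ≤ c → ∀ (P : Finset ℕ) (l : ℝ), (∀ p ∈ P, p.Prime) →
  1 ≤ rc P → 1 ≤ l → (∀ p ∈ P, Real.log p ≤ l) → l ≤ c * Real.exp (rc P) →
  DD χ φ P ≤ (2 * (∫ w, ‖φ w‖) + 1 + Real.exp 1 * ((1 + 2 * R) * (6 * (2 + 4 * k)) ^ 2 *
    ∫ ξ, j ξ * (1 + |2 * Real.pi * ξ|) ^ 4) * (4 * c) ^ 3 * (6 * 100 ^ 3)) *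
    Real.exp (-(1 / 100 * rc P))

def S_Bump : Prop := ∃ C : ℝ, 1 ≤ C ∧ ∀ δ : ℝ, 0 < δ → δ ≤ 1 → ∃ τ : ℝ → ℝ, Bump τ δ ∧
  ∀ c : ℝ, ∃ j : ℝ → ℝ, Tf (dphi τ c) (1 + |c|) j ∧ ∫ w, ‖dphi τ c w‖ ≤ 2 ∧
    ∫ ξ, j ξ * (1 + |2 * Real.pi * ξ|) ^ 4 ≤ C * c ^ 2 / δ ^ 5

def S_MU : Prop := ∀ (k : ℕ) [NeZero k] (K : ℝ → ℝ → ℂ) (ρ M : ℝ), Kad K ρ M →
  ∀ (φ : ℝ → ℂ) (R : ℝ) (j : ℝ → ℝ), Tf φ R j → ∀ P U : Finset ℕ,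
  (∀ p ∈ P, p.Prime ∧ Nat.Coprime p k) → U ⊆ P → ∀ G : ℕ → ℕ → ℂ, Gd G (· ∈ P) →
  ∀ C y₀ Z : ℝ, 0 ≤ C → Cnt P C y₀ → 0 < Z → y₀ * (pr U * Real.exp (2 * ρ + R)) ≤ Z →
  ‖∑ A ∈ U.powerset, ∑ q ∈ box (Real.exp (2 * ρ + R) * Z) (Real.exp (2 * ρ + R) * Z),
      (if Nat.Coprime q.1 (pr P) ∧ Nat.Coprime q.2 (pr P) then
        T2 k G (Phi K φ) Z (pr A * q.1, pr (U \ A) * q.2) else 0)‖ ≤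
    C ^ 2 * M * Real.exp (3 * ρ) * Z ^ 2 * (VV P ^ 2 * ((pr U : ℝ)⁻¹ *
      ∑ χ : DirichletCharacter ℂ k, ∫ w, ‖FF χ φ U w‖))

def S_TV0 : Prop := ∀ (k : ℕ) [NeZero k] (K : ℝ → ℝ → ℂ) (ρ M Λ : ℝ), Kad K ρ M →
  (∀ u v w, |w| ≤ 1 → ‖K u v - K (u - w) v‖ ≤ Λ * |w|) →
  ∀ (τ : ℝ → ℝ) (δ c : ℝ) (j : ℝ → ℝ), Bump τ δ → δ ≤ 1 → Tf (dphi τ c) (1 + |c|) j →
  ∀ (P : Finset ℕ) (Q J : ℕ), Q ≠ 0 → (∀ p ∈ P, p.Prime ∧ Nat.Coprime p k ∧ Q < p) →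
  ∀ G : ℕ → ℕ → ℂ, Gd G (· ∈ P) → ∀ C y₀ Z : ℝ, 0 ≤ C → Cnt P C y₀ → 0 < Z →
  (∀ U ∈ PJ P J, y₀ * (pr U * Real.exp (2 * ρ + (1 + |c|))) ≤ Z) →
  ‖∑ p ∈ box (Real.exp (2 * ρ + (1 + |c|)) * Z) (Real.exp (2 * ρ + (1 + |c|)) * Z),
      T2 k G (fun u v => K (u + c) v - K u v) Z p‖ ≤
    Z ^ 2 * (2 * Real.exp (3 * ρ + 3) * (Λ * δ + M * (3 / Q + Real.exp (2 * rc P) / 2 ^ J)) +
      C ^ 2 * M * Real.exp (3 * ρ) * ∑ χ : DirichletCharacter ℂ k, DD χ (dphi τ c) P)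

def S_TV1 : Prop := ∀ (H : ℝ → ℝ → ℂ) (W : ℝ), 1 ≤ W → Win H W →
  Kad (KH H) (2 * Real.log W) W ∧
  (∀ u v w, |w| ≤ 1 → ‖KH H u v - KH H (u - w) v‖ ≤ 4 * W ^ 2 * |w|) ∧
  ∀ (k : ℕ) (G : ℕ → ℕ → ℂ), (∀ e, G 0 e = 0) → (∀ d, G d 0 = 0) → ∀ Z l : ℝ, 0 < Z → 0 < l →
    SS k G H (Z / l) (Z * l) - SS k G H Z Z =
    ∑ p ∈ box (Real.exp (2 * (2 * Real.log W) + (1 + |Real.log l|)) * Z)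
        (Real.exp (2 * (2 * Real.log W) + (1 + |Real.log l|)) * Z),
      T2 k G (fun u v => KH H (u + Real.log l) v - KH H u v) Z p

def S_TVP : Prop := ∃ (n : ℕ) (W₀ : ℝ), ∀ W Z : ℝ, W₀ ≤ W → 0 < Z → W ^ n ≤ Real.log Z →
  ∀ k : ℕ, 1 ≤ k → (k : ℝ) ≤ W → ∀ H : ℝ → ℝ → ℂ, Win H W →
  ∀ G : ℕ → ℕ → ℂ, Gd G (fun p => p.Prime ∧ Real.exp W < p) →
  ∀ l : ℝ, 0 < l → |Real.log l| ≤ W → ‖SS k G H (Z / l) (Z * l) - SS k G H Z Z‖ ≤ Z ^ 2 / W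

/-! ### The bilinear sum -/

def S_Gram : Prop := ∀ α β : ℕ → ℝ, (∀ n, |α n| ≤ 1) → (∀ n, |β n| ≤ 1) →
  ∀ (H : ℝ → ℝ → ℂ) (a b M : ℝ), Adm H a b → 0 < b → (∀ s t, ‖H s t‖ ≤ M) →
  ∀ N : ℕ, 0 < N → ∀ ζ Y : ℝ, 0 < ζ →
  (N : ℝ) ^ 2 * ‖SS 1 (GG α β Y) H (√N * ζ) (ζ / √N)‖ ^ 2 ≤ 2 * b ^ 2 * ζ ^ 2 *
    (N * (M ^ 2 * (b * ζ / √N) * ∑ d ∈ Ioc 0 ⌊b * (√N * ζ)⌋₊, α d ^ 2) +
      ∑ i ∈ range N, ∑ i' ∈ range N, if i = i' then 0 else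
        (SS (Nat.dist i i') (GG α α (Nat.dist i i' * Y)) (HK H N (Nat.dist i i'))
          (√N * ζ) (√N * ζ)).re)

def S_U : Prop := ∀ P : Finset ℕ, (∀ p ∈ P, p.Prime ∧ p ≠ 2) →
  (∀ a b, uu P (a * b) = uu P a * uu P b) ∧ uu P 0 = 0 ∧ (∀ n, |uu P n| ≤ 1) ∧
  (∀ n, |uu P n| ≤ ∏ _p ∈ P.filter (· ∣ n), (7 / 8 : ℝ)) ∧
  (∀ p : ℕ, p.Prime → p ≠ 2 → p ∉ P → uu P p = -1) ∧
  (∀ (ξ : ℕ → ℂ) (d : ℕ), ‖∑ S ∈ P.powerset, if pr S ∣ d then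
      (8⁻¹ : ℂ) ^ S.card * (∏ p ∈ S, ξ p) * uu P (d / pr S) else 0‖ ≤
      ∏ p ∈ P.filter (· ∣ d), ‖7 / 8 - ξ p / 8‖) ∧
  ∀ d : ℕ, |fo d - ∑ S ∈ P.powerset, if pr S ∣ d then (-8⁻¹ : ℝ) ^ S.card * uu P (d / pr S) else 0|
      ≤ ∑ p ∈ P, if p ^ 2 ∣ d then (1 : ℝ) else 0

def S_Rem : Prop := ∀ (P : Finset ℕ) (Q J : ℕ), Q ≠ 0 → (∀ p ∈ P, p.Prime ∧ p ≠ 2 ∧ Q < p) →
  ∀ (H : ℝ → ℝ → ℂ) (a b M : ℝ), Adm H a b → 0 < b → (∀ s t, ‖H s t‖ ≤ M) →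
  ∀ z X : ℝ, 0 < z →
  ‖SS 1 (GG fo fo X) H z z - ∑ S ∈ PJ P J,
      (-8⁻¹ : ℂ) ^ S.card * SS 1 (GG (uu P) fo (X / pr S)) H (z / pr S) z‖ ≤
    M * b ^ 2 * z ^ 2 * ((Q : ℝ)⁻¹ + Real.exp (rc P / 4) / 2 ^ J)

def S_Ins : Prop := ∃ C : ℝ, 0 < C ∧ ∀ (k : ℕ) [NeZero k] (P : Finset ℕ) (z J : ℕ),
  (∀ p ∈ P, p.Prime ∧ p ≠ 2 ∧ Nat.Coprime p k ∧ p ≤ z) → ∀ Λ : ℝ,
  (∀ χ : DirichletCharacter ℂ k, Λ ≤ ∑ p ∈ P, (1 + (χ p).re) / p) →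
  ∀ (H : ℝ → ℝ → ℂ) (a b M : ℝ), Adm H a b → 0 < b → (∀ s t, ‖H s t‖ ≤ M) →
  ∀ Z Y : ℝ, 0 < Z → (z : ℝ) ^ 10 ≤ b * Z →
  ‖∑ S ∈ PJ P J, (8⁻¹ : ℂ) ^ S.card * SS k (GG (uu P) (uu P) (Y / pr S)) H (Z / pr S) Z‖ ≤
    M * b ^ 2 * Z ^ 2 * (C * k * Real.exp (-(7 / 64 * Λ) - rc P / 8) +
      Real.exp (rc P / 4) / 2 ^ J)

/-- First change of ratio. -/
def HA (P : Finset ℕ) (J N : ℕ) (H : ℝ → ℝ → ℂ) (z X ε : ℝ) : Prop := ∀ S ∈ PJ P J,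
  ‖SS 1 (GG (uu P) fo (X / pr S)) H (z / pr S) z -
    SS 1 (GG (uu P) fo (X / pr S)) H (√N * (z / √(pr S))) (z / √(pr S) / √N)‖ ≤ ε * (z ^ 2 / pr S)

/-- Second change of ratio. -/
def HB (P : Finset ℕ) (J N : ℕ) (H : ℝ → ℝ → ℂ) (z X ε : ℝ) : Prop :=
  ∀ S ∈ PJ P J, ∀ k : ℕ, 0 < k → k < N →
  ‖SS k (GG (uu P) (uu P) (k * X / pr S)) (HK H N k) (√N * (z / √(pr S))) (√N * (z / √(pr S))) -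
    SS k (GG (uu P) (uu P) (k * X / pr S)) (HK H N k) (√N * z / pr S) (√N * z)‖ ≤
    ε * (N * z ^ 2 / pr S)

/-- The diagonal. -/
def HC (P : Finset ℕ) (J N : ℕ) (b z Δ : ℝ) : Prop := ∀ S ∈ PJ P J,
  ∑ d ∈ Ioc 0 ⌊b * (√N * (z / √(pr S)))⌋₊, uu P d ^ 2 ≤ Δ * (b * (√N * (z / √(pr S))))

/-- The averaged off-diagonal terms. -/
def HD (P : Finset ℕ) (J N : ℕ) (H : ℝ → ℝ → ℂ) (z X R : ℝ) : Prop := ∀ k : ℕ, 0 < k → k < N →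
  ‖∑ S ∈ PJ P J, (8⁻¹ : ℂ) ^ S.card *
    SS k (GG (uu P) (uu P) (k * X / pr S)) (HK H N k) (√N * z / pr S) (√N * z)‖ ≤ R * (N * z ^ 2)

def S_Core0 : Prop := ∀ (P : Finset ℕ) (Q J N : ℕ), Q ≠ 0 → 0 < N →
  (∀ p ∈ P, p.Prime ∧ p ≠ 2 ∧ Q < p) →
  ∀ (H : ℝ → ℝ → ℂ) (a b M : ℝ), Adm H a b → 0 < b → (∀ s t, ‖H s t‖ ≤ M) →
  ∀ z X ε Δ R : ℝ, 0 < z → 0 ≤ ε → 0 ≤ Δ → 0 ≤ R →
  HA P J N H z X ε → HB P J N H z X ε → HC P J N b z Δ → HD P J N H z X R →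
  ‖SS 1 (GG fo fo X) H z z‖ ≤ z ^ 2 * (M * b ^ 2 * ((Q : ℝ)⁻¹ + Real.exp (rc P / 4) / 2 ^ J) +
    ε * Real.exp (rc P / 8) + √(2 * b ^ 2 * Real.exp (rc P / 8) *
      (M ^ 2 * b ^ 2 * Δ * Real.exp (rc P / 8) / N + N * R + N * ε * Real.exp (rc P / 8))))

def S_CA1 : Prop := ∃ n N₀ : ℕ, ∀ N : ℕ, N₀ ≤ N → ∀ W z : ℝ, 1 ≤ W → W ≤ N → 0 < z →
  (N : ℝ) ^ n ≤ Real.log z → ∀ H : ℝ → ℝ → ℂ, Win H W → ∀ X : ℝ,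
  HA (GP N) N N H z X (2 / (N : ℝ) ^ 35) ∧ HB (GP N) N N H z X (2 / (N : ℝ) ^ 35)

def S_CA2 : Prop := ∃ (n N₀ : ℕ) (C : ℝ), 0 < C ∧ ∀ N : ℕ, N₀ ≤ N → ∀ W z : ℝ, 1 ≤ W → 0 < z →
  (N : ℝ) ^ n ≤ Real.log z → ∀ H : ℝ → ℝ → ℂ, Win H W → ∀ X : ℝ,
  HC (GP N) N N W z (C * Real.exp (-(15 / 64 * rc (GP N)))) ∧
  HD (GP N) N N H z X (W ^ 4 * (C * N * Real.exp (-(15 / 64 * rc (GP N))) +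
    Real.exp (rc (GP N) / 4) / 2 ^ N))

def S_Core : Prop := ∃ (n : ℕ) (W₀ : ℝ), ∀ W z : ℝ, W₀ ≤ W → 0 < z → W ^ n ≤ Real.log z →
  ∀ H : ℝ → ℝ → ℂ, Win H W → ∀ X : ℝ, ‖BB 1 (FX fo X) H z‖ ≤ W⁻¹

/-! ### The sieve -/

/-- Amplitudes with parameters bounded by `V`. -/
structure Amp (w : ℝ → ℂ) (V : ℝ) : Prop where
  cont : Continuous w
  bd : ∀ u, 0 ≤ u → u ≤ 1 → ‖w u‖ ≤ V
  lip : ∀ u u', 0 < u → u ≤ u' → u' ≤ 1 → ‖w u - w u'‖ ≤ V * (u' - u) / u ^ 3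

def S_HW : Prop := ∀ (V η α β γ : ℝ) (w : ℝ → ℂ), 2 ≤ V → V⁻¹ ≤ η → η ≤ 1 → Amp w V →
  1 ≤ α → α ≤ V → 1 ≤ β → β ≤ V → 1 ≤ γ → γ ≤ α * β → Win (HW η w α β γ) (V ^ 16)

def S_Ph : Prop := ∃ (n : ℕ) (V₀ : ℝ), ∀ V z η : ℝ, V₀ ≤ V → 0 < z → V ^ n ≤ Real.log z →
  V⁻¹ ≤ η → η ≤ 1 → ∀ w : ℝ → ℂ, Amp w V → ∀ X : ℝ, ‖Ph η w z X‖ ≤ V⁻¹

def S_R22 : Prop := ∀ (g : ℝ → ℝ) (C : ℝ), Hyb.Good g C → ∃ (n : ℕ) (A₀ : ℝ), ∀ A y : ℝ,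
  A₀ ≤ A → 0 < y → A ^ n ≤ Real.log y → ∀ x₀ : ℝ,
  |QF ⌊A * √y⌋₊ (lam ⌊A * √y⌋₊ (y2 (A ^ 2)⁻¹ (A * √y))) (lam ⌊A * √y⌋₊ (y2 (A ^ 2)⁻¹ (A * √y)))
    (Hyb.rem g 2 1 x₀ y)| ≤ y

def S_Sift : Prop := ∃ (n : ℕ) (A₀ : ℝ), ∀ (A : ℝ) (N a : ℕ), A₀ ≤ A → A ^ n ≤ Real.log N →
  (cop (2 * ∏ p ∈ QQ 2 ⌊A * √N⌋₊, p) a (a + N) : ℝ) ≤ 2 * N / (Real.log N + Real.log A / 10)

def S_Main : Prop := ∃ c : ℝ, 0 < c ∧ ∃ t₀ : ℝ, ∀ (k : ℕ) (l : ℤ) (x y : ℝ), 1 ≤ k →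
  t₀ ≤ y / (k : ℝ) →
  (({p : ℕ | p.Prime ∧ x - y < (p : ℝ) ∧ (p : ℝ) ≤ x ∧
      (p : ℤ) ≡ l [ZMOD (k : ℤ)]}.ncard : ℕ) : ℝ) <
    2 * y / ((Nat.totient k : ℝ) *
      (Real.log (y / (k : ℝ)) + c * Real.log (Real.log (y / (k : ℝ)))))

end Pool.Agent.P.MP_26a8c3_nt.Lg
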