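import Pool.Agent.P.MP_26a8c3_nt.Lg.Defs

/-! Putting the removed primes back, with characters. -/

namespace Pool.Agent.P.MP_26a8c3_nt.Lg

open Finset MeasureTheory
open scoped ContDiff
open Pool.Agent.P.MP_a14ce1_nt
open Inf
open Hyb (ee ee_add norm_ee)

namespace Ins

/-- The factor that does not depend on the removed primes. -/
noncomputable def cf (u : ℕ → ℝ) (H : ℝ → ℝ → ℂ) (Z Y : ℝ) (p : ℕ × ℕ) : ℂ :=
  u p.2 * ee (Y / (p.1 * p.2)) * H (p.1 / Z) (p.2 / Z)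

lemma reidx {k : ℕ} (u : ℕ → ℝ) {H : ℝ → ℝ → ℂ} {a b : ℝ} (h : Adm H a b) {Z : ℝ} (hZ : 0 < Z)
    (Y : ℝ) {g : ℕ} (hg : 0 < g) (hk : IsUnit (g : ZMod k)) :
    SS k (GG u u (Y / g)) H (Z / g) Z = ∑ p ∈ box (b * Z) (b * Z), cf u H Z Y p *
      (if (p.1 : ZMod k) = (g : ZMod k) * p.2 then
        (if g ∣ p.1 then (u (p.1 / g) : ℂ) else 0) else 0) := by
  have hg0 : (0 : ℝ) < g := by exact_mod_cast hg
  rw [SS_eq h (div_pos hZ hg0) hZ,
    sum_reidx (box (b * Z) (b * Z)) (box (b * (Z / g)) (b * Z))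
      (e := fun q : ℕ × ℕ => (g * q.1, q.2))]
  · refine sum_congr rfl fun q _ => ?_
    have e1 : ((g * q.1 : ℕ) : ZMod k) = (g : ZMod k) * q.2 ↔ q.1 ≡ q.2 [MOD k] := by
      rw [Nat.cast_mul, hk.mul_right_inj, ZMod.natCast_eq_natCast_iff]
    simp only [tt, cf, GG, e1, dvd_mul_right, if_true, Nat.mul_div_cancel_left _ hg]
    split_ifs
    · have e2 : (q.1 : ℝ) / (Z / g) = (g * q.1 : ℕ) / Z := by
        push_cast
        field_simp
      have e3 : Y / g / ((q.1 : ℝ) * q.2) = Y / ((g * q.1 : ℕ) * q.2) := by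
        push_cast
        rw [div_div, mul_assoc]
      rw [e2, e3]
      ring
    · simp
  · intro q q' hq
    simp only [Prod.mk.injEq] at hq
    exact Prod.ext (Nat.eq_of_mul_eq_mul_left hg hq.1) hq.2
  · intro p hp
    have h1 := right_ne_zero_of_mul hp
    have h2 : H (p.1 / Z) (p.2 / Z) ≠ 0 := right_ne_zero_of_mul (left_ne_zero_of_mul hp)
    have h3 : g ∣ p.1 := by
      by_contra h0
      simp [h0] at h1
    obtain ⟨⟨a1, a2⟩, a3, a4⟩ := h.supp _ _ h2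
    have a5 := (div_pos_iff_of_pos_right hZ).1 (h.a0.trans_le a1)
    have a6 := (div_pos_iff_of_pos_right hZ).1 (h.a0.trans_le a3)
    have a7 : 0 < p.1 := by exact_mod_cast a5
    have a8 : 0 < p.2 := by exact_mod_cast a6
    have a9 := (div_le_iff₀ hZ).1 a2
    have a10 := (div_le_iff₀ hZ).1 a4
    refine ⟨mem_box.2 ⟨⟨a7, a9⟩, a8, a10⟩, ?_⟩
    obtain ⟨d, hd⟩ := h3
    refine ⟨(d, p.2), mem_box.2 ⟨⟨?_, ?_⟩, a8, a10⟩, Prod.ext hd.symm rfl⟩
    · exact Nat.pos_of_mul_pos_left (hd ▸ a7)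
    · rw [hd, Nat.cast_mul] at a9
      rw [← mul_div_assoc, le_div_iff₀ hg0]
      linarith

lemma hp_le {w : ℂ} (hw : ‖w‖ ≤ 1) : ‖7 / 8 - w / 8‖ ≤ 1 - 7 / 64 * (1 + w.re) := by
  have h1 : w.re ^ 2 + w.im ^ 2 ≤ 1 := by
    have := Complex.sq_norm w
    rw [Complex.normSq_apply] at this
    nlinarith [norm_nonneg w]
  have h2 : w.re ≤ 1 := (Complex.re_le_norm w).trans hw
  refine abs_le_of_sq_le_sq' ?_ (by linarith) |>.2
  rw [Complex.sq_norm, Complex.normSq_apply]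
  have e1 : (7 / 8 - w / 8 : ℂ).re = 7 / 8 - w.re / 8 := by simp
  have e2 : (7 / 8 - w / 8 : ℂ).im = -(w.im / 8) := by simp
  rw [e1, e2]
  nlinarith [sq_nonneg (1 + w.re)]

lemma inner (hU : S_U) {k : ℕ} [NeZero k] {P : Finset ℕ}
    (hP : ∀ p ∈ P, p.Prime ∧ p ≠ 2 ∧ Nat.Coprime p k) (D e : ℕ) :
    ‖∑ S ∈ P.powerset, (8⁻¹ : ℂ) ^ S.card * (if (D : ZMod k) = (pr S : ZMod k) * e then
        (if pr S ∣ D then (uu P (D / pr S) : ℂ) else 0) else 0)‖ ≤
      ∑ χ : DirichletCharacter ℂ k, ∏ p ∈ P.filter (· ∣ D), (1 - 7 / 64 * (1 + (χ p).re)) := by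
  have h6 := (hU P fun p hp => ⟨(hP p hp).1, (hP p hp).2.1⟩).2.2.2.2.2.1
  have hb : ∀ S ∈ P.powerset, IsUnit ((pr S : ℕ) : ZMod k) := fun S hS =>
    (ZMod.isUnit_iff_coprime _ _).2
      (Nat.Coprime.prod_left fun p hp => (hP p (mem_powerset.1 hS hp)).2.2)
  have h1 := char_bound P.powerset (fun S => ((pr S : ℕ) : ZMod k)) hb
    (fun S => (8⁻¹ : ℂ) ^ S.card * (if pr S ∣ D then (uu P (D / pr S) : ℂ) else 0))
    (fun x => (D : ZMod k) = x * e)
  simp only [mul_ite, mul_zero] at h1 ⊢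
  refine h1.trans (sum_le_sum fun χ _ => ?_)
  refine le_trans (le_of_eq ?_) ((h6 (fun p => χ p) D).trans
    (prod_le_prod (fun _ _ => norm_nonneg _) fun p _ => hp_le (χ.norm_le_one _)))
  congr 1
  refine sum_congr rfl fun S _ => ?_
  split_ifs
  · rw [pr, Nat.cast_prod, map_prod]
    ring
  · rfl

end Ins

open Ins in
theorem insq (h : S_U) (hm : S_MM) : S_Ins := by
  obtain ⟨C, hC, hm⟩ := hm
  refine ⟨C ^ 2, by positivity, fun k _ P z J hP Λ hΛ H a b M hH hb hM Z Y hZ hz => ?_⟩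
  have hM0 : 0 ≤ M := (norm_nonneg _).trans (hM 0 0)
  obtain ⟨-, -, hu1, hu2, -⟩ := h P fun p hp => ⟨(hP p hp).1, (hP p hp).2.1⟩
  have hP' : ∀ p ∈ P, p.Prime ∧ p ≠ 2 ∧ Nat.Coprime p k := fun p hp =>
    ⟨(hP p hp).1, (hP p hp).2.1, (hP p hp).2.2.1⟩
  have hPz : ∀ p ∈ P, p.Prime ∧ p ≤ z := fun p hp => ⟨(hP p hp).1, (hP p hp).2.2.2⟩
  have hg : ∀ S ∈ P.powerset, 0 < pr S := fun S hS =>
    pr_pos fun p hp => (hP p (mem_powerset.1 hS hp)).1
  have hun : ∀ S ∈ P.powerset, IsUnit ((pr S : ℕ) : ZMod k) := fun S hS =>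
    (ZMod.isUnit_iff_coprime _ _).2
      (Nat.Coprime.prod_left fun p hp => (hP p (mem_powerset.1 hS hp)).2.2.1)
  rw [PJ, eq_sub_of_add_eq (sum_filter_add_sum_filter_not P.powerset (fun S => S.card ≤ J)
    fun S => (8⁻¹ : ℂ) ^ S.card * SS k (GG (uu P) (uu P) (Y / pr S)) H (Z / pr S) Z), mul_add]
  refine (norm_sub_le _ _).trans (add_le_add ?_ ?_)
  · rw [sum_congr rfl fun S hS => by rw [reidx (uu P) hH hZ Y (hg S hS) (hun S hS), mul_sum],
      sum_comm]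
    have e7 : ∑ e ∈ Ioc 0 ⌊b * Z⌋₊, |uu P e| ≤ C * (b * Z) * Real.exp (-(rc P / 8)) := by
      refine (sum_le_sum fun e _ => hu2 e).trans
        ((hm P z (b * Z) (fun _ => 7 / 8) hPz hz fun _ _ => by norm_num).trans (le_of_eq ?_))
      rw [rc, sum_div]
      congr 3
      exact sum_congr rfl fun p _ => by ring
    have eχ : ∀ χ : DirichletCharacter ℂ k, ∑ D ∈ Ioc 0 ⌊b * Z⌋₊,
        ∏ p ∈ P.filter (· ∣ D), (1 - 7 / 64 * (1 + (χ p).re)) ≤
        C * (b * Z) * Real.exp (-(7 / 64 * Λ)) := fun χ => by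
      refine (hm P z (b * Z) (fun p => 1 - 7 / 64 * (1 + (χ p).re)) hPz hz fun p _ => ?_).trans ?_
      · have := abs_le.1 ((Complex.abs_re_le_norm (χ p)).trans (χ.norm_le_one _))
        constructor <;> linarith [this.1, this.2]
      · have : 7 / 64 * Λ ≤ ∑ p ∈ P, (1 - (1 - 7 / 64 * (1 + (χ p).re))) / p := by
          refine (mul_le_mul_of_nonneg_left (hΛ χ) (by norm_num)).trans (le_of_eq ?_)
          rw [mul_sum]
          exact sum_congr rfl fun p _ => by ring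
        gcongr
    have ek : (Fintype.card (DirichletCharacter ℂ k) : ℝ) ≤ k := by
      rw [← Nat.card_eq_fintype_card, DirichletCharacter.card_eq_totient_of_hasEnoughRootsOfUnity]
      exact_mod_cast Nat.totient_le k
    calc _ ≤ ∑ p ∈ box (b * Z) (b * Z), (M * ∑ χ : DirichletCharacter ℂ k,
            ∏ q ∈ P.filter (· ∣ p.1), (1 - 7 / 64 * (1 + (χ q).re))) * |uu P p.2| := by
          refine (norm_sum_le _ _).trans (sum_le_sum fun p _ => ?_)
          simp only [mul_left_comm _ (Ins.cf (uu P) H Z Y p)]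
          rw [← mul_sum, norm_mul, Ins.cf, norm_mul, norm_mul, norm_ee, Complex.norm_real,
            Real.norm_eq_abs, mul_one]
          calc _ ≤ |uu P p.2| * M * _ := mul_le_mul (mul_le_mul_of_nonneg_left (hM _ _)
                (abs_nonneg _)) (inner h hP' p.1 p.2) (norm_nonneg _) (by positivity)
            _ = _ := by ring
      _ = M * (∑ χ : DirichletCharacter ℂ k, ∑ D ∈ Ioc 0 ⌊b * Z⌋₊,
            ∏ q ∈ P.filter (· ∣ D), (1 - 7 / 64 * (1 + (χ q).re))) *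
            ∑ e ∈ Ioc 0 ⌊b * Z⌋₊, |uu P e| := by
          rw [Inf.box, sum_product, sum_comm (s := univ), mul_sum _ _ M, sum_mul_sum]
      _ ≤ M * (k * (C * (b * Z) * Real.exp (-(7 / 64 * Λ)))) *
            (C * (b * Z) * Real.exp (-(rc P / 8))) := by
          refine mul_le_mul (mul_le_mul_of_nonneg_left ?_ hM0) e7 (by positivity) (by positivity)
          refine (sum_le_card_nsmul _ _ _ fun χ _ => eχ χ).trans ?_
          rw [nsmul_eq_mul, card_univ]
          exact mul_le_mul_of_nonneg_right ek (by positivity)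
      _ = _ := by
          rw [sub_eq_add_neg, Real.exp_add]
          ring
  · have e1 := tail_c (c := 8⁻¹) (by norm_num) P J
    rw [show 2 * 8⁻¹ * rc P = rc P / 4 by ring] at e1
    refine (norm_sum_le _ _).trans (le_trans ?_ (mul_le_mul_of_nonneg_left e1 (by positivity)))
    rw [mul_sum]
    refine sum_le_sum fun S hS => ?_
    have g0 : (0 : ℝ) < pr S := by exact_mod_cast hg S (mem_filter.1 hS).1
    rw [norm_mul, norm_pow, norm_inv, Complex.norm_ofNat]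
    refine (mul_le_mul_of_nonneg_left (norm_SS (norm_GG hu1 hu1 _) hH hb hM (div_pos hZ g0) hZ)
      (by positivity)).trans (le_of_eq ?_)
    field_simp

end Pool.Agent.P.MP_26a8c3_nt.Lg
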